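import Mathlib

/-!
# Cotype zeta functions of (not necessarily associative) `ℤ`-algebras

Definitions for MP_f418a9_al, for the number field `K = ℚ`, `𝒪 = ℤ`.

A `ℤ`-algebra of rank `d` is the free module `ℤ^d` with a bilinear multiplication, given by its
structure constants `c i j k` : `e_i * e_j = ∑ k, c i j k • e_k`.
-/

open scoped BigOperators

namespace Pool.Agent.MP_f418a9_al

/-- Structure constants of a `ℤ`-algebra of rank `d` (a `ℤ`-bilinear multiplication on `ℤ^d`,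
not assumed associative): `e_i * e_j = ∑ k, c i j k • e_k`. -/
abbrev StructureConstants (d : ℕ) : Type := Fin d → Fin d → Fin d → ℤ

/-- The multiplication of `L(ℤ_p) = ℤ_p ⊗ L = ℤ_p^d`. -/
noncomputable def locMul (p : ℕ) [Fact p.Prime] {d : ℕ} (c : StructureConstants d)
    (x y : Fin d → ℤ_[p]) : Fin d → ℤ_[p] :=
  fun k => ∑ i, ∑ j, (c i j k : ℤ_[p]) * (x i * y j)

/-- `Λ` is a subalgebra of `L(ℤ_p)`, i.e. a submodule closed under multiplication. -/
def IsSubalg (p : ℕ) [Fact p.Prime] {d : ℕ} (c : StructureConstants d)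
    (Λ : Submodule ℤ_[p] (Fin d → ℤ_[p])) : Prop :=
  ∀ x ∈ Λ, ∀ y ∈ Λ, locMul p c x y ∈ Λ

/-- `Λ` is a two-sided ideal of `L(ℤ_p)`. -/
def IsIdeal2 (p : ℕ) [Fact p.Prime] {d : ℕ} (c : StructureConstants d)
    (Λ : Submodule ℤ_[p] (Fin d → ℤ_[p])) : Prop :=
  ∀ x ∈ Λ, ∀ y, locMul p c x y ∈ Λ ∧ locMul p c y x ∈ Λ

/-- `Λ` has cotype `(p^{k_1}, …, p^{k_d})`: `k_1 ≥ … ≥ k_d` and
`ℤ_p^d / Λ ≅ ⨁ ℤ_p / p^{k_i}`. -/
def HasCotype (p : ℕ) [Fact p.Prime] {d : ℕ} (Λ : Submodule ℤ_[p] (Fin d → ℤ_[p]))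
    (k : Fin d → ℕ) : Prop :=
  Antitone k ∧ Nonempty (((Fin d → ℤ_[p]) ⧸ Λ) ≃ₗ[ℤ_[p]]
    (∀ i, ℤ_[p] ⧸ Ideal.span {(p : ℤ_[p]) ^ (k i)}))

/-- The cotype zeta function of a family `S` of submodules of `ℤ_p^d`, as a formal power series in
`Y_1, …, Y_d` (`Y_i = p^{-s_i}`): the coefficient of `Y^k` is the number of members of `S` of
cotype `(p^{k_1}, …, p^{k_d})`. -/
noncomputable def zetaCo (p : ℕ) [Fact p.Prime] {d : ℕ}
    (S : Submodule ℤ_[p] (Fin d → ℤ_[p]) → Prop) : MvPowerSeries (Fin d) ℤ :=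
  fun k => ({Λ | S Λ ∧ HasCotype p Λ k}.ncard : ℤ)

/-- The zeta function of a family `S` of submodules of `ℤ_p^d`, as a formal power series in one
variable `Y = p^{-s}`: the coefficient of `Y^n` is the number of members of `S` of index `p^n`. -/
noncomputable def zetaIdx (p : ℕ) [Fact p.Prime] {d : ℕ}
    (S : Submodule ℤ_[p] (Fin d → ℤ_[p]) → Prop) : PowerSeries ℤ :=
  PowerSeries.mk fun n => ({Λ | S Λ ∧ Nat.card ((Fin d → ℤ_[p]) ⧸ Λ) = p ^ n}.ncard : ℤ)

/-- Specialisation `X := q` of a polynomial in `X` and the variables `σ`. -/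
noncomputable def evalX {σ : Type*} (q : ℕ) (F : MvPolynomial σ (Polynomial ℤ)) :
    MvPolynomial σ ℤ :=
  MvPolynomial.map (Polynomial.evalRingHom (q : ℤ)) F

/-- A family `Z_p` (one for each prime `p`) of formal power series in the variables `σ` is uniform
if there is a rational function `W = F / G ∈ ℚ(X, Y_σ)` with `Z_p = W(p, Y)` for all but finitely
many primes `p`. -/
def IsUniform {σ : Type*} (Z : ∀ p : ℕ, [Fact p.Prime] → MvPowerSeries σ ℤ) : Prop :=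
  ∃ F G : MvPolynomial σ (Polynomial ℤ), ∃ N : ℕ, ∀ (p : ℕ) [Fact p.Prime], N < p →
    evalX p G ≠ 0 ∧
      (evalX p G : MvPowerSeries σ ℤ) * Z p = (evalX p F : MvPowerSeries σ ℤ)

end Pool.Agent.MP_f418a9_al
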