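import Mathlib

/-!
# Submodules of `ℤ_p × N` of finite index
-/

open scoped BigOperators

namespace Pool.Agent.MP_f418a9_al

section general

variable {R : Type*} [CommRing R] {M M' : Type*} [AddCommGroup M] [AddCommGroup M'] [Module R M]
  [Module R M']

lemma card_quot_of_surj (f : M →ₗ[R] M') (hf : Function.Surjective f) {K : Submodule R M}
    (hK : LinearMap.ker f = K) : Nat.card (M ⧸ K) = Nat.card M' := by
  subst hK
  exact Nat.card_congr (f.quotKerEquivOfSurjective hf).toEquiv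

end general

variable {p : ℕ} [hp : Fact p.Prime]

lemma ppow_ne_zero (a : ℕ) : (p : ℤ_[p]) ^ a ≠ 0 :=
  pow_ne_zero _ (Nat.cast_ne_zero.mpr hp.1.ne_zero)

lemma card_quot_ppow (a : ℕ) : Nat.card (ℤ_[p] ⧸ Ideal.span {(p : ℤ_[p]) ^ a}) = p ^ a := by
  have h1 : Function.Surjective (PadicInt.toZModPow a : ℤ_[p] →+* ZMod (p ^ a)) :=
    ZMod.ringHom_surjective _
  have e := RingHom.quotientKerEquivOfSurjective h1
  have e2 : (ℤ_[p] ⧸ Ideal.span {(p : ℤ_[p]) ^ a}) ≃+*
      (ℤ_[p] ⧸ RingHom.ker (PadicInt.toZModPow a : ℤ_[p] →+* ZMod (p ^ a))) :=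
    Ideal.quotEquivOfEq (PadicInt.ker_toZModPow a).symm
  rw [Nat.card_congr (e2.trans e).toEquiv, Nat.card_zmod]

lemma ppow_dvd_ppow {a b : ℕ} : (p : ℤ_[p]) ^ a ∣ (p : ℤ_[p]) ^ b ↔ a ≤ b := by
  constructor
  · intro h
    by_contra hlt
    push Not at hlt
    obtain ⟨k, rfl⟩ := Nat.exists_eq_add_of_lt hlt
    rw [add_assoc, pow_add] at h
    have h1 : (p : ℤ_[p]) ^ (k + 1) ∣ 1 := by
      rw [← mul_dvd_mul_iff_left (ppow_ne_zero (p := p) b), mul_one]
      exact h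
    have h2 : (p : ℤ_[p]) ∣ 1 := dvd_trans (dvd_pow_self _ (Nat.succ_ne_zero k)) h1
    exact PadicInt.irreducible_p.not_isUnit (isUnit_of_dvd_one h2)
  · intro h; exact pow_dvd_pow _ h

variable {N : Type*} [AddCommGroup N] [Module ℤ_[p] N]

/-- The submodule `{(c p^a, c x + m) : c ∈ ℤ_p, m ∈ M}` of `ℤ_p × N`. -/
def extMod (a : ℕ) (M : Submodule ℤ_[p] N) (x : N) : Submodule ℤ_[p] (ℤ_[p] × N) where
  carrier := {z | ∃ c : ℤ_[p], z.1 = c * (p : ℤ_[p]) ^ a ∧ z.2 - c • x ∈ M}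
  add_mem' := by
    rintro z w ⟨c, h1, h2⟩ ⟨d, h3, h4⟩
    refine ⟨c + d, ?_, ?_⟩
    · rw [Prod.fst_add, h1, h3]; ring
    · have : (z + w).2 - (c + d) • x = (z.2 - c • x) + (w.2 - d • x) := by
        rw [Prod.snd_add, add_smul]; abel
      rw [this]; exact M.add_mem h2 h4
  zero_mem' := ⟨0, by simp, by simp⟩
  smul_mem' := by
    rintro r z ⟨c, h1, h2⟩
    refine ⟨r * c, ?_, ?_⟩
    · rw [Prod.smul_fst, h1, smul_eq_mul]; ring
    · have : (r • z).2 - (r * c) • x = r • (z.2 - c • x) := by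
        rw [Prod.smul_snd, smul_sub, mul_smul]
      rw [this]; exact M.smul_mem r h2

lemma mem_extMod {a : ℕ} {M : Submodule ℤ_[p] N} {x : N} {z : ℤ_[p] × N} :
    z ∈ extMod a M x ↔ ∃ c : ℤ_[p], z.1 = c * (p : ℤ_[p]) ^ a ∧ z.2 - c • x ∈ M := Iff.rfl

lemma zero_mem_extMod {a : ℕ} {M : Submodule ℤ_[p] N} {x u : N} :
    ((0 : ℤ_[p]), u) ∈ extMod a M x ↔ u ∈ M := by
  rw [mem_extMod]
  constructor
  · rintro ⟨c, h1, h2⟩
    have hc : c = 0 := by
      rcases mul_eq_zero.mp h1.symm with h | h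
      · exact h
      · exact absurd h (ppow_ne_zero a)
    subst hc
    simpa using h2
  · intro h
    exact ⟨0, by simp, by simpa using h⟩

lemma self_mem_extMod {a : ℕ} {M : Submodule ℤ_[p] N} {x : N} :
    ((p : ℤ_[p]) ^ a, x) ∈ extMod a M x := ⟨1, by simp, by simp⟩

theorem extMod_inj {a a' : ℕ} {M M' : Submodule ℤ_[p] N} {x x' : N} :
    extMod a M x = extMod a' M' x' ↔ a = a' ∧ M = M' ∧ x - x' ∈ M := by
  constructor
  · intro h
    have hM : M = M' := by
      ext u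
      rw [← zero_mem_extMod (a := a) (x := x), h, zero_mem_extMod]
    subst hM
    have h1 : ((p : ℤ_[p]) ^ a, x) ∈ extMod a' M x' := h ▸ self_mem_extMod
    have h2 : ((p : ℤ_[p]) ^ a', x') ∈ extMod a M x := h ▸ self_mem_extMod
    obtain ⟨c, hc1, hc2⟩ := h1
    obtain ⟨d, hd1, hd2⟩ := h2
    have ha : a = a' := by
      apply le_antisymm
      · rw [← ppow_dvd_ppow (p := p)]
        exact ⟨d, by rw [mul_comm]; exact hd1⟩
      · rw [← ppow_dvd_ppow (p := p)]
        exact ⟨c, by rw [mul_comm]; exact hc1⟩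
    subst ha
    refine ⟨rfl, rfl, ?_⟩
    have hc : c = 1 := by
      have : (c - 1) * (p : ℤ_[p]) ^ a = 0 := by
        simp only at hc1
        rw [sub_mul, ← hc1, one_mul, sub_self]
      rcases mul_eq_zero.mp this with h | h
      · exact sub_eq_zero.mp h
      · exact absurd h (ppow_ne_zero a)
    subst hc
    simpa using hc2
  · rintro ⟨rfl, rfl, h⟩
    ext z
    rw [mem_extMod, mem_extMod]
    constructor
    · rintro ⟨c, h1, h2⟩
      refine ⟨c, h1, ?_⟩
      have : z.2 - c • x' = (z.2 - c • x) + c • (x - x') := by rw [smul_sub]; abel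
      rw [this]
      exact M.add_mem h2 (M.smul_mem c h)
    · rintro ⟨c, h1, h2⟩
      refine ⟨c, h1, ?_⟩
      have : z.2 - c • x = (z.2 - c • x') - c • (x - x') := by rw [smul_sub]; abel
      rw [this]
      exact M.sub_mem h2 (M.smul_mem c h)

/-- The index of `extMod a M x`. -/
theorem card_quot_extMod (a : ℕ) (M : Submodule ℤ_[p] N) (x : N) :
    Nat.card ((ℤ_[p] × N) ⧸ extMod a M x) = p ^ a * Nat.card (N ⧸ M) := by
  let g : (ℤ_[p] × N) →ₗ[ℤ_[p]] (ℤ_[p] ⧸ Ideal.span {(p : ℤ_[p]) ^ a}) :=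
    (Ideal.span {(p : ℤ_[p]) ^ a}).mkQ ∘ₗ LinearMap.fst ℤ_[p] ℤ_[p] N
  have hg : Function.Surjective g :=
    (Submodule.mkQ_surjective _).comp LinearMap.fst_surjective
  have hle : extMod a M x ≤ LinearMap.ker g := by
    rintro z ⟨c, h1, -⟩
    rw [LinearMap.mem_ker]
    simp only [g, LinearMap.comp_apply, LinearMap.fst_apply, Submodule.mkQ_apply]
    rw [Submodule.Quotient.mk_eq_zero, h1]
    exact Ideal.mul_mem_left _ _ (Ideal.mem_span_singleton_self _)
  rw [← Submodule.card_quotient_mul_card_quotient (LinearMap.ker g) (extMod a M x) hle,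
    card_quot_of_surj g hg rfl, card_quot_ppow, mul_comm]
  congr 1
  -- the image of `ker g` in the quotient is isomorphic to `N ⧸ M`
  let α : N →ₗ[ℤ_[p]] ((ℤ_[p] × N) ⧸ extMod a M x) :=
    (extMod a M x).mkQ ∘ₗ LinearMap.inr ℤ_[p] ℤ_[p] N
  have hα : LinearMap.ker α = M := by
    ext u
    rw [LinearMap.mem_ker]
    simp only [α, LinearMap.comp_apply, LinearMap.inr_apply, Submodule.mkQ_apply]
    rw [Submodule.Quotient.mk_eq_zero, zero_mem_extMod]
  have hr : LinearMap.range α = (LinearMap.ker g).map (extMod a M x).mkQ := by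
    ext q
    rw [LinearMap.mem_range, Submodule.mem_map]
    constructor
    · rintro ⟨u, rfl⟩
      refine ⟨(0, u), ?_, rfl⟩
      rw [LinearMap.mem_ker]
      simp [g]
    · rintro ⟨z, hz, rfl⟩
      rw [LinearMap.mem_ker] at hz
      simp only [g, LinearMap.comp_apply, LinearMap.fst_apply, Submodule.mkQ_apply] at hz
      rw [Submodule.Quotient.mk_eq_zero, Ideal.mem_span_singleton'] at hz
      obtain ⟨c, hc⟩ := hz
      refine ⟨z.2 - c • x, ?_⟩
      simp only [α, LinearMap.comp_apply, LinearMap.inr_apply, Submodule.mkQ_apply]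
      rw [Submodule.Quotient.eq]
      refine ⟨-c, ?_, ?_⟩
      · simp [← hc]
      · simp
  rw [← hr]
  rw [← Nat.card_congr α.quotKerEquivRange.toEquiv, hα]

/-- Every submodule of `ℤ_p × N` of finite index is an `extMod`. -/
theorem exists_extMod (Λ : Submodule ℤ_[p] (ℤ_[p] × N)) [Finite ((ℤ_[p] × N) ⧸ Λ)] :
    ∃ (a : ℕ) (M : Submodule ℤ_[p] N) (x : N), Λ = extMod a M x ∧ Finite (N ⧸ M) := by
  let I : Ideal ℤ_[p] := Λ.map (LinearMap.fst ℤ_[p] ℤ_[p] N)
  have hI : I ≠ ⊥ := by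
    intro h0
    -- otherwise `ℤ_p` would inject in the finite quotient
    let f : ℤ_[p] → ((ℤ_[p] × N) ⧸ Λ) := fun r => Λ.mkQ (r, 0)
    have hf : Function.Injective f := by
      intro r s hrs
      simp only [f, Submodule.mkQ_apply] at hrs
      rw [Submodule.Quotient.eq] at hrs
      have : (r - s) ∈ I := ⟨_, hrs, by simp⟩
      rw [h0, Submodule.mem_bot] at this
      exact sub_eq_zero.mp this
    have := Finite.of_injective f hf
    exact not_finite ℤ_[p]
  have hspan : ∃ a : ℕ, I = Ideal.span {(p : ℤ_[p]) ^ a} := PadicInt.ideal_eq_span_pow_p hI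
  obtain ⟨a, ha⟩ := hspan
  have h1 : (p : ℤ_[p]) ^ a ∈ I := by rw [ha]; exact Ideal.mem_span_singleton_self _
  obtain ⟨z, hz, hz1⟩ := h1
  simp only [LinearMap.fst_apply] at hz1
  let M : Submodule ℤ_[p] N := Λ.comap (LinearMap.inr ℤ_[p] ℤ_[p] N)
  refine ⟨a, M, z.2, ?_, ?_⟩
  · ext w
    rw [mem_extMod]
    constructor
    · intro hw
      have hwI : w.1 ∈ I := ⟨w, hw, rfl⟩
      rw [ha, Ideal.mem_span_singleton'] at hwI
      obtain ⟨c, hc⟩ := hwI
      refine ⟨c, hc.symm, ?_⟩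
      change LinearMap.inr ℤ_[p] ℤ_[p] N (w.2 - c • z.2) ∈ Λ
      have : LinearMap.inr ℤ_[p] ℤ_[p] N (w.2 - c • z.2) = w - c • z := by
        refine Prod.ext ?_ ?_
        · simp [← hc, hz1]
        · simp
      rw [this]
      exact Λ.sub_mem hw (Λ.smul_mem c hz)
    · rintro ⟨c, hc1, hc2⟩
      have h3 : LinearMap.inr ℤ_[p] ℤ_[p] N (w.2 - c • z.2) ∈ Λ := hc2
      have : w = LinearMap.inr ℤ_[p] ℤ_[p] N (w.2 - c • z.2) + c • z := by
        refine Prod.ext ?_ ?_
        · simp [hc1, hz1]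
        · simp
      rw [this]
      exact Λ.add_mem h3 (Λ.smul_mem c hz)
  · let α : N →ₗ[ℤ_[p]] ((ℤ_[p] × N) ⧸ Λ) := Λ.mkQ ∘ₗ LinearMap.inr ℤ_[p] ℤ_[p] N
    have hα : LinearMap.ker α = M := by
      rw [LinearMap.ker_comp, Submodule.ker_mkQ]
    rw [← hα]
    exact Finite.of_injective _ (α.quotKerEquivRange.injective)

end Pool.Agent.MP_f418a9_al
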