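import Mathlib
import Pool.Agent.Work.MP_f418a9_al.Ext

/-!
# Classification of the submodules of finite index of `ℤ_p × ℤ_p`
-/

open scoped BigOperators

noncomputable section

namespace Pool.Agent.MP_f418a9_al

variable {p : ℕ} [hp : Fact p.Prime]

lemma not_isUnit_iff_dvd (x : ℤ_[p]) : ¬ IsUnit x ↔ (p : ℤ_[p]) ∣ x := by
  rw [PadicInt.not_isUnit_iff, PadicInt.norm_lt_one_iff_dvd]

lemma isUnit_iff_not_dvd (x : ℤ_[p]) : IsUnit x ↔ ¬ (p : ℤ_[p]) ∣ x := by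
  rw [← not_isUnit_iff_dvd, not_not]

/-- approximation of a `p`-adic integer modulo `p^m` -/
lemma exists_approx (ζ : ℤ_[p]) (m : ℕ) : ∃ z : Fin (p ^ m), (p : ℤ_[p]) ^ m ∣ ζ - ((z : ℕ) : ℤ_[p]) := by
  refine ⟨⟨PadicInt.appr ζ m, PadicInt.appr_lt ζ m⟩, ?_⟩
  exact Ideal.mem_span_singleton.mp (PadicInt.appr_spec m ζ)

lemma approx_unique {m : ℕ} {z z' : ℕ} (hz : z < p ^ m) (hz' : z' < p ^ m)
    (h : (p : ℤ_[p]) ^ m ∣ (z : ℤ_[p]) - (z' : ℤ_[p])) : z = z' := by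
  have h1 : (p : ℤ_[p]) ^ m ∣ (((z : ℤ) - (z' : ℤ) : ℤ) : ℤ_[p]) := by
    push_cast; exact h
  rw [PadicInt.pow_p_dvd_int_iff] at h1
  have h2 : (z' : ℤ) ≡ z [ZMOD (p ^ m : ℤ)] := (Int.modEq_iff_dvd).mpr h1
  have h3 : z' ≡ z [MOD p ^ m] := by
    rw [← Int.natCast_modEq_iff]; push_cast; exact h2
  have := Nat.ModEq.eq_of_lt_of_lt h3 hz' hz
  exact this.symm

/-- Shear: `(u₁, u₂) ↦ (u₁, u₂ - r u₁)`. -/
def shear (r : ℤ_[p]) : (ℤ_[p] × ℤ_[p]) ≃ₗ[ℤ_[p]] (ℤ_[p] × ℤ_[p]) where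
  toFun u := (u.1, u.2 - r * u.1)
  invFun u := (u.1, u.2 + r * u.1)
  map_add' u v := by simp only [Prod.fst_add, Prod.snd_add, Prod.mk_add_mk]; congr 1; ring
  map_smul' c u := by
    simp only [Prod.smul_fst, Prod.smul_snd, smul_eq_mul, RingHom.id_apply, Prod.smul_mk]
    congr 1; ring
  left_inv u := by simp
  right_inv u := by simp

/-- Swapped shear: `(u₁, u₂) ↦ (u₂, u₁ - r u₂)`. -/
def shear' (r : ℤ_[p]) : (ℤ_[p] × ℤ_[p]) ≃ₗ[ℤ_[p]] (ℤ_[p] × ℤ_[p]) where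
  toFun u := (u.2, u.1 - r * u.2)
  invFun u := (u.2 + r * u.1, u.1)
  map_add' u v := by simp only [Prod.fst_add, Prod.snd_add, Prod.mk_add_mk]; congr 1; ring
  map_smul' c u := by
    simp only [Prod.smul_fst, Prod.smul_snd, smul_eq_mul, RingHom.id_apply, Prod.smul_mk]
    congr 1; ring
  left_inv u := by simp
  right_inv u := by simp

/-- Points of the projective line over `ℤ / p^m`: `(1 : z)` and `(p z : 1)`. -/
abbrev Pt (p m : ℕ) : Type := Fin (p ^ m) ⊕ {_z : Fin (p ^ (m - 1)) // 0 < m}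

omit hp in
lemma card_Pt (m : ℕ) : Nat.card (Pt p m) = p ^ m + (if m = 0 then 0 else p ^ (m - 1)) := by
  rw [Nat.card_eq_fintype_card, Fintype.card_sum, Fintype.card_fin]
  congr 1
  split_ifs with h
  · exact Fintype.card_eq_zero_iff.mpr ⟨fun x => absurd x.2 (by omega)⟩
  · rw [Fintype.card_subtype]
    have : 0 < m := Nat.pos_of_ne_zero h
    simp [this]

/-- Adapted coordinates. -/
def planeE {m : ℕ} (s : Pt p m) : (ℤ_[p] × ℤ_[p]) ≃ₗ[ℤ_[p]] (ℤ_[p] × ℤ_[p]) :=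
  match s with
  | Sum.inl z => shear (((z : ℕ) : ℤ_[p]))
  | Sum.inr z => shear' ((p : ℤ_[p]) * ((z.1 : ℕ) : ℤ_[p]))

/-- The lattice `p^i × p^j` in the coordinates `e`. -/
def diagLat (e : (ℤ_[p] × ℤ_[p]) ≃ₗ[ℤ_[p]] (ℤ_[p] × ℤ_[p])) (i j : ℕ) :
    Submodule ℤ_[p] (ℤ_[p] × ℤ_[p]) :=
  Submodule.comap (e : (ℤ_[p] × ℤ_[p]) →ₗ[ℤ_[p]] (ℤ_[p] × ℤ_[p]))
    (Submodule.prod (Ideal.span {(p : ℤ_[p]) ^ i}) (Ideal.span {(p : ℤ_[p]) ^ j}))

lemma mem_diagLat {e : (ℤ_[p] × ℤ_[p]) ≃ₗ[ℤ_[p]] (ℤ_[p] × ℤ_[p])} {i j : ℕ}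
    {u : ℤ_[p] × ℤ_[p]} :
    u ∈ diagLat e i j ↔ (p : ℤ_[p]) ^ i ∣ (e u).1 ∧ (p : ℤ_[p]) ^ j ∣ (e u).2 := by
  unfold diagLat
  rw [Submodule.mem_comap, Submodule.mem_prod, Ideal.mem_span_singleton, Ideal.mem_span_singleton]
  rfl

theorem card_quot_diagLat (e : (ℤ_[p] × ℤ_[p]) ≃ₗ[ℤ_[p]] (ℤ_[p] × ℤ_[p])) (i j : ℕ) :
    Nat.card ((ℤ_[p] × ℤ_[p]) ⧸ diagLat e i j) = p ^ (i + j) := by
  let f : (ℤ_[p] × ℤ_[p]) →ₗ[ℤ_[p]]
      ((ℤ_[p] ⧸ Ideal.span {(p : ℤ_[p]) ^ i}) × (ℤ_[p] ⧸ Ideal.span {(p : ℤ_[p]) ^ j})) :=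
    (LinearMap.prodMap (Ideal.span {(p : ℤ_[p]) ^ i}).mkQ (Ideal.span {(p : ℤ_[p]) ^ j}).mkQ)
      ∘ₗ (e : (ℤ_[p] × ℤ_[p]) →ₗ[ℤ_[p]] (ℤ_[p] × ℤ_[p]))
  have hf : Function.Surjective f := by
    have h1 : Function.Surjective (LinearMap.prodMap (Ideal.span {(p : ℤ_[p]) ^ i}).mkQ
        (Ideal.span {(p : ℤ_[p]) ^ j}).mkQ) :=
      Function.Surjective.prodMap (Submodule.mkQ_surjective _) (Submodule.mkQ_surjective _)
    exact h1.comp e.surjective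
  rw [card_quot_of_surj f hf (K := diagLat e i j), Nat.card_prod, card_quot_ppow, card_quot_ppow,
    pow_add]
  ext u
  rw [mem_diagLat, LinearMap.mem_ker]
  simp only [f, LinearMap.comp_apply, LinearEquiv.coe_coe, LinearMap.prodMap_apply,
    Submodule.mkQ_apply, Prod.mk_eq_zero, Submodule.Quotient.mk_eq_zero,
    Ideal.mem_span_singleton]

/-- The lattice `p^b (ℤ_p v + p^m ℤ_p^2)`, `v` the point `s`. -/
def lat (b : ℕ) {m : ℕ} (s : Pt p m) : Submodule ℤ_[p] (ℤ_[p] × ℤ_[p]) :=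
  diagLat (planeE s) b (b + m)

lemma mem_lat_inl {b m : ℕ} {z : Fin (p ^ m)} {u : ℤ_[p] × ℤ_[p]} :
    u ∈ lat (p := p) b (m := m) (Sum.inl z) ↔
      (p : ℤ_[p]) ^ b ∣ u.1 ∧ (p : ℤ_[p]) ^ (b + m) ∣ u.2 - ((z : ℕ) : ℤ_[p]) * u.1 := by
  unfold lat
  rw [mem_diagLat]
  rfl

lemma mem_lat_inr {b m : ℕ} {z : {_z : Fin (p ^ (m - 1)) // 0 < m}} {u : ℤ_[p] × ℤ_[p]} :
    u ∈ lat (p := p) b (m := m) (Sum.inr z) ↔
      (p : ℤ_[p]) ^ b ∣ u.2 ∧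
        (p : ℤ_[p]) ^ (b + m) ∣ u.1 - ((p : ℤ_[p]) * ((z.1 : ℕ) : ℤ_[p])) * u.2 := by
  unfold lat
  rw [mem_diagLat]
  rfl

/-- Both coordinates of an element of `lat b s` are divisible by `p^b`. -/
lemma dvd_of_mem_lat {b m : ℕ} {s : Pt p m} {u : ℤ_[p] × ℤ_[p]} (h : u ∈ lat b s) :
    (p : ℤ_[p]) ^ b ∣ u.1 ∧ (p : ℤ_[p]) ^ b ∣ u.2 := by
  rcases s with z | z
  · rw [mem_lat_inl] at h
    refine ⟨h.1, ?_⟩
    have h2 := dvd_trans (pow_dvd_pow _ (Nat.le_add_right b m)) h.2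
    have : u.2 = (u.2 - ((z : ℕ) : ℤ_[p]) * u.1) + ((z : ℕ) : ℤ_[p]) * u.1 := by ring
    rw [this]
    exact dvd_add h2 (Dvd.dvd.mul_left h.1 _)
  · rw [mem_lat_inr] at h
    refine ⟨?_, h.1⟩
    have h2 := dvd_trans (pow_dvd_pow _ (Nat.le_add_right b m)) h.2
    have : u.1 = (u.1 - ((p : ℤ_[p]) * ((z.1 : ℕ) : ℤ_[p])) * u.2) +
      ((p : ℤ_[p]) * ((z.1 : ℕ) : ℤ_[p])) * u.2 := by ring
    rw [this]
    exact dvd_add h2 (Dvd.dvd.mul_left h.1 _)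

lemma mem_lat_of_dvd {b m : ℕ} {s : Pt p m} {u : ℤ_[p] × ℤ_[p]}
    (h1 : (p : ℤ_[p]) ^ (b + m) ∣ u.1) (h2 : (p : ℤ_[p]) ^ (b + m) ∣ u.2) : u ∈ lat b s := by
  rcases s with z | z
  · rw [mem_lat_inl]
    exact ⟨dvd_trans (pow_dvd_pow _ (Nat.le_add_right b m)) h1,
      dvd_sub h2 (Dvd.dvd.mul_left h1 _)⟩
  · rw [mem_lat_inr]
    exact ⟨dvd_trans (pow_dvd_pow _ (Nat.le_add_right b m)) h2,
      dvd_sub h1 (Dvd.dvd.mul_left h2 _)⟩

/-- A vector `v` of `lat b s` which is `p^b` times a primitive vector. -/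
def latVec (b : ℕ) {m : ℕ} (s : Pt p m) : ℤ_[p] × ℤ_[p] :=
  match s with
  | Sum.inl z => ((p : ℤ_[p]) ^ b, ((z : ℕ) : ℤ_[p]) * (p : ℤ_[p]) ^ b)
  | Sum.inr z => ((p : ℤ_[p]) * ((z.1 : ℕ) : ℤ_[p]) * (p : ℤ_[p]) ^ b, (p : ℤ_[p]) ^ b)

lemma latVec_mem (b : ℕ) {m : ℕ} (s : Pt p m) : latVec b s ∈ lat b s := by
  rcases s with z | z
  · rw [mem_lat_inl]
    simp [latVec]
  · rw [mem_lat_inr]
    simp [latVec]

lemma le_of_latVec_dvd {b c m : ℕ} {s : Pt p m} (h1 : (p : ℤ_[p]) ^ c ∣ (latVec b s).1)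
    (h2 : (p : ℤ_[p]) ^ c ∣ (latVec b s).2) : c ≤ b := by
  rcases s with z | z
  · exact ppow_dvd_ppow.mp h1
  · exact ppow_dvd_ppow.mp h2

theorem card_quot_lat (b : ℕ) {m : ℕ} (s : Pt p m) :
    Nat.card ((ℤ_[p] × ℤ_[p]) ⧸ lat b s) = p ^ (2 * b + m) := by
  unfold lat
  rw [card_quot_diagLat]
  congr 1; omega

/-- Uniqueness of the parameters. -/
theorem lat_inj {b b' m m' : ℕ} {s : Pt p m} {s' : Pt p m'} (h : lat b s = lat b' s') :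
    (⟨b, m, s⟩ : Σ (_ : ℕ) (m : ℕ), Pt p m) = ⟨b', m', s'⟩ := by
  have hb : b = b' := by
    apply le_antisymm
    · have := latVec_mem b' s'
      rw [← h] at this
      obtain ⟨h1, h2⟩ := dvd_of_mem_lat this
      exact le_of_latVec_dvd h1 h2
    · have := latVec_mem b s
      rw [h] at this
      obtain ⟨h1, h2⟩ := dvd_of_mem_lat this
      exact le_of_latVec_dvd h1 h2
  subst hb
  have hm : m = m' := by
    have h1 := card_quot_lat b s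
    have h2 := card_quot_lat b s'
    rw [h, h2] at h1
    have := Nat.pow_right_injective hp.1.two_le h1
    omega
  subst hm
  have hs : s = s' := by
    have hv := latVec_mem b s
    have hv' := latVec_mem b s'
    rw [h] at hv
    rw [← h] at hv'
    have aux : ∀ (z : Fin (p ^ m)) (z' : {_z : Fin (p ^ (m - 1)) // 0 < m}),
        latVec b (Sum.inl z : Pt p m) ∈ lat b (Sum.inr z' : Pt p m) → False := by
      intro z z' hz
      rw [mem_lat_inr] at hz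
      obtain ⟨-, hz⟩ := hz
      simp only [latVec] at hz
      have h3 : (p : ℤ_[p]) ^ b - (p : ℤ_[p]) * ((z'.1 : ℕ) : ℤ_[p]) *
          (((z : ℕ) : ℤ_[p]) * (p : ℤ_[p]) ^ b) =
          (p : ℤ_[p]) ^ b * (1 - (p : ℤ_[p]) * (((z'.1 : ℕ) : ℤ_[p]) * ((z : ℕ) : ℤ_[p]))) := by
        ring
      rw [h3, pow_add, mul_dvd_mul_iff_left (ppow_ne_zero b)] at hz
      have h4 : (p : ℤ_[p]) ∣ 1 - (p : ℤ_[p]) * (((z'.1 : ℕ) : ℤ_[p]) * ((z : ℕ) : ℤ_[p])) :=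
        dvd_trans (dvd_pow_self _ z'.2.ne') hz
      have h5 : (p : ℤ_[p]) ∣ 1 := by
        have := dvd_add h4 (Dvd.intro _ rfl : (p : ℤ_[p]) ∣
          (p : ℤ_[p]) * (((z'.1 : ℕ) : ℤ_[p]) * ((z : ℕ) : ℤ_[p])))
        simpa using this
      exact PadicInt.irreducible_p.not_isUnit (isUnit_of_dvd_one h5)
    rcases s with z | z <;> rcases s' with z' | z'
    · rw [mem_lat_inl] at hv
      simp only [latVec] at hv
      have h3 : ((z : ℕ) : ℤ_[p]) * (p : ℤ_[p]) ^ b - ((z' : ℕ) : ℤ_[p]) * (p : ℤ_[p]) ^ b =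
        (p : ℤ_[p]) ^ b * (((z : ℕ) : ℤ_[p]) - ((z' : ℕ) : ℤ_[p])) := by ring
      rw [h3, pow_add, mul_dvd_mul_iff_left (ppow_ne_zero b)] at hv
      have := approx_unique z.2 z'.2 hv.2
      exact congrArg _ (Fin.ext this)
    · exact (aux _ _ hv).elim
    · exact (aux _ _ hv').elim
    · rw [mem_lat_inr] at hv
      simp only [latVec] at hv
      obtain ⟨k, hk⟩ : ∃ k, m = k + 1 := ⟨m - 1, by have := z.2; omega⟩
      have h3 : (p : ℤ_[p]) * ((z.1 : ℕ) : ℤ_[p]) * (p : ℤ_[p]) ^ b -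
          (p : ℤ_[p]) * ((z'.1 : ℕ) : ℤ_[p]) * (p : ℤ_[p]) ^ b =
        (p : ℤ_[p]) ^ (b + 1) * (((z.1 : ℕ) : ℤ_[p]) - ((z'.1 : ℕ) : ℤ_[p])) := by ring
      have h4 : b + m = (b + 1) + (m - 1) := by omega
      rw [h3, h4, pow_add _ (b + 1), mul_dvd_mul_iff_left (ppow_ne_zero (b + 1))] at hv
      have := approx_unique z.1.2 z'.1.2 hv.2
      exact congrArg _ (Subtype.ext (Fin.ext this))
  subst hs
  rfl

/-- A submodule of finite index contains `p^k` times everything. -/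
lemma exists_ppow_smul_mem {N : Type*} [AddCommGroup N] [Module ℤ_[p] N]
    (M : Submodule ℤ_[p] N) [Finite (N ⧸ M)] : ∃ k : ℕ, ∀ u : N, (p : ℤ_[p]) ^ k • u ∈ M := by
  set q := Nat.card (N ⧸ M) with hq
  have hq0 : q ≠ 0 := Nat.card_ne_zero.mpr ⟨inferInstance, inferInstance⟩
  have hq1 : (q : ℤ_[p]) ≠ 0 := Nat.cast_ne_zero.mpr hq0
  have hqu : ∀ u : N, (q : ℤ_[p]) • u ∈ M := by
    intro u
    rw [← Submodule.Quotient.mk_eq_zero, Submodule.Quotient.mk_smul, Nat.cast_smul_eq_nsmul]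
    exact card_nsmul_eq_zero'
  refine ⟨(q : ℤ_[p]).valuation, fun u => ?_⟩
  have h1 := PadicInt.unitCoeff_spec hq1
  have h2 : (p : ℤ_[p]) ^ (q : ℤ_[p]).valuation =
      (((PadicInt.unitCoeff hq1)⁻¹ : ℤ_[p]ˣ) : ℤ_[p]) * (q : ℤ_[p]) := by
    symm
    calc (((PadicInt.unitCoeff hq1)⁻¹ : ℤ_[p]ˣ) : ℤ_[p]) * (q : ℤ_[p])
        = (((PadicInt.unitCoeff hq1)⁻¹ : ℤ_[p]ˣ) : ℤ_[p]) *
          ((PadicInt.unitCoeff hq1 : ℤ_[p]) * (p : ℤ_[p]) ^ (q : ℤ_[p]).valuation) :=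
          congrArg _ h1
      _ = (p : ℤ_[p]) ^ (q : ℤ_[p]).valuation := by rw [← mul_assoc, Units.inv_mul, one_mul]
  rw [h2, mul_smul]
  exact M.smul_mem _ (hqu u)

/-- Every submodule of finite index of `ℤ_p × ℤ_p` is some `lat b s`. -/
theorem exists_lat (M : Submodule ℤ_[p] (ℤ_[p] × ℤ_[p])) [Finite ((ℤ_[p] × ℤ_[p]) ⧸ M)] :
    ∃ (b m : ℕ) (s : Pt p m), M = lat b s := by
  classical
  obtain ⟨k, hk⟩ := exists_ppow_smul_mem M
  let P : ℕ → Prop := fun b => ∀ u ∈ M, (p : ℤ_[p]) ^ b ∣ u.1 ∧ (p : ℤ_[p]) ^ b ∣ u.2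
  have hP0 : P 0 := fun u _ => by simp
  have hPk : ∀ b, P b → b ≤ k := by
    intro b hb
    have := (hb _ (hk (1, 0))).1
    simp only [Prod.smul_mk, smul_eq_mul, mul_one, mul_zero] at this
    exact ppow_dvd_ppow.mp this
  set b := Nat.findGreatest P k with hb
  have hPb : P b := Nat.findGreatest_spec (P := P) (Nat.zero_le k) hP0
  have hPb1 : ¬ P (b + 1) := by
    intro h
    have h1 := hPk _ h
    have h2 := Nat.le_findGreatest (P := P) h1 h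
    omega
  by_cases hA : ∃ w ∈ M, ¬ (p : ℤ_[p]) ^ (b + 1) ∣ w.1
  · obtain ⟨w, hwM, hw⟩ := hA
    obtain ⟨c, hc⟩ := (hPb w hwM).1
    obtain ⟨d, hd⟩ := (hPb w hwM).2
    have hcu : IsUnit c := by
      rw [isUnit_iff_not_dvd]
      rintro ⟨e, rfl⟩
      exact hw ⟨e, by rw [hc]; ring⟩
    obtain ⟨c', rfl⟩ := hcu
    -- the vector `(p^b, ζ p^b)`
    set ζ : ℤ_[p] := ((c'⁻¹ : ℤ_[p]ˣ) : ℤ_[p]) * d with hζ
    have hv : ((p : ℤ_[p]) ^ b, ζ * (p : ℤ_[p]) ^ b) ∈ M := by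
      have := M.smul_mem ((c'⁻¹ : ℤ_[p]ˣ) : ℤ_[p]) hwM
      convert this using 1
      refine Prod.ext ?_ ?_
      · simp only [Prod.smul_fst, smul_eq_mul, hc]
        rw [mul_comm ((p : ℤ_[p]) ^ b), ← mul_assoc, Units.inv_mul, one_mul]
      · simp only [Prod.smul_snd, smul_eq_mul, hd, hζ]; ring
    let J : Ideal ℤ_[p] := M.comap (LinearMap.inr ℤ_[p] ℤ_[p] ℤ_[p])
    have hJ : J ≠ ⊥ := by
      intro h0
      have h1 : (p : ℤ_[p]) ^ k ∈ J := by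
        change LinearMap.inr ℤ_[p] ℤ_[p] ℤ_[p] ((p : ℤ_[p]) ^ k) ∈ M
        have := hk (0, 1)
        simpa using this
      rw [h0] at h1
      exact ppow_ne_zero k h1
    obtain ⟨j, hj⟩ := PadicInt.ideal_eq_span_pow_p hJ
    have hJmem : ∀ r : ℤ_[p], ((0 : ℤ_[p]), r) ∈ M ↔ (p : ℤ_[p]) ^ j ∣ r := by
      intro r
      rw [← Ideal.mem_span_singleton, ← hj]
      rfl
    have hbj : b ≤ j := by
      have h1 := (hJmem ((p : ℤ_[p]) ^ j)).mpr dvd_rfl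
      exact ppow_dvd_ppow.mp (hPb _ h1).2
    obtain ⟨m, rfl⟩ := Nat.exists_eq_add_of_le hbj
    obtain ⟨z, hz⟩ := exists_approx ζ m
    refine ⟨b, m, Sum.inl z, ?_⟩
    ext u
    rw [mem_lat_inl]
    have key : ∀ u1 : ℤ_[p], (p : ℤ_[p]) ^ (b + m) ∣ (ζ - ((z : ℕ) : ℤ_[p])) * ((p : ℤ_[p]) ^ b * u1) := by
      intro u1
      obtain ⟨y, hy⟩ := hz
      exact ⟨y * u1, by rw [hy]; ring⟩
    constructor
    · intro hu
      obtain ⟨u1, hu1⟩ := (hPb u hu).1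
      refine ⟨⟨u1, hu1⟩, ?_⟩
      have h1 : ((0 : ℤ_[p]), u.2 - ζ * u.1) ∈ M := by
        have := M.sub_mem hu (M.smul_mem u1 hv)
        convert this using 1
        refine Prod.ext ?_ ?_
        · simp only [Prod.fst_sub, Prod.smul_fst, smul_eq_mul, hu1]; ring
        · simp only [Prod.snd_sub, Prod.smul_snd, smul_eq_mul, hu1]; ring
      rw [hJmem] at h1
      have h2 := dvd_add h1 (key u1)
      rw [← hu1] at h2
      convert h2 using 1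
      ring
    · rintro ⟨⟨u1, hu1⟩, h2⟩
      have h3 := dvd_sub h2 (key u1)
      rw [← hu1] at h3
      have h4 : ((0 : ℤ_[p]), u.2 - ζ * u.1) ∈ M := by
        rw [hJmem]
        convert h3 using 1
        ring
      have := M.add_mem h4 (M.smul_mem u1 hv)
      convert this using 1
      refine Prod.ext ?_ ?_
      · simp only [Prod.fst_add, Prod.smul_fst, smul_eq_mul, hu1]; ring
      · simp only [Prod.snd_add, Prod.smul_snd, smul_eq_mul, hu1]; ring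
  · push Not at hA
    have hB : ∃ w ∈ M, ¬ (p : ℤ_[p]) ^ (b + 1) ∣ w.2 := by
      by_contra hcon
      push Not at hcon
      exact hPb1 fun u hu => ⟨hA u hu, hcon u hu⟩
    obtain ⟨w, hwM, hw⟩ := hB
    obtain ⟨d, hd⟩ := hA w hwM
    obtain ⟨c, hc⟩ := (hPb w hwM).2
    have hcu : IsUnit c := by
      rw [isUnit_iff_not_dvd]
      rintro ⟨e, rfl⟩
      exact hw ⟨e, by rw [hc]; ring⟩
    obtain ⟨c', rfl⟩ := hcu
    set ζ : ℤ_[p] := ((c'⁻¹ : ℤ_[p]ˣ) : ℤ_[p]) * d with hζ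
    have hv : ((p : ℤ_[p]) * ζ * (p : ℤ_[p]) ^ b, (p : ℤ_[p]) ^ b) ∈ M := by
      have := M.smul_mem ((c'⁻¹ : ℤ_[p]ˣ) : ℤ_[p]) hwM
      convert this using 1
      refine Prod.ext ?_ ?_
      · simp only [Prod.smul_fst, smul_eq_mul, hd, hζ]; ring
      · simp only [Prod.smul_snd, smul_eq_mul, hc]
        rw [mul_comm ((p : ℤ_[p]) ^ b), ← mul_assoc, Units.inv_mul, one_mul]
    let J : Ideal ℤ_[p] := M.comap (LinearMap.inl ℤ_[p] ℤ_[p] ℤ_[p])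
    have hJ : J ≠ ⊥ := by
      intro h0
      have h1 : (p : ℤ_[p]) ^ k ∈ J := by
        change LinearMap.inl ℤ_[p] ℤ_[p] ℤ_[p] ((p : ℤ_[p]) ^ k) ∈ M
        have := hk (1, 0)
        simpa using this
      rw [h0] at h1
      exact ppow_ne_zero k h1
    obtain ⟨j, hj⟩ := PadicInt.ideal_eq_span_pow_p hJ
    have hJmem : ∀ r : ℤ_[p], (r, (0 : ℤ_[p])) ∈ M ↔ (p : ℤ_[p]) ^ j ∣ r := by
      intro r
      rw [← Ideal.mem_span_singleton, ← hj]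
      rfl
    have hbj : b + 1 ≤ j := by
      have h1 := (hJmem ((p : ℤ_[p]) ^ j)).mpr dvd_rfl
      exact ppow_dvd_ppow.mp (hA _ h1)
    obtain ⟨m', rfl⟩ := Nat.exists_eq_add_of_le hbj
    obtain ⟨z, hz⟩ := exists_approx ζ m'
    refine ⟨b, m' + 1, Sum.inr ⟨z, Nat.succ_pos _⟩, ?_⟩
    ext u
    rw [mem_lat_inr]
    simp only
    have key : ∀ u1 : ℤ_[p], (p : ℤ_[p]) ^ (b + (m' + 1)) ∣
        (p : ℤ_[p]) * (ζ - ((z : ℕ) : ℤ_[p])) * ((p : ℤ_[p]) ^ b * u1) := by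
      intro u1
      obtain ⟨y, hy⟩ := hz
      exact ⟨y * u1, by rw [hy]; ring⟩
    have hexp : b + 1 + m' = b + (m' + 1) := by ring
    constructor
    · intro hu
      obtain ⟨u1, hu1⟩ := (hPb u hu).2
      refine ⟨⟨u1, hu1⟩, ?_⟩
      have h1 : (u.1 - (p : ℤ_[p]) * ζ * u.2, (0 : ℤ_[p])) ∈ M := by
        have := M.sub_mem hu (M.smul_mem u1 hv)
        convert this using 1
        refine Prod.ext ?_ ?_
        · simp only [Prod.fst_sub, Prod.smul_fst, smul_eq_mul, hu1]; ring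
        · simp only [Prod.snd_sub, Prod.smul_snd, smul_eq_mul, hu1]; ring
      rw [hJmem, hexp] at h1
      have h2 := dvd_add h1 (key u1)
      rw [← hu1] at h2
      convert h2 using 1
      ring
    · rintro ⟨⟨u1, hu1⟩, h2⟩
      have h3 := dvd_sub h2 (key u1)
      rw [← hu1] at h3
      have h4 : (u.1 - (p : ℤ_[p]) * ζ * u.2, (0 : ℤ_[p])) ∈ M := by
        rw [hJmem, hexp]
        convert h3 using 1
        ring
      have := M.add_mem h4 (M.smul_mem u1 hv)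
      convert this using 1
      refine Prod.ext ?_ ?_
      · simp only [Prod.fst_add, Prod.smul_fst, smul_eq_mul, hu1]; ring
      · simp only [Prod.snd_add, Prod.smul_snd, smul_eq_mul, hu1]; ring

end Pool.Agent.MP_f418a9_al
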