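import Mathlib
import Pool.Agent.Work.MP_f418a9_al.Defs
import Pool.Agent.Work.MP_f418a9_al.Plane

/-!
# Basic facts on cotypes
-/

open scoped BigOperators

noncomputable section

namespace Pool.Agent.MP_f418a9_al

variable {p : ℕ} [hp : Fact p.Prime] {d : ℕ}

/-- The lattice `∏ p^{k i}` in the coordinates `E`. -/
def coordLat (E : (Fin d → ℤ_[p]) ≃ₗ[ℤ_[p]] (Fin d → ℤ_[p])) (k : Fin d → ℕ) :
    Submodule ℤ_[p] (Fin d → ℤ_[p]) :=
  (Submodule.pi Set.univ (fun i => Ideal.span {(p : ℤ_[p]) ^ k i})).comap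
    (E : (Fin d → ℤ_[p]) →ₗ[ℤ_[p]] (Fin d → ℤ_[p]))

lemma mem_coordLat {E : (Fin d → ℤ_[p]) ≃ₗ[ℤ_[p]] (Fin d → ℤ_[p])} {k : Fin d → ℕ}
    {x : Fin d → ℤ_[p]} : x ∈ coordLat E k ↔ ∀ i, (p : ℤ_[p]) ^ k i ∣ E x i := by
  unfold coordLat
  rw [Submodule.mem_comap, Submodule.mem_pi]
  simp only [Set.mem_univ, true_implies, Ideal.mem_span_singleton]
  rfl

theorem hasCotype_coordLat (E : (Fin d → ℤ_[p]) ≃ₗ[ℤ_[p]] (Fin d → ℤ_[p])) {k : Fin d → ℕ}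
    (hk : Antitone k) : HasCotype p (coordLat E k) k := by
  refine ⟨hk, ⟨?_⟩⟩
  refine (Submodule.Quotient.equiv (coordLat E k)
    (Submodule.pi Set.univ (fun i => Ideal.span {(p : ℤ_[p]) ^ k i})) E ?_).trans
    (Submodule.quotientPi _)
  unfold coordLat
  rw [Submodule.map_comap_eq_of_surjective]
  exact E.surjective

theorem card_of_hasCotype {Λ : Submodule ℤ_[p] (Fin d → ℤ_[p])} {k : Fin d → ℕ}
    (h : HasCotype p Λ k) : Nat.card ((Fin d → ℤ_[p]) ⧸ Λ) = p ^ (∑ i, k i) := by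
  obtain ⟨-, ⟨e⟩⟩ := h
  rw [Nat.card_congr e.toEquiv, Nat.card_pi, ← Finset.prod_pow_eq_pow_sum]
  exact Finset.prod_congr rfl fun i _ => card_quot_ppow _

theorem ppow_smul_mem_of_hasCotype {Λ : Submodule ℤ_[p] (Fin d → ℤ_[p])} {k : Fin d → ℕ}
    (h : HasCotype p Λ k) {N : ℕ} (hN : ∀ i, k i ≤ N) (x : Fin d → ℤ_[p]) :
    (p : ℤ_[p]) ^ N • x ∈ Λ := by
  obtain ⟨-, ⟨e⟩⟩ := h
  rw [← Submodule.Quotient.mk_eq_zero, ← e.map_eq_zero_iff, Submodule.Quotient.mk_smul, map_smul]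
  ext i
  rw [Pi.smul_apply, Pi.zero_apply]
  obtain ⟨r, hr⟩ := Ideal.Quotient.mk_surjective (e (Submodule.Quotient.mk x) i)
  rw [← hr]
  change Submodule.Quotient.mk ((p : ℤ_[p]) ^ N • r) = 0
  rw [Submodule.Quotient.mk_eq_zero, Ideal.mem_span_singleton, smul_eq_mul]
  exact Dvd.dvd.mul_right (pow_dvd_pow _ (hN i)) _

/-- Functionals describing a submodule of given cotype. -/
theorem exists_functionals {Λ : Submodule ℤ_[p] (Fin d → ℤ_[p])} {k : Fin d → ℕ}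
    (h : HasCotype p Λ k) : ∃ f : (Fin d → ℤ_[p]) →ₗ[ℤ_[p]] (Fin d → ℤ_[p]),
      (∀ x, x ∈ Λ ↔ ∀ i, (p : ℤ_[p]) ^ k i ∣ f x i) ∧
      ∀ y : Fin d → ℤ_[p], ∃ x, ∀ i, (p : ℤ_[p]) ^ k i ∣ f x i - y i := by
  obtain ⟨-, ⟨e⟩⟩ := h
  let q : (Fin d → ℤ_[p]) →ₗ[ℤ_[p]] (∀ i, ℤ_[p] ⧸ Ideal.span {(p : ℤ_[p]) ^ (k i)}) :=
    LinearMap.pi fun i => (Ideal.span {(p : ℤ_[p]) ^ (k i)}).mkQ ∘ₗ LinearMap.proj i
  have hq : Function.Surjective q := by
    intro y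
    choose x hx using fun i => Submodule.mkQ_surjective _ (y i)
    exact ⟨x, funext hx⟩
  obtain ⟨f, hf⟩ := Module.projective_lifting_property q
    ((e : _ →ₗ[ℤ_[p]] _) ∘ₗ Λ.mkQ) hq
  have hf' : ∀ x i, (Ideal.span {(p : ℤ_[p]) ^ (k i)}).mkQ (f x i) = e (Λ.mkQ x) i := by
    intro x i
    have := congrFun (LinearMap.congr_fun hf x) i
    exact this
  refine ⟨f, ?_, ?_⟩
  · intro x
    rw [← Submodule.Quotient.mk_eq_zero Λ, ← e.map_eq_zero_iff, funext_iff]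
    refine forall_congr' fun i => ?_
    have h1 := hf' x i
    rw [Submodule.mkQ_apply, Submodule.mkQ_apply] at h1
    rw [← h1, Pi.zero_apply, Submodule.Quotient.mk_eq_zero, Ideal.mem_span_singleton]
  · intro y
    obtain ⟨x', hx'⟩ := e.surjective (q y)
    obtain ⟨x, hx⟩ := Submodule.mkQ_surjective Λ x'
    refine ⟨x, fun i => ?_⟩
    have h1 := hf' x i
    rw [hx, hx'] at h1
    rw [← Ideal.mem_span_singleton, ← Submodule.Quotient.mk_eq_zero, Submodule.Quotient.mk_sub,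
      sub_eq_zero]
    exact h1

/-- Nested submodules of the same finite index are equal. -/
theorem eq_of_le_of_card {M : Type*} [AddCommGroup M] [Module ℤ_[p] M] {S T : Submodule ℤ_[p] M}
    (h : T ≤ S) {n : ℕ} (hS : Nat.card (M ⧸ S) = n) (hT : Nat.card (M ⧸ T) = n) (hn : n ≠ 0) :
    T = S := by
  have h1 := Submodule.card_quotient_mul_card_quotient S T h
  rw [hS, hT] at h1
  have h2 : Nat.card (S.map T.mkQ) = 1 :=
    Nat.eq_of_mul_eq_mul_right (Nat.pos_of_ne_zero hn) (by rw [h1, one_mul])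
  refine le_antisymm h ?_
  intro x hx
  have h3 : Subsingleton (S.map T.mkQ) := (Nat.card_eq_one_iff_unique.mp h2).1
  have h4 : (⟨T.mkQ x, Submodule.mem_map_of_mem hx⟩ : S.map T.mkQ) = ⟨0, zero_mem _⟩ :=
    Subsingleton.elim _ _
  have h5 := congrArg Subtype.val h4
  exact (Submodule.Quotient.mk_eq_zero T).mp h5

end Pool.Agent.MP_f418a9_al
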