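import Mathlib
import Pool.Agent.Work.MP_f418a9_al.Rational

/-!
# Generating functions over index types with a degree
-/

open scoped BigOperators

namespace Pool.Agent.MP_f418a9_al

section gen

variable {ι κ : Type*}

/-- The generating function `∑_a w a Y^{d a}`; `S n` is a finite set containing all `a` with
`d a ≤ n`. -/
noncomputable def gen (S : ℕ → Finset ι) (d : ι → ℕ) (w : ι → ℤ) : PowerSeries ℤ :=
  PowerSeries.mk fun n => ∑ a ∈ S n, if d a = n then w a else 0

lemma sum_ite_congr_set {S T : Finset ι} {P : ι → Prop} [DecidablePred P] (w : ι → ℤ)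
    (h : ∀ a, P a → (a ∈ S ↔ a ∈ T)) :
    (∑ a ∈ S, if P a then w a else 0) = ∑ a ∈ T, if P a then w a else 0 := by
  classical
  rw [← Finset.sum_filter, ← Finset.sum_filter]
  congr 1
  ext a
  simp only [Finset.mem_filter]
  constructor
  · rintro ⟨h1, h2⟩; exact ⟨(h a h2).1 h1, h2⟩
  · rintro ⟨h1, h2⟩; exact ⟨(h a h2).2 h1, h2⟩

theorem gen_mul {S : ℕ → Finset ι} {d : ι → ℕ} (w : ι → ℤ) (hS : ∀ a n, d a ≤ n → a ∈ S n)
    {S' : ℕ → Finset κ} {d' : κ → ℕ} (w' : κ → ℤ) (hS' : ∀ a n, d' a ≤ n → a ∈ S' n) :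
    gen S d w * gen S' d' w' =
      gen (fun n => S n ×ˢ S' n) (fun x => d x.1 + d' x.2) (fun x => w x.1 * w' x.2) := by
  classical
  ext n
  rw [PowerSeries.coeff_mul]
  simp only [gen, PowerSeries.coeff_mk]
  have h1 : ∀ x ∈ Finset.HasAntidiagonal.antidiagonal n,
      (∑ a ∈ S x.1, if d a = x.1 then w a else 0) * (∑ b ∈ S' x.2, if d' b = x.2 then w' b else 0)
      = ∑ a ∈ S n, ∑ b ∈ S' n, if d a = x.1 ∧ d' b = x.2 then w a * w' b else 0 := by
    intro x hx
    rw [Finset.HasAntidiagonal.mem_antidiagonal] at hx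
    rw [sum_ite_congr_set (S := S x.1) (T := S n) w
      (fun a ha => ⟨fun _ => hS a n (by omega), fun _ => hS a _ ha.le⟩),
      sum_ite_congr_set (S := S' x.2) (T := S' n) w'
      (fun a ha => ⟨fun _ => hS' a n (by omega), fun _ => hS' a _ ha.le⟩), Finset.sum_mul_sum]
    refine Finset.sum_congr rfl fun a _ => Finset.sum_congr rfl fun b _ => ?_
    by_cases h1 : d a = x.1 <;> by_cases h2 : d' b = x.2 <;> simp [h1, h2]
  rw [Finset.sum_congr rfl h1, Finset.sum_comm, Finset.sum_product]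
  refine Finset.sum_congr rfl fun a _ => ?_
  rw [Finset.sum_comm]
  refine Finset.sum_congr rfl fun b _ => ?_
  by_cases h : d a + d' b = n
  · rw [if_pos h, Finset.sum_eq_single (d a, d' b)]
    · simp
    · intro x hx hne
      rw [if_neg]
      rintro ⟨h1, h2⟩
      exact hne (Prod.ext h1.symm h2.symm)
    · intro hx
      exact absurd (Finset.HasAntidiagonal.mem_antidiagonal.mpr h) hx
  · rw [if_neg h]
    refine Finset.sum_eq_zero fun x hx => ?_
    rw [Finset.HasAntidiagonal.mem_antidiagonal] at hx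
    rw [if_neg]
    rintro ⟨h1, h2⟩
    exact h (by omega)

theorem gen_reindex {S : ℕ → Finset ι} {d : ι → ℕ} {w : ι → ℤ} (hS : ∀ a n, d a ≤ n → a ∈ S n)
    {S' : ℕ → Finset κ} {d' : κ → ℕ} {w' : κ → ℤ} (hS' : ∀ a n, d' a ≤ n → a ∈ S' n)
    (φ : κ → ι) (hφ : Function.Injective φ) (hd : ∀ b, d (φ b) = d' b) (hw : ∀ b, w (φ b) = w' b)
    (hout : ∀ a, a ∉ Set.range φ → w a = 0) :
    gen S d w = gen S' d' w' := by
  classical
  ext n
  simp only [gen, PowerSeries.coeff_mk]
  rw [← Finset.sum_filter, ← Finset.sum_filter]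
  have h1 : ∑ b ∈ (S' n).filter (fun b => d' b = n), w' b =
      ∑ a ∈ ((S' n).filter (fun b => d' b = n)).image φ, w a := by
    rw [Finset.sum_image (fun x _ y _ h => hφ h)]
    exact Finset.sum_congr rfl fun b _ => (hw b).symm
  rw [h1]
  symm
  refine Finset.sum_subset ?_ ?_
  · intro a ha
    rw [Finset.mem_image] at ha
    obtain ⟨b, hb, rfl⟩ := ha
    rw [Finset.mem_filter] at hb ⊢
    exact ⟨hS _ _ (by rw [hd, hb.2]), by rw [hd, hb.2]⟩
  · intro a ha hna
    by_contra hne
    have : a ∈ Set.range φ := by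
      by_contra h2; exact hne (hout a h2)
    obtain ⟨b, rfl⟩ := this
    apply hna
    rw [Finset.mem_image]
    rw [Finset.mem_filter, hd] at ha
    exact ⟨b, Finset.mem_filter.mpr ⟨hS' b n ha.2.le, ha.2⟩, rfl⟩

theorem gen_add {S : ℕ → Finset ι} {d : ι → ℕ} (w w' : ι → ℤ) :
    gen S d (fun a => w a + w' a) = gen S d w + gen S d w' := by
  ext n
  simp only [gen, PowerSeries.coeff_mk, map_add]
  rw [← Finset.sum_add_distrib]
  refine Finset.sum_congr rfl fun a _ => ?_
  split_ifs <;> simp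

theorem gen_congr {S : ℕ → Finset ι} {d : ι → ℕ} {w w' : ι → ℤ} (h : ∀ a, w a = w' a) :
    gen S d w = gen S d w' := by
  have : w = w' := funext h
  rw [this]

theorem gen_const_mul {S : ℕ → Finset ι} {d : ι → ℕ} (K : ℤ) (w : ι → ℤ) :
    gen S d (fun a => K * w a) = PowerSeries.C K * gen S d w := by
  ext n
  rw [PowerSeries.coeff_C_mul]
  simp only [gen, PowerSeries.coeff_mk]
  rw [Finset.mul_sum]
  refine Finset.sum_congr rfl fun a _ => ?_
  split_ifs <;> simp

theorem gen_shift {S : ℕ → Finset ι} {d : ι → ℕ} (w : ι → ℤ) (hS : ∀ a n, d a ≤ n → a ∈ S n)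
    (s : ℕ) :
    gen S (fun a => s + d a) w = PowerSeries.X ^ s * gen S d w := by
  classical
  ext n
  rw [PowerSeries.coeff_X_pow_mul']
  simp only [gen, PowerSeries.coeff_mk]
  split_ifs with h
  · have : ∀ a, (if s + d a = n then w a else 0) = if d a = n - s then w a else 0 := by
      intro a
      by_cases h2 : s + d a = n
      · rw [if_pos h2, if_pos (by omega)]
      · rw [if_neg h2, if_neg (by omega)]
    rw [Finset.sum_congr rfl (fun a _ => this a)]
    exact sum_ite_congr_set w (fun a ha => ⟨fun _ => hS a _ ha.le, fun _ => hS a _ (by omega)⟩)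
  · refine Finset.sum_eq_zero fun a _ => ?_
    rw [if_neg (by omega)]

end gen

/-- The geometric series `∑ α^i Y^{u i}`. -/
noncomputable def geo (α : ℤ) (u : ℕ) : PowerSeries ℤ :=
  gen (fun n => Finset.range (n + 1)) (fun i => u * i) (fun i => α ^ i)

lemma geo_mem {u : ℕ} (hu : 0 < u) : ∀ i n : ℕ, u * i ≤ n → i ∈ Finset.range (n + 1) := by
  intro i n h
  rw [Finset.mem_range]
  have : i ≤ u * i := Nat.le_mul_of_pos_left i hu
  omega

theorem geo_spec (α : ℤ) {u : ℕ} (hu : 0 < u) :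
    (1 - PowerSeries.C α * PowerSeries.X ^ u) * geo α u = 1 := by
  have h : geo α u = 1 + PowerSeries.C α * (PowerSeries.X ^ u * geo α u) := by
    rw [geo, ← gen_shift _ (geo_mem hu) u, ← gen_const_mul]
    ext n
    rw [map_add, PowerSeries.coeff_one]
    simp only [gen, PowerSeries.coeff_mk]
    rw [Finset.sum_range_succ']
    simp only [mul_zero, pow_zero]
    rw [add_comm]
    congr 1
    · by_cases h : 0 = n
      · rw [if_pos h, if_pos h.symm]
      · rw [if_neg h, if_neg (fun h2 => h h2.symm)]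
    · have hlast : ¬ (u + u * n = n) := by
        have : n ≤ u * n := Nat.le_mul_of_pos_left n hu
        omega
      rw [Finset.sum_range_succ, if_neg hlast, add_zero]
      refine Finset.sum_congr rfl fun i _ => ?_
      rw [mul_add, mul_one, add_comm (u * i) u, pow_succ, mul_comm (α ^ i)]
  have h2 : geo α u - PowerSeries.C α * (PowerSeries.X ^ u * geo α u) = 1 := by
    rw [sub_eq_iff_eq_add]; exact h
  linear_combination h2

theorem IsUniform.geo (f : Polynomial ℤ) {u : ℕ} (hu : 0 < u) :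
    IsUniform (σ := Unit) (fun p _ => MP_f418a9_al.geo (f.eval (p : ℤ)) u) := by
  refine ⟨1, 1 - MvPolynomial.C f * MvPolynomial.X () ^ u, 0, fun p _ _ => ⟨?_, ?_⟩⟩
  · intro h0
    have := congrArg (MvPolynomial.coeff 0) h0
    rw [coeff_evalX] at this
    simp [MvPolynomial.coeff_C_mul, MvPolynomial.coeff_X_pow, hu.ne'] at this
  · have h1 : (evalX p (1 - MvPolynomial.C f * MvPolynomial.X () ^ u) : MvPolynomial Unit ℤ) =
        1 - MvPolynomial.C (f.eval (p : ℤ)) * MvPolynomial.X () ^ u := by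
      simp [evalX]
    rw [h1]
    have h2 : ((evalX p (1 : MvPolynomial Unit (Polynomial ℤ)) : MvPolynomial Unit ℤ) :
        MvPowerSeries Unit ℤ) = 1 := by simp [evalX]
    rw [h2]
    have h3 := geo_spec (f.eval (p : ℤ)) hu
    rw [← h3]
    congr 1
    rw [← MvPolynomial.coeToMvPowerSeries.ringHom_apply (σ := Unit) (R := ℤ),
      map_sub, map_one, map_mul, map_pow]
    simp only [MvPolynomial.coeToMvPowerSeries.ringHom_apply, MvPolynomial.coe_C,
      MvPolynomial.coe_X]
    rfl

/-- The family `p ↦ C (f(p)) X^s` is uniform. -/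
theorem IsUniform.monom (f : Polynomial ℤ) (s : ℕ) :
    IsUniform (σ := Unit) (fun p _ =>
      (PowerSeries.C (f.eval (p : ℤ)) * PowerSeries.X ^ s : PowerSeries ℤ)) := by
  have h := IsUniform.poly (σ := Unit) (MvPolynomial.C f * MvPolynomial.X () ^ s)
  refine h.congr (N₀ := 0) fun p _ _ => ?_
  have h1 : (evalX p (MvPolynomial.C f * MvPolynomial.X () ^ s) : MvPolynomial Unit ℤ) =
        MvPolynomial.C (f.eval (p : ℤ)) * MvPolynomial.X () ^ s := by
      simp [evalX]
  rw [h1]
  push_cast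
  rfl

end Pool.Agent.MP_f418a9_al
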