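import Mathlib
import Pool.Agent.Work.MP_f418a9_al.GenFun

/-!
# The generating function for subalgebras of the rank three algebra
-/

open scoped BigOperators

namespace Pool.Agent.MP_f418a9_al

/-- the box `{0..n}^2` -/
def box2 (n : ℕ) : Finset (ℕ × ℕ) := Finset.range (n + 1) ×ˢ Finset.range (n + 1)

/-- the box `{0..n}^3` -/
def box3 (n : ℕ) : Finset (ℕ × ℕ × ℕ) :=
  Finset.range (n + 1) ×ˢ Finset.range (n + 1) ×ˢ Finset.range (n + 1)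

lemma mem_box2 {n : ℕ} {t : ℕ × ℕ} : t ∈ box2 n ↔ t.1 ≤ n ∧ t.2 ≤ n := by
  simp [box2, Finset.mem_product, Nat.lt_succ_iff]

lemma mem_box3 {n : ℕ} {t : ℕ × ℕ × ℕ} : t ∈ box3 n ↔ t.1 ≤ n ∧ t.2.1 ≤ n ∧ t.2.2 ≤ n := by
  simp [box3, Finset.mem_product, Nat.lt_succ_iff]

lemma cone2_mem {s u v : ℕ} (hu : 0 < u) (hv : 0 < v) (x : ℕ × ℕ) (n : ℕ)
    (h : s + (u * x.1 + v * x.2) ≤ n) : x ∈ box2 n := by
  rw [mem_box2]
  have h1 : x.1 ≤ u * x.1 := Nat.le_mul_of_pos_left _ hu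
  have h2 : x.2 ≤ v * x.2 := Nat.le_mul_of_pos_left _ hv
  omega

lemma cone3_mem {s u v w : ℕ} (hu : 0 < u) (hv : 0 < v) (hw : 0 < w) (x : ℕ × ℕ × ℕ) (n : ℕ)
    (h : s + (u * x.1 + (v * x.2.1 + w * x.2.2)) ≤ n) : x ∈ box3 n := by
  rw [mem_box3]
  have h1 : x.1 ≤ u * x.1 := Nat.le_mul_of_pos_left _ hu
  have h2 : x.2.1 ≤ v * x.2.1 := Nat.le_mul_of_pos_left _ hv
  have h3 : x.2.2 ≤ w * x.2.2 := Nat.le_mul_of_pos_left _ hw
  omega

theorem cone2 (K α β : ℤ) (s : ℕ) {u v : ℕ} (hu : 0 < u) (hv : 0 < v) :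
    gen box2 (fun x => s + (u * x.1 + v * x.2)) (fun x => K * (α ^ x.1 * β ^ x.2)) =
      (PowerSeries.C K * PowerSeries.X ^ s) * (geo α u * geo β v) := by
  rw [gen_const_mul, gen_shift (d := fun x : ℕ × ℕ => u * x.1 + v * x.2) _
    (fun x n h => cone2_mem (s := 0) hu hv x n (by omega)), mul_assoc]
  congr 2
  exact (gen_mul _ (geo_mem hu) _ (geo_mem hv)).symm

theorem cone3 (K α β γ : ℤ) (s : ℕ) {u v w : ℕ} (hu : 0 < u) (hv : 0 < v) (hw : 0 < w) :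
    gen box3 (fun x => s + (u * x.1 + (v * x.2.1 + w * x.2.2)))
      (fun x => K * (α ^ x.1 * (β ^ x.2.1 * γ ^ x.2.2))) =
      (PowerSeries.C K * PowerSeries.X ^ s) * (geo α u * (geo β v * geo γ w)) := by
  rw [gen_const_mul, gen_shift (d := fun x : ℕ × ℕ × ℕ => u * x.1 + (v * x.2.1 + w * x.2.2)) _
    (fun x n h => cone3_mem (s := 0) hu hv hw x n (by omega)), mul_assoc]
  congr 2
  have h1 := gen_mul (fun j : ℕ => β ^ j) (geo_mem hv) (fun k : ℕ => γ ^ k) (geo_mem hw)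
  have h2 := gen_mul (fun j : ℕ => α ^ j) (geo_mem hu) (fun x : ℕ × ℕ => β ^ x.1 * γ ^ x.2)
    (d' := fun x : ℕ × ℕ => v * x.1 + w * x.2) (S' := box2)
    (fun x n h => cone2_mem (s := 0) hv hw x n (by omega))
  rw [show geo β v * geo γ w = gen box2 (fun x : ℕ × ℕ => v * x.1 + w * x.2)
    (fun x : ℕ × ℕ => β ^ x.1 * γ ^ x.2) from h1]
  exact h2.symm

/-- The number of lattices `M` in `ℤ_p^2` with `ℤ_p^2 / M` cyclic of order `p^m`. -/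
def nlat (p m : ℕ) : ℕ := p ^ m + (if m = 0 then 0 else p ^ (m - 1))

/-- The weight of `(a, b, m)`. -/
def W1 (p : ℕ) (t : ℕ × ℕ × ℕ) : ℤ :=
  if t.2.2 ≤ t.1 then (nlat p t.2.2 * p ^ (min t.2.1 t.1 + min (t.2.1 + t.2.2) t.1) : ℕ) else 0

/-- The degree of `(a, b, m)`. -/
def deg1 (t : ℕ × ℕ × ℕ) : ℕ := t.1 + 2 * t.2.1 + t.2.2

lemma deg1_mem (t : ℕ × ℕ × ℕ) (n : ℕ) (h : deg1 t ≤ n) : t ∈ box3 n := by
  rw [mem_box3]; unfold deg1 at h; omega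

def w1 (p : ℕ) (t : ℕ × ℕ × ℕ) : ℤ :=
  if t.2.2 = 0 ∧ t.1 ≤ t.2.1 then (p : ℤ) ^ (2 * t.1) else 0
def w2 (p : ℕ) (t : ℕ × ℕ × ℕ) : ℤ :=
  if t.2.2 = 0 ∧ t.2.1 < t.1 then (p : ℤ) ^ (2 * t.2.1) else 0
def w3 (p : ℕ) (t : ℕ × ℕ × ℕ) : ℤ :=
  if 1 ≤ t.2.2 ∧ t.2.2 ≤ t.1 ∧ t.1 ≤ t.2.1 then
    ((p : ℤ) + 1) * (p : ℤ) ^ (t.2.2 - 1) * (p : ℤ) ^ (2 * t.1) else 0
def w4 (p : ℕ) (t : ℕ × ℕ × ℕ) : ℤ :=
  if 1 ≤ t.2.2 ∧ t.2.1 + t.2.2 ≤ t.1 then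
    ((p : ℤ) + 1) * (p : ℤ) ^ (t.2.2 - 1) * (p : ℤ) ^ (2 * t.2.1 + t.2.2) else 0
def w5 (p : ℕ) (t : ℕ × ℕ × ℕ) : ℤ :=
  if 1 ≤ t.2.2 ∧ t.2.2 ≤ t.1 ∧ t.2.1 < t.1 ∧ t.1 < t.2.1 + t.2.2 then
    ((p : ℤ) + 1) * (p : ℤ) ^ (t.2.2 - 1) * (p : ℤ) ^ (t.1 + t.2.1) else 0

lemma nlat_pos {p m : ℕ} (hm : 1 ≤ m) : (nlat p m : ℤ) = ((p : ℤ) + 1) * (p : ℤ) ^ (m - 1) := by
  obtain ⟨k, rfl⟩ : ∃ k, m = k + 1 := ⟨m - 1, by omega⟩
  simp [nlat]
  ring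

lemma W1_split (p : ℕ) (t : ℕ × ℕ × ℕ) :
    W1 p t = w1 p t + (w2 p t + (w3 p t + (w4 p t + w5 p t))) := by
  obtain ⟨a, b, m⟩ := t
  unfold W1 w1 w2 w3 w4 w5
  simp only
  rcases Nat.eq_zero_or_pos m with rfl | hm
  · have e1 : ¬ (1 ≤ 0 ∧ 0 ≤ a ∧ a ≤ b) := by omega
    have e2 : ¬ (1 ≤ 0 ∧ b + 0 ≤ a) := by omega
    have e3 : ¬ (1 ≤ 0 ∧ 0 ≤ a ∧ b < a ∧ a < b + 0) := by omega
    rw [if_neg e1, if_neg e2, if_neg e3, if_pos (Nat.zero_le a)]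
    rcases le_or_gt a b with h | h
    · rw [if_pos ⟨rfl, h⟩, if_neg (by omega)]
      simp [nlat, min_eq_right h, two_mul]
    · rw [if_neg (by omega), if_pos ⟨rfl, h⟩]
      simp [nlat, min_eq_left h.le, two_mul]
  · have hm1 : 1 ≤ m := hm
    rw [if_neg (c := m = 0 ∧ a ≤ b) (by omega), if_neg (c := m = 0 ∧ b < a) (by omega)]
    by_cases h1 : m ≤ a
    · rw [if_pos h1]
      push_cast
      rw [nlat_pos hm1]
      rcases le_or_gt a b with h | h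
      · rw [if_pos ⟨hm1, h1, h⟩, if_neg (by omega), if_neg (by omega)]
        have e1 : min b a + min (b + m) a = 2 * a := by omega
        rw [e1]; ring
      · rw [if_neg (c := 1 ≤ m ∧ m ≤ a ∧ a ≤ b) (by omega)]
        rcases le_or_gt (b + m) a with h2 | h2
        · rw [if_pos ⟨hm1, h2⟩, if_neg (by omega)]
          have e1 : min b a + min (b + m) a = 2 * b + m := by omega
          rw [e1]; ring
        · rw [if_neg (c := 1 ≤ m ∧ b + m ≤ a) (by omega), if_pos ⟨hm1, h1, h, h2⟩]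
          have e1 : min b a + min (b + m) a = a + b := by omega
          rw [e1]; ring
    · rw [if_neg h1, if_neg (by omega), if_neg (by omega), if_neg (by omega)]
      ring

theorem gen_w1 (p : ℕ) : gen box3 deg1 (w1 p) =
    (PowerSeries.C 1 * PowerSeries.X ^ 0) * (geo ((p : ℤ) ^ 2) 3 * geo 1 2) := by
  rw [← cone2 1 ((p : ℤ) ^ 2) 1 0 (by norm_num) (by norm_num)]
  refine gen_reindex deg1_mem (cone2_mem (by norm_num) (by norm_num))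
    (fun x => (x.1, x.1 + x.2, 0)) ?_ ?_ ?_ ?_
  · intro x y h
    simp only [Prod.mk.injEq] at h
    exact Prod.ext (by omega) (by omega)
  · intro x; simp only [deg1]; omega
  · intro x
    simp [w1, ← pow_mul]
  · intro a ha
    unfold w1
    rw [if_neg]
    rintro ⟨h1, h2⟩
    exact ha ⟨(a.1, a.2.1 - a.1), by
      refine Prod.ext rfl (Prod.ext ?_ h1.symm); simp only; omega⟩

theorem gen_w2 (p : ℕ) : gen box3 deg1 (w2 p) =
    (PowerSeries.C 1 * PowerSeries.X ^ 1) * (geo ((p : ℤ) ^ 2) 3 * geo 1 1) := by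
  rw [← cone2 1 ((p : ℤ) ^ 2) 1 1 (by norm_num) (by norm_num)]
  refine gen_reindex deg1_mem (cone2_mem (by norm_num) (by norm_num))
    (fun x => (x.1 + 1 + x.2, x.1, 0)) ?_ ?_ ?_ ?_
  · intro x y h
    simp only [Prod.mk.injEq] at h
    exact Prod.ext (by omega) (by omega)
  · intro x; simp only [deg1]; omega
  · intro x
    have : x.1 < x.1 + 1 + x.2 := by omega
    simp [w2, ← pow_mul, this]
  · intro a ha
    unfold w2
    rw [if_neg]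
    rintro ⟨h1, h2⟩
    exact ha ⟨(a.2.1, a.1 - a.2.1 - 1), by
      refine Prod.ext ?_ (Prod.ext rfl h1.symm); simp only; omega⟩

theorem gen_w3 (p : ℕ) : gen box3 deg1 (w3 p) =
    (PowerSeries.C (((p : ℤ) + 1) * (p : ℤ) ^ 2) * PowerSeries.X ^ 4) *
      (geo ((p : ℤ) ^ 3) 4 * (geo ((p : ℤ) ^ 2) 3 * geo 1 2)) := by
  rw [← cone3 _ ((p : ℤ) ^ 3) ((p : ℤ) ^ 2) 1 4 (by norm_num) (by norm_num) (by norm_num)]
  refine gen_reindex deg1_mem (cone3_mem (by norm_num) (by norm_num) (by norm_num))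
    (fun x => (x.1 + 1 + x.2.1, x.1 + 1 + x.2.1 + x.2.2, x.1 + 1)) ?_ ?_ ?_ ?_
  · intro x y h
    simp only [Prod.mk.injEq] at h
    exact Prod.ext (by omega) (Prod.ext (by omega) (by omega))
  · intro x; simp only [deg1]; omega
  · intro x
    simp only [w3]
    rw [if_pos (by omega), show x.1 + 1 - 1 = x.1 by omega]
    ring
  · intro a ha
    unfold w3
    rw [if_neg]
    rintro ⟨h1, h2, h3⟩
    exact ha ⟨(a.2.2 - 1, a.1 - a.2.2, a.2.1 - a.1), by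
      refine Prod.ext ?_ (Prod.ext ?_ ?_) <;> simp only <;> omega⟩

theorem gen_w4 (p : ℕ) : gen box3 deg1 (w4 p) =
    (PowerSeries.C (((p : ℤ) + 1) * (p : ℤ)) * PowerSeries.X ^ 2) *
      (geo ((p : ℤ) ^ 2) 2 * (geo ((p : ℤ) ^ 2) 3 * geo 1 1)) := by
  rw [← cone3 _ ((p : ℤ) ^ 2) ((p : ℤ) ^ 2) 1 2 (by norm_num) (by norm_num) (by norm_num)]
  refine gen_reindex deg1_mem (cone3_mem (by norm_num) (by norm_num) (by norm_num))
    (fun x => (x.2.1 + x.1 + 1 + x.2.2, x.2.1, x.1 + 1)) ?_ ?_ ?_ ?_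
  · intro x y h
    simp only [Prod.mk.injEq] at h
    exact Prod.ext (by omega) (Prod.ext (by omega) (by omega))
  · intro x; simp only [deg1]; omega
  · intro x
    simp only [w4]
    rw [if_pos (by omega), show x.1 + 1 - 1 = x.1 by omega]
    ring
  · intro a ha
    unfold w4
    rw [if_neg]
    rintro ⟨h1, h2⟩
    exact ha ⟨(a.2.2 - 1, a.2.1, a.1 - a.2.1 - a.2.2), by
      refine Prod.ext ?_ (Prod.ext ?_ ?_) <;> simp only <;> omega⟩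

theorem gen_w5 (p : ℕ) : gen box3 deg1 (w5 p) =
    (PowerSeries.C (((p : ℤ) + 1) * (p : ℤ) ^ 4) * PowerSeries.X ^ 6) *
      (geo ((p : ℤ) ^ 2) 2 * (geo ((p : ℤ) ^ 3) 4 * geo ((p : ℤ) ^ 2) 3)) := by
  rw [← cone3 _ ((p : ℤ) ^ 2) ((p : ℤ) ^ 3) ((p : ℤ) ^ 2) 6 (by norm_num) (by norm_num)
    (by norm_num)]
  refine gen_reindex deg1_mem (cone3_mem (by norm_num) (by norm_num) (by norm_num))
    (fun x => (x.2.1 + x.2.2 + x.1 + 2, x.2.1 + 1 + x.2.2, x.1 + x.2.1 + 2)) ?_ ?_ ?_ ?_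
  · intro x y h
    simp only [Prod.mk.injEq] at h
    exact Prod.ext (by omega) (Prod.ext (by omega) (by omega))
  · intro x; simp only [deg1]; omega
  · intro x
    simp only [w5]
    rw [if_pos (by omega), show x.1 + x.2.1 + 2 - 1 = x.1 + x.2.1 + 1 by omega]
    ring
  · intro a ha
    unfold w5
    rw [if_neg]
    rintro ⟨h1, h2, h3, h4⟩
    exact ha ⟨(a.1 - a.2.1 - 1, a.2.2 - (a.1 - a.2.1) - 1, a.2.1 - (a.2.2 - (a.1 - a.2.1))), by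
      refine Prod.ext ?_ (Prod.ext ?_ ?_) <;> simp only <;> omega⟩

open Polynomial in
theorem uniform_W1 : IsUniform (σ := Unit) (fun p _ => gen box3 deg1 (W1 p)) := by
  have g2 : ∀ (k u : ℕ), 0 < u → IsUniform (σ := Unit)
      (fun p _ => MP_f418a9_al.geo ((p : ℤ) ^ k) u) := by
    intro k u hu
    refine (IsUniform.geo (X ^ k) hu).congr (N₀ := 0) fun p _ _ => by simp
  have g0 : ∀ (u : ℕ), 0 < u → IsUniform (σ := Unit) (fun p _ => MP_f418a9_al.geo 1 u) := by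
    intro u hu
    refine (IsUniform.geo 1 hu).congr (N₀ := 0) fun p _ _ => by simp
  have m : ∀ (f : ℤ[X]) (s : ℕ), IsUniform (σ := Unit) (fun p _ =>
      (PowerSeries.C (f.eval (p : ℤ)) * PowerSeries.X ^ s : PowerSeries ℤ)) :=
    fun f s => IsUniform.monom f s
  have h1 := (m 1 0).mul ((g2 2 3 (by norm_num)).mul (g0 2 (by norm_num)))
  have h2 := (m 1 1).mul ((g2 2 3 (by norm_num)).mul (g0 1 (by norm_num)))
  have h3 := (m ((X + 1) * X ^ 2) 4).mul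
    ((g2 3 4 (by norm_num)).mul ((g2 2 3 (by norm_num)).mul (g0 2 (by norm_num))))
  have h4 := (m ((X + 1) * X) 2).mul
    ((g2 2 2 (by norm_num)).mul ((g2 2 3 (by norm_num)).mul (g0 1 (by norm_num))))
  have h5 := (m ((X + 1) * X ^ 4) 6).mul
    ((g2 2 2 (by norm_num)).mul ((g2 3 4 (by norm_num)).mul (g2 2 3 (by norm_num))))
  refine (h1.add (h2.add (h3.add (h4.add h5)))).congr (N₀ := 0) fun p _ _ => ?_
  rw [gen_congr (W1_split p), gen_add, gen_add, gen_add, gen_add, gen_w1, gen_w2, gen_w3, gen_w4,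
    gen_w5]
  simp

end Pool.Agent.MP_f418a9_al
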