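import Mathlib
import Pool.Agent.Work.MP_f418a9_al.Plane
import Pool.Agent.Work.MP_f418a9_al.GenOne

/-!
# Counting the subalgebras of index `p^n` of the rank three algebra `e * u₂ = u₁`, `u₁ * e = -u₂`
-/

open scoped BigOperators

noncomputable section

namespace Pool.Agent.MP_f418a9_al

variable {p : ℕ} [hp : Fact p.Prime]

/-- The product on `ℤ_p e ⊕ (ℤ_p u₁ ⊕ ℤ_p u₂)`. -/
def prodT (x y : ℤ_[p] × (ℤ_[p] × ℤ_[p])) : ℤ_[p] × (ℤ_[p] × ℤ_[p]) :=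
  (0, (x.1 * y.2.2, -(x.2.1 * y.1)))

/-- closed under `prodT` -/
def ClosedT (Λ : Submodule ℤ_[p] (ℤ_[p] × (ℤ_[p] × ℤ_[p]))) : Prop :=
  ∀ x ∈ Λ, ∀ y ∈ Λ, prodT x y ∈ Λ

theorem closedT_extMod {a : ℕ} {M : Submodule ℤ_[p] (ℤ_[p] × ℤ_[p])} {x : ℤ_[p] × ℤ_[p]} :
    ClosedT (extMod a M x) ↔ (∀ u ∈ M, ((p : ℤ_[p]) ^ a * u.2, (0 : ℤ_[p])) ∈ M) ∧
      (∀ u ∈ M, ((0 : ℤ_[p]), (p : ℤ_[p]) ^ a * u.1) ∈ M) ∧
      ((p : ℤ_[p]) ^ a * x.2, -((p : ℤ_[p]) ^ a * x.1)) ∈ M := by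
  constructor
  · intro h
    refine ⟨fun u hu => ?_, fun u hu => ?_, ?_⟩
    · have := h _ (self_mem_extMod (a := a) (M := M) (x := x)) (0, u) (zero_mem_extMod.mpr hu)
      simp only [prodT] at this
      rw [zero_mem_extMod] at this
      simpa using this
    · have := h (0, u) (zero_mem_extMod.mpr hu) _ (self_mem_extMod (a := a) (M := M) (x := x))
      simp only [prodT] at this
      rw [zero_mem_extMod] at this
      have h2 := M.neg_mem this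
      simpa [mul_comm] using h2
    · have := h _ (self_mem_extMod (a := a) (M := M) (x := x)) _
        (self_mem_extMod (a := a) (M := M) (x := x))
      simp only [prodT] at this
      rw [zero_mem_extMod] at this
      simpa [mul_comm] using this
  · rintro ⟨h1, h2, h3⟩ z ⟨c, hc1, hc2⟩ w ⟨d, hd1, hd2⟩
    simp only [prodT]
    rw [zero_mem_extMod]
    have e1 := h1 _ hd2
    have e2 := h2 _ hc2
    have : (z.1 * w.2.2, -(z.2.1 * w.1)) =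
        (c * d) • ((p : ℤ_[p]) ^ a * x.2, -((p : ℤ_[p]) ^ a * x.1)) +
        c • ((p : ℤ_[p]) ^ a * (w.2 - d • x).2, (0 : ℤ_[p])) -
        d • ((0 : ℤ_[p]), (p : ℤ_[p]) ^ a * (z.2 - c • x).1) := by
      rw [hc1, hd1]
      refine Prod.ext ?_ ?_
      · simp only [Prod.fst_sub, Prod.fst_add, Prod.smul_fst, Prod.snd_sub, Prod.smul_snd,
          smul_eq_mul]
        ring
      · simp only [Prod.snd_sub, Prod.snd_add, Prod.smul_fst, Prod.fst_sub, Prod.smul_snd,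
          smul_eq_mul]
        ring
    rw [this]
    exact M.sub_mem (M.add_mem (M.smul_mem _ h3) (M.smul_mem _ e1)) (M.smul_mem _ e2)

theorem stable_iff {a b m : ℕ} (s : Pt p m) :
    ((∀ u ∈ lat b s, ((p : ℤ_[p]) ^ a * u.2, (0 : ℤ_[p])) ∈ lat b s) ∧
      (∀ u ∈ lat b s, ((0 : ℤ_[p]), (p : ℤ_[p]) ^ a * u.1) ∈ lat b s)) ↔ m ≤ a := by
  constructor
  · rintro ⟨h1, h2⟩
    rcases s with z | z
    · have h3 := h2 _ (latVec_mem b _)
      rw [mem_lat_inl] at h3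
      have h4 := h3.2
      simp only [latVec, mul_zero, sub_zero] at h4
      rw [← pow_add, ppow_dvd_ppow] at h4
      omega
    · have h3 := h1 _ (latVec_mem b _)
      rw [mem_lat_inr] at h3
      have h4 := h3.2
      simp only [latVec, mul_zero, sub_zero] at h4
      rw [← pow_add, ppow_dvd_ppow] at h4
      omega
  · intro hma
    have key : ∀ r : ℤ_[p], (p : ℤ_[p]) ^ b ∣ r → (p : ℤ_[p]) ^ (b + m) ∣ (p : ℤ_[p]) ^ a * r := by
      intro r hr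
      rw [add_comm b m, pow_add]
      exact mul_dvd_mul (pow_dvd_pow _ hma) hr
    refine ⟨fun u hu => ?_, fun u hu => ?_⟩
    · exact mem_lat_of_dvd (key _ (dvd_of_mem_lat hu).2) (dvd_zero _)
    · exact mem_lat_of_dvd (dvd_zero _) (key _ (dvd_of_mem_lat hu).1)

/-- the rotation `(x₁, x₂) ↦ (x₂, -x₁)` -/
def rot : (ℤ_[p] × ℤ_[p]) ≃ₗ[ℤ_[p]] (ℤ_[p] × ℤ_[p]) where
  toFun u := (u.2, -u.1)
  invFun u := (-u.2, u.1)
  map_add' u v := by
    simp only [Prod.fst_add, Prod.snd_add, Prod.mk_add_mk]; congr 1; ring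
  map_smul' c u := by
    simp only [Prod.smul_fst, Prod.smul_snd, smul_eq_mul, RingHom.id_apply, Prod.smul_mk]
    congr 1; ring
  left_inv u := by simp
  right_inv u := by simp

/-- The submodule `{x : p^a Δ x ∈ lat b s}`. -/
def latS (a b : ℕ) {m : ℕ} (s : Pt p m) : Submodule ℤ_[p] (ℤ_[p] × ℤ_[p]) :=
  diagLat (rot ≪≫ₗ planeE s) (b - a) (b + m - a)

lemma dvd_ppow_mul_iff {a i : ℕ} {r : ℤ_[p]} :
    (p : ℤ_[p]) ^ i ∣ (p : ℤ_[p]) ^ a * r ↔ (p : ℤ_[p]) ^ (i - a) ∣ r := by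
  rcases le_or_gt a i with h | h
  · obtain ⟨k, rfl⟩ := Nat.exists_eq_add_of_le h
    rw [pow_add, mul_dvd_mul_iff_left (ppow_ne_zero a), Nat.add_sub_cancel_left]
  · rw [Nat.sub_eq_zero_of_le h.le, pow_zero]
    constructor
    · intro _; exact one_dvd _
    · intro _
      exact Dvd.dvd.mul_right (pow_dvd_pow _ h.le) _

lemma mem_latS {a b m : ℕ} {s : Pt p m} {x : ℤ_[p] × ℤ_[p]} :
    x ∈ latS a b s ↔ ((p : ℤ_[p]) ^ a * x.2, -((p : ℤ_[p]) ^ a * x.1)) ∈ lat b s := by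
  unfold latS lat
  rw [mem_diagLat, mem_diagLat]
  have h1 : ((p : ℤ_[p]) ^ a * x.2, -((p : ℤ_[p]) ^ a * x.1)) = (p : ℤ_[p]) ^ a • rot x := by
    refine Prod.ext ?_ ?_
    · simp [rot]
    · simp [rot]
  rw [h1, map_smul, Prod.smul_fst, Prod.smul_snd, smul_eq_mul, smul_eq_mul, dvd_ppow_mul_iff,
    dvd_ppow_mul_iff]
  rfl

lemma lat_le_latS {a b m : ℕ} {s : Pt p m} (hma : m ≤ a) : lat b s ≤ latS a b s := by
  intro u hu
  obtain ⟨h1, h2⟩ := (stable_iff (a := a) (b := b) s).mpr hma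
  rw [mem_latS]
  have := (lat b s).sub_mem (h1 u hu) (h2 u hu)
  simpa using this

instance finite_quot_lat {b m : ℕ} {s : Pt p m} : Finite ((ℤ_[p] × ℤ_[p]) ⧸ lat b s) := by
  apply Nat.finite_of_card_ne_zero
  rw [card_quot_lat]
  exact pow_ne_zero _ hp.1.ne_zero

theorem card_K {a b m : ℕ} {s : Pt p m} (hma : m ≤ a) :
    Nat.card ((latS a b s).map (lat b s).mkQ) = p ^ (min b a + min (b + m) a) := by
  have h1 := Submodule.card_quotient_mul_card_quotient (latS a b s) (lat b s) (lat_le_latS hma)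
  rw [card_quot_lat] at h1
  have h2 : Nat.card ((ℤ_[p] × ℤ_[p]) ⧸ latS a b s) = p ^ ((b - a) + (b + m - a)) :=
    card_quot_diagLat _ _ _
  rw [h2] at h1
  have h3 : 2 * b + m = (min b a + min (b + m) a) + ((b - a) + (b + m - a)) := by omega
  rw [h3, pow_add _ (min b a + min (b + m) a)] at h1
  exact Nat.eq_of_mul_eq_mul_right (pow_pos hp.1.pos _) h1

/-- The index set of `(a, b, m)`. -/
def TT (n : ℕ) : Finset (ℕ × ℕ × ℕ) := (box3 n).filter (fun t => deg1 t = n ∧ t.2.2 ≤ t.1)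

/-- The parameters of the closed submodules of index `p^n`. -/
abbrev ParT (p : ℕ) [Fact p.Prime] (n : ℕ) : Type :=
  Σ (t : TT n) (s : Pt p t.1.2.2),
    ((latS t.1.1 t.1.2.1 s).map (lat t.1.2.1 s).mkQ : Submodule ℤ_[p] _)

/-- A lift of an element of the quotient by `lat b s`. -/
def liftQ {b m : ℕ} (s : Pt p m) (k : (ℤ_[p] × ℤ_[p]) ⧸ lat b s) : ℤ_[p] × ℤ_[p] :=
  Function.surjInv (Submodule.mkQ_surjective (lat b s)) k

lemma mk_liftQ {b m : ℕ} (s : Pt p m) (k : (ℤ_[p] × ℤ_[p]) ⧸ lat b s) :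
    (lat b s).mkQ (liftQ s k) = k :=
  Function.surjInv_eq (Submodule.mkQ_surjective (lat b s)) k

/-- The parametrisation of the closed submodules of index `p^n`. -/
def paramT (n : ℕ) (x : ParT p n) : Submodule ℤ_[p] (ℤ_[p] × (ℤ_[p] × ℤ_[p])) :=
  extMod x.1.1.1 (lat x.1.1.2.1 x.2.1) (liftQ x.2.1 x.2.2.1)

lemma closed_lift {a b m : ℕ} (hma : m ≤ a) (s : Pt p m) (k : (ℤ_[p] × ℤ_[p]) ⧸ lat b s)
    (hk : k ∈ (latS a b s).map (lat b s).mkQ) : ClosedT (extMod a (lat b s) (liftQ s k)) := by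
  rw [closedT_extMod]
  obtain ⟨h1, h2⟩ := (stable_iff (a := a) (b := b) s).mpr hma
  refine ⟨h1, h2, ?_⟩
  rw [← mem_latS]
  obtain ⟨y, hy, hyk⟩ := hk
  have h3 : liftQ s k - y ∈ lat b s := by
    rw [← Submodule.Quotient.mk_eq_zero, Submodule.Quotient.mk_sub, sub_eq_zero]
    exact (mk_liftQ s k).trans hyk.symm
  have h4 := (latS a b s).add_mem (lat_le_latS hma h3) hy
  simpa using h4

lemma card_lift {a b m : ℕ} (s : Pt p m) (k : (ℤ_[p] × ℤ_[p]) ⧸ lat b s) :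
    Nat.card ((ℤ_[p] × (ℤ_[p] × ℤ_[p])) ⧸ extMod a (lat b s) (liftQ s k)) =
      p ^ deg1 (a, b, m) := by
  rw [card_quot_extMod, card_quot_lat, ← pow_add]
  congr 1
  simp only [deg1]
  omega

lemma mem_TT {n a b m : ℕ} (h : (a, b, m) ∈ TT n) : deg1 (a, b, m) = n ∧ m ≤ a :=
  (Finset.mem_filter.mp h).2

lemma paramT_spec (n : ℕ) (x : ParT p n) :
    ClosedT (paramT n x) ∧ Nat.card ((ℤ_[p] × (ℤ_[p] × ℤ_[p])) ⧸ paramT n x) = p ^ n := by
  have ht := mem_TT (n := n) (a := x.1.1.1) (b := x.1.1.2.1) (m := x.1.1.2.2) x.1.2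
  refine ⟨closed_lift ht.2 x.2.1 x.2.2.1 x.2.2.2, ?_⟩
  have h := card_lift (a := x.1.1.1) x.2.1 x.2.2.1
  rw [ht.1] at h
  exact h

lemma paramT_injective (n : ℕ) : Function.Injective (paramT (p := p) n) := by
  rintro ⟨⟨⟨a, b, m⟩, ht⟩, s, k⟩ ⟨⟨⟨a', b', m'⟩, ht'⟩, s', k'⟩ h
  change extMod a (lat b s) (liftQ s k.1) = extMod a' (lat b' s') (liftQ s' k'.1) at h
  rw [extMod_inj] at h
  obtain ⟨rfl, hlat, hx⟩ := h
  have h1 := lat_inj hlat
  rw [Sigma.mk.inj_iff] at h1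
  obtain ⟨rfl, h1⟩ := h1
  have h2 := eq_of_heq h1
  rw [Sigma.mk.inj_iff] at h2
  obtain ⟨rfl, h2⟩ := h2
  have h3 := eq_of_heq h2
  subst h3
  have hk : k = k' := by
    apply Subtype.ext
    rw [← mk_liftQ s k.1, ← mk_liftQ s k'.1]
    exact (Submodule.Quotient.eq _).mpr hx
  subst hk
  rfl

lemma paramT_surj (n : ℕ) (Λ : Submodule ℤ_[p] (ℤ_[p] × (ℤ_[p] × ℤ_[p]))) (h1 : ClosedT Λ)
    (h2 : Nat.card ((ℤ_[p] × (ℤ_[p] × ℤ_[p])) ⧸ Λ) = p ^ n) : ∃ x, paramT n x = Λ := by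
  have hfin : Finite ((ℤ_[p] × (ℤ_[p] × ℤ_[p])) ⧸ Λ) := by
    apply Nat.finite_of_card_ne_zero
    rw [h2]
    exact pow_ne_zero _ hp.1.ne_zero
  obtain ⟨a, M, x, rfl, hM⟩ := exists_extMod Λ
  obtain ⟨b, m, s, rfl⟩ := exists_lat M
  rw [card_quot_extMod, card_quot_lat, ← pow_add] at h2
  have h3 : a + (2 * b + m) = n := Nat.pow_right_injective hp.1.two_le h2
  rw [closedT_extMod] at h1
  obtain ⟨h4, h5, h6⟩ := h1
  have hma : m ≤ a := (stable_iff (a := a) (b := b) s).mp ⟨h4, h5⟩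
  have hdeg : deg1 (a, b, m) = n := by simp only [deg1]; omega
  have ht : (a, b, m) ∈ TT n := Finset.mem_filter.mpr ⟨deg1_mem _ _ hdeg.le, hdeg, hma⟩
  refine ⟨⟨⟨(a, b, m), ht⟩, s, ⟨(lat b s).mkQ x, Submodule.mem_map_of_mem (mem_latS.mpr h6)⟩⟩, ?_⟩
  change extMod a (lat b s) (liftQ s ((lat b s).mkQ x)) = extMod a (lat b s) x
  rw [extMod_inj]
  refine ⟨rfl, rfl, ?_⟩
  rw [← Submodule.Quotient.mk_eq_zero, Submodule.Quotient.mk_sub, sub_eq_zero]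
  exact mk_liftQ s _

/-- The number of closed submodules of index `p^n`. -/
theorem card_closedT (n : ℕ) :
    Nat.card {Λ : Submodule ℤ_[p] (ℤ_[p] × (ℤ_[p] × ℤ_[p])) //
      ClosedT Λ ∧ Nat.card ((ℤ_[p] × (ℤ_[p] × ℤ_[p])) ⧸ Λ) = p ^ n} =
    ∑ t ∈ TT n, nlat p t.2.2 * p ^ (min t.2.1 t.1 + min (t.2.1 + t.2.2) t.1) := by
  have e : ParT p n ≃ {Λ : Submodule ℤ_[p] (ℤ_[p] × (ℤ_[p] × ℤ_[p])) //
      ClosedT Λ ∧ Nat.card ((ℤ_[p] × (ℤ_[p] × ℤ_[p])) ⧸ Λ) = p ^ n} := by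
    refine Equiv.ofBijective (fun x => ⟨paramT n x, paramT_spec n x⟩) ⟨?_, ?_⟩
    · intro x y h
      exact paramT_injective n (Subtype.ext_iff.mp h)
    · rintro ⟨Λ, h1, h2⟩
      obtain ⟨x, hx⟩ := paramT_surj n Λ h1 h2
      exact ⟨x, Subtype.ext hx⟩
  rw [← Nat.card_congr e, Nat.card_sigma, ← Finset.sum_coe_sort (TT n)]
  refine Finset.sum_congr rfl ?_
  intro t _
  have ht := mem_TT (n := n) (a := t.1.1) (b := t.1.2.1) (m := t.1.2.2) t.2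
  rw [Nat.card_sigma]
  rw [Finset.sum_congr rfl (fun s _ => card_K (a := t.1.1) (b := t.1.2.1) (s := s) ht.2),
    Finset.sum_const, smul_eq_mul, Finset.card_univ, ← Nat.card_eq_fintype_card, card_Pt]
  rfl

end Pool.Agent.MP_f418a9_al
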