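import Mathlib
import Pool.Agent.Work.MP_f418a9_al.CountOne

/-!
# The zeta function of the rank three algebra is uniform
-/

open scoped BigOperators

noncomputable section

namespace Pool.Agent.MP_f418a9_al

/-- The structure constants of the rank three algebra `ℤ e ⊕ ℤ u₁ ⊕ ℤ u₂` with
`e * u₂ = u₁`, `u₁ * e = -u₂`, all other products of basis elements zero. -/
def cOne : StructureConstants 3 := fun i j k =>
  if i = 0 ∧ j = 2 ∧ k = 1 then 1 else if i = 1 ∧ j = 0 ∧ k = 2 then -1 else 0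

section transport

variable {p : ℕ} [hp : Fact p.Prime]

/-- coordinates -/
def e3 : (Fin 3 → ℤ_[p]) ≃ₗ[ℤ_[p]] (ℤ_[p] × (ℤ_[p] × ℤ_[p])) where
  toFun x := (x 0, (x 1, x 2))
  invFun y := ![y.1, y.2.1, y.2.2]
  map_add' x y := rfl
  map_smul' c x := rfl
  left_inv x := by
    ext i; fin_cases i <;> rfl
  right_inv y := rfl

lemma locMul_cOne (x y : Fin 3 → ℤ_[p]) :
    locMul p cOne x y = ![0, x 0 * y 2, -(x 1 * y 0)] := by
  ext k
  fin_cases k <;> simp [locMul, cOne, Fin.sum_univ_three]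

lemma e3_locMul (x y : Fin 3 → ℤ_[p]) : e3 (locMul p cOne x y) = prodT (e3 x) (e3 y) := by
  rw [locMul_cOne]
  rfl

/-- transport of submodules -/
def mapE : Submodule ℤ_[p] (Fin 3 → ℤ_[p]) ≃ Submodule ℤ_[p] (ℤ_[p] × (ℤ_[p] × ℤ_[p])) :=
  (Submodule.orderIsoMapComap (e3 (p := p))).toEquiv

lemma mapE_apply (Λ : Submodule ℤ_[p] (Fin 3 → ℤ_[p])) :
    mapE Λ = Λ.map (e3 (p := p) : (Fin 3 → ℤ_[p]) →ₗ[ℤ_[p]] _) := rfl

lemma mem_mapE {Λ : Submodule ℤ_[p] (Fin 3 → ℤ_[p])} {x : Fin 3 → ℤ_[p]} :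
    e3 x ∈ mapE Λ ↔ x ∈ Λ := by
  rw [mapE_apply]
  constructor
  · rintro ⟨y, hy, hyx⟩
    have := e3.injective hyx
    exact this ▸ hy
  · intro h; exact Submodule.mem_map_of_mem h

lemma isSubalg_iff (Λ : Submodule ℤ_[p] (Fin 3 → ℤ_[p])) :
    IsSubalg p cOne Λ ↔ ClosedT (mapE Λ) := by
  constructor
  · intro h x hx y hy
    obtain ⟨x, rfl⟩ := e3.surjective x
    obtain ⟨y, rfl⟩ := e3.surjective y
    rw [← e3_locMul, mem_mapE]
    exact h x (mem_mapE.mp hx) y (mem_mapE.mp hy)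
  · intro h x hx y hy
    rw [← mem_mapE, e3_locMul]
    exact h _ (mem_mapE.mpr hx) _ (mem_mapE.mpr hy)

lemma card_mapE (Λ : Submodule ℤ_[p] (Fin 3 → ℤ_[p])) :
    Nat.card ((ℤ_[p] × (ℤ_[p] × ℤ_[p])) ⧸ mapE Λ) = Nat.card ((Fin 3 → ℤ_[p]) ⧸ Λ) :=
  (Nat.card_congr (Submodule.Quotient.equiv Λ (mapE Λ) e3 rfl).toEquiv).symm

theorem zetaIdx_cOne : zetaIdx p (IsSubalg p cOne) = gen box3 deg1 (W1 p) := by
  ext n
  rw [zetaIdx, PowerSeries.coeff_mk, gen, PowerSeries.coeff_mk]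
  have h1 : ({Λ | IsSubalg p cOne Λ ∧ Nat.card ((Fin 3 → ℤ_[p]) ⧸ Λ) = p ^ n}.ncard) =
      Nat.card {Λ : Submodule ℤ_[p] (ℤ_[p] × (ℤ_[p] × ℤ_[p])) //
      ClosedT Λ ∧ Nat.card ((ℤ_[p] × (ℤ_[p] × ℤ_[p])) ⧸ Λ) = p ^ n} := by
    rw [← Nat.card_coe_set_eq]
    refine Nat.card_congr (Equiv.subtypeEquiv mapE ?_)
    intro Λ
    rw [Set.mem_setOf_eq, isSubalg_iff, card_mapE]
  rw [h1, card_closedT, Nat.cast_sum, TT, Finset.sum_filter]
  refine Finset.sum_congr rfl ?_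
  intro t _
  unfold W1
  by_cases hd : deg1 t = n
  · by_cases hm : t.2.2 ≤ t.1
    · rw [if_pos ⟨hd, hm⟩, if_pos hd, if_pos hm]
    · rw [if_neg (fun h => hm h.2), if_pos hd, if_neg hm]
  · rw [if_neg (fun h => hd h.1), if_neg hd]

end transport

theorem uniform_zetaIdx_cOne :
    IsUniform (σ := Unit) (fun p _ => zetaIdx p (IsSubalg p cOne)) :=
  uniform_W1.congr (N₀ := 0) fun p _ _ => zetaIdx_cOne.symm

end Pool.Agent.MP_f418a9_al
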