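import Mathlib
import Pool.Agent.Work.MP_f418a9_al.Cotype
import Pool.Agent.Work.MP_f418a9_al.IdxOne

/-!
# Subalgebras of cotype `(p^2, p^2, 1)` of the rank three algebra
-/

open scoped BigOperators

noncomputable section

namespace Pool.Agent.MP_f418a9_al

/-- The cotype `(2, 2, 0)`. -/
def k220 : Fin 3 → ℕ := ![2, 2, 0]

lemma antitone_k220 : Antitone k220 := by
  intro i j h
  fin_cases i <;> fin_cases j <;> simp_all [k220]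

/-- Parameters of the subalgebras of cotype `(2, 2, 0)`. -/
abbrev PS (p : ℕ) : Type :=
  Unit ⊕ ({x : Fin (p ^ 1) × Fin (p ^ 2) // (x.1 : ℕ) = 0 ∨ p ∣ (x.2 : ℕ) ^ 2 + 1} ⊕ Fin (p ^ 1))

variable {p : ℕ} [hp : Fact p.Prime]

/-- The generator attached to a parameter. -/
def vecS (s : PS p) : Fin 3 → ℤ_[p] :=
  match s with
  | Sum.inl _ => ![1, 0, 0]
  | Sum.inr (Sum.inl x) => ![(p : ℤ_[p]) * ((x.1.1 : ℕ) : ℤ_[p]), 1, ((x.1.2 : ℕ) : ℤ_[p])]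
  | Sum.inr (Sum.inr b) => ![0, (p : ℤ_[p]) * ((b : ℕ) : ℤ_[p]), 1]

/-- coordinates `(x₁, x₂, x₀)` -/
def E0 : (Fin 3 → ℤ_[p]) ≃ₗ[ℤ_[p]] (Fin 3 → ℤ_[p]) where
  toFun x := ![x 1, x 2, x 0]
  invFun y := ![y 2, y 0, y 1]
  map_add' x y := by ext i; fin_cases i <;> simp
  map_smul' c x := by ext i; fin_cases i <;> simp
  left_inv x := by ext i; fin_cases i <;> simp
  right_inv x := by ext i; fin_cases i <;> simp

/-- coordinates `(x₀ - r x₁, x₂ - u x₁, x₁)` -/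
def E1 (r u : ℤ_[p]) : (Fin 3 → ℤ_[p]) ≃ₗ[ℤ_[p]] (Fin 3 → ℤ_[p]) where
  toFun x := ![x 0 - r * x 1, x 2 - u * x 1, x 1]
  invFun y := ![y 0 + r * y 2, y 2, y 1 + u * y 2]
  map_add' x y := by ext i; fin_cases i <;> simp <;> ring
  map_smul' c x := by ext i; fin_cases i <;> simp <;> ring
  left_inv x := by ext i; fin_cases i <;> simp
  right_inv x := by ext i; fin_cases i <;> simp

/-- coordinates `(x₀, x₁ - r x₂, x₂)` -/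
def E2 (r : ℤ_[p]) : (Fin 3 → ℤ_[p]) ≃ₗ[ℤ_[p]] (Fin 3 → ℤ_[p]) where
  toFun x := ![x 0, x 1 - r * x 2, x 2]
  invFun y := ![y 0, y 1 + r * y 2, y 2]
  map_add' x y := by ext i; fin_cases i <;> simp <;> ring
  map_smul' c x := by ext i; fin_cases i <;> simp <;> ring
  left_inv x := by ext i; fin_cases i <;> simp
  right_inv x := by ext i; fin_cases i <;> simp

/-- coordinates attached to a parameter -/
def ES (s : PS p) : (Fin 3 → ℤ_[p]) ≃ₗ[ℤ_[p]] (Fin 3 → ℤ_[p]) :=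
  match s with
  | Sum.inl _ => E0
  | Sum.inr (Sum.inl x) => E1 ((p : ℤ_[p]) * ((x.1.1 : ℕ) : ℤ_[p])) ((x.1.2 : ℕ) : ℤ_[p])
  | Sum.inr (Sum.inr b) => E2 ((p : ℤ_[p]) * ((b : ℕ) : ℤ_[p]))

/-- The subalgebra attached to a parameter. -/
def LamS (s : PS p) : Submodule ℤ_[p] (Fin 3 → ℤ_[p]) := coordLat (ES s) k220

lemma mem_LamS {s : PS p} {x : Fin 3 → ℤ_[p]} :
    x ∈ LamS s ↔ (p : ℤ_[p]) ^ 2 ∣ ES s x 0 ∧ (p : ℤ_[p]) ^ 2 ∣ ES s x 1 := by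
  unfold LamS
  rw [mem_coordLat, Fin.forall_fin_succ, Fin.forall_fin_succ, Fin.forall_fin_succ]
  simp only [k220, Matrix.cons_val_zero, Matrix.cons_val_succ, pow_zero, one_dvd, IsEmpty.forall_iff,
    and_true, true_and]
  rfl

lemma mem_LamS0 {t : Unit} {x : Fin 3 → ℤ_[p]} :
    x ∈ LamS (Sum.inl t : PS p) ↔ (p : ℤ_[p]) ^ 2 ∣ x 1 ∧ (p : ℤ_[p]) ^ 2 ∣ x 2 := mem_LamS

lemma mem_LamS1 {t : {x : Fin (p ^ 1) × Fin (p ^ 2) // (x.1 : ℕ) = 0 ∨ p ∣ (x.2 : ℕ) ^ 2 + 1}}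
    {x : Fin 3 → ℤ_[p]} :
    x ∈ LamS (Sum.inr (Sum.inl t) : PS p) ↔
      (p : ℤ_[p]) ^ 2 ∣ x 0 - (p : ℤ_[p]) * ((t.1.1 : ℕ) : ℤ_[p]) * x 1 ∧
      (p : ℤ_[p]) ^ 2 ∣ x 2 - ((t.1.2 : ℕ) : ℤ_[p]) * x 1 := mem_LamS

lemma mem_LamS2 {b : Fin (p ^ 1)} {x : Fin 3 → ℤ_[p]} :
    x ∈ LamS (Sum.inr (Sum.inr b) : PS p) ↔
      (p : ℤ_[p]) ^ 2 ∣ x 0 ∧ (p : ℤ_[p]) ^ 2 ∣ x 1 - (p : ℤ_[p]) * ((b : ℕ) : ℤ_[p]) * x 2 :=
  mem_LamS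

lemma hasCotype_LamS (s : PS p) : HasCotype p (LamS s) k220 :=
  hasCotype_coordLat _ antitone_k220

lemma vecS_mem (s : PS p) : vecS s ∈ LamS s := by
  rcases s with t | t | b
  · rw [mem_LamS0]; simp [vecS]
  · rw [mem_LamS1]; simp [vecS]
  · rw [mem_LamS2]; simp [vecS]

lemma isSubalg_LamS (s : PS p) : IsSubalg p cOne (LamS s) := by
  intro x hx y hy
  rw [locMul_cOne]
  rcases s with t | t | b
  · rw [mem_LamS0] at hx hy ⊢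
    simp only [Matrix.cons_val_one, Matrix.cons_val_zero, Matrix.cons_val]
    exact ⟨Dvd.dvd.mul_left hy.2 _, (Dvd.dvd.mul_right hx.1 _).neg_right⟩
  · rw [mem_LamS1] at hx hy ⊢
    simp only [Matrix.cons_val_one, Matrix.cons_val_zero, Matrix.cons_val]
    obtain ⟨⟨α, u⟩, ht⟩ := t
    simp only at hx hy ht ⊢
    obtain ⟨⟨a1, h1⟩, ⟨a2, h2⟩⟩ := hx
    obtain ⟨⟨b1, h3⟩, ⟨b2, h4⟩⟩ := hy
    have e1 : x 0 = (p : ℤ_[p]) * ((α : ℕ) : ℤ_[p]) * x 1 + (p : ℤ_[p]) ^ 2 * a1 := by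
      rw [← h1]; ring
    have e2 : x 2 = ((u : ℕ) : ℤ_[p]) * x 1 + (p : ℤ_[p]) ^ 2 * a2 := by
      rw [← h2]; ring
    have e3 : y 0 = (p : ℤ_[p]) * ((α : ℕ) : ℤ_[p]) * y 1 + (p : ℤ_[p]) ^ 2 * b1 := by
      rw [← h3]; ring
    have e4 : y 2 = ((u : ℕ) : ℤ_[p]) * y 1 + (p : ℤ_[p]) ^ 2 * b2 := by
      rw [← h4]; ring
    have hk : ∃ r : ℤ_[p], ((α : ℕ) : ℤ_[p]) * (((u : ℕ) : ℤ_[p]) ^ 2 + 1) = (p : ℤ_[p]) * r := by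
      rcases ht with h | ⟨r, hr⟩
      · exact ⟨0, by rw [h]; simp⟩
      · refine ⟨((α : ℕ) : ℤ_[p]) * (r : ℤ_[p]), ?_⟩
        have : (((u : ℕ) : ℤ_[p]) ^ 2 + 1) = (p : ℤ_[p]) * (r : ℤ_[p]) := by
          exact_mod_cast congrArg (Nat.cast (R := ℤ_[p])) hr
        rw [this]; ring
    obtain ⟨r, hr⟩ := hk
    constructor
    · refine ⟨-(((α : ℕ) : ℤ_[p]) * (((α : ℕ) : ℤ_[p]) * x 1 + (p : ℤ_[p]) * a1) * y 2), ?_⟩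
      rw [e1]; ring
    · refine ⟨-(x 1 * b1) - (u : ℕ) * a1 * y 2 - (u : ℕ) * ((p : ℤ_[p]) * ((α : ℕ) : ℤ_[p]) * x 1)
        * b2 - x 1 * y 1 * r, ?_⟩
      rw [e3, e1, e4]
      linear_combination (-(p : ℤ_[p]) * x 1 * y 1) * hr
  · rw [mem_LamS2] at hx hy ⊢
    simp only [Matrix.cons_val_one, Matrix.cons_val_zero, Matrix.cons_val]
    refine ⟨dvd_zero _, ?_⟩
    obtain ⟨a, ha⟩ := hx.1
    obtain ⟨b', hb⟩ := hy.1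
    refine ⟨a * y 2 + (p : ℤ_[p]) * ((b : ℕ) : ℤ_[p]) * x 1 * b', ?_⟩
    rw [ha, hb]; ring

end Pool.Agent.MP_f418a9_al
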