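import Mathlib
import Pool.Agent.Work.MP_f418a9_al.CoOne

/-!
# Counting the subalgebras of cotype `(p^2, p^2, 1)` of the rank three algebra
-/

open scoped BigOperators

noncomputable section

namespace Pool.Agent.MP_f418a9_al

variable {p : ℕ} [hp : Fact p.Prime]

lemma p_ne_zero' : (p : ℤ_[p]) ≠ 0 := Nat.cast_ne_zero.mpr hp.1.ne_zero

lemma not_p_dvd_one : ¬ (p : ℤ_[p]) ∣ 1 := fun h =>
  PadicInt.irreducible_p.not_isUnit (isUnit_of_dvd_one h)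

lemma dvd_of_sq_dvd {x : ℤ_[p]} (h : (p : ℤ_[p]) ^ 2 ∣ x) : (p : ℤ_[p]) ∣ x :=
  dvd_trans (dvd_pow_self _ two_ne_zero) h

lemma sq_dvd_p_mul {x : ℤ_[p]} : (p : ℤ_[p]) ^ 2 ∣ (p : ℤ_[p]) * x ↔ (p : ℤ_[p]) ∣ x := by
  rw [pow_two, mul_dvd_mul_iff_left p_ne_zero']

lemma LamS_injective : Function.Injective (LamS (p := p)) := by
  intro s s' h
  have h1 : vecS s ∈ LamS s' := h ▸ vecS_mem s
  have h2 : vecS s' ∈ LamS s := h ▸ vecS_mem s'
  have hone : ¬ (p : ℤ_[p]) ^ 2 ∣ 1 := fun h => not_p_dvd_one (dvd_of_sq_dvd h)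
  rcases s with t | t | b <;> rcases s' with t' | t' | b'
  · rfl
  · rw [mem_LamS1] at h1
    simp only [vecS, Matrix.cons_val_one, Matrix.cons_val_zero, Matrix.cons_val, mul_zero,
      sub_zero] at h1
    exact absurd h1.1 hone
  · rw [mem_LamS2] at h1
    simp only [vecS, Matrix.cons_val_one, Matrix.cons_val_zero, Matrix.cons_val, mul_zero,
      sub_zero] at h1
    exact absurd h1.1 hone
  · rw [mem_LamS0] at h1
    simp only [vecS, Matrix.cons_val_one, Matrix.cons_val_zero, Matrix.cons_val] at h1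
    exact absurd h1.1 hone
  · rw [mem_LamS1] at h1
    simp only [vecS, Matrix.cons_val_one, Matrix.cons_val_zero, Matrix.cons_val, mul_one] at h1
    obtain ⟨⟨α, u⟩, ht⟩ := t
    obtain ⟨⟨α', u'⟩, ht'⟩ := t'
    simp only at h1
    obtain ⟨h3, h4⟩ := h1
    rw [← mul_sub, sq_dvd_p_mul] at h3
    have h5 : (α : ℕ) = (α' : ℕ) := approx_unique α.2 α'.2 (by rw [pow_one]; exact h3)
    have h6 : (u : ℕ) = (u' : ℕ) := approx_unique u.2 u'.2 h4
    have h7 : α = α' := Fin.ext h5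
    have h8 : u = u' := Fin.ext h6
    subst h7 h8
    rfl
  · rw [mem_LamS2] at h1
    simp only [vecS, Matrix.cons_val_one, Matrix.cons_val_zero, Matrix.cons_val] at h1
    exfalso
    apply not_p_dvd_one (p := p)
    have h3 := dvd_of_sq_dvd h1.2
    rw [mul_assoc] at h3
    exact (dvd_sub_left (Dvd.intro _ rfl)).mp h3
  · rw [mem_LamS0] at h1
    simp only [vecS, Matrix.cons_val_one, Matrix.cons_val_zero, Matrix.cons_val] at h1
    exact absurd h1.2 hone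
  · rw [mem_LamS1] at h1
    simp only [vecS, Matrix.cons_val_one, Matrix.cons_val_zero, Matrix.cons_val] at h1
    exfalso
    apply not_p_dvd_one (p := p)
    have h3 := dvd_of_sq_dvd h1.2
    rw [mul_left_comm] at h3
    exact (dvd_sub_left (Dvd.intro _ rfl)).mp h3
  · rw [mem_LamS2] at h1
    simp only [vecS, Matrix.cons_val_one, Matrix.cons_val_zero, Matrix.cons_val, mul_one] at h1
    obtain ⟨-, h3⟩ := h1
    rw [← mul_sub, sq_dvd_p_mul] at h3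
    have h5 : (b : ℕ) = (b' : ℕ) := approx_unique b.2 b'.2 (by rw [pow_one]; exact h3)
    rw [Fin.ext h5]

lemma exists_primitive {Λ : Submodule ℤ_[p] (Fin 3 → ℤ_[p])} (h : HasCotype p Λ k220) :
    ∃ z ∈ Λ, IsUnit (z 0) ∨ IsUnit (z 1) ∨ IsUnit (z 2) := by
  obtain ⟨f, hf1, hf2⟩ := exists_functionals h
  set a : Fin 3 → Fin 3 → ℤ_[p] := fun i j => f (Pi.single j 1) i with ha
  have hfx : ∀ (x : Fin 3 → ℤ_[p]) i, f x i = a i 0 * x 0 + a i 1 * x 1 + a i 2 * x 2 := by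
    intro x i
    have h1 : x = x 0 • Pi.single 0 1 + x 1 • Pi.single 1 1 + x 2 • Pi.single 2 1 := by
      ext j; fin_cases j <;> simp [Pi.single_apply]
    conv_lhs => rw [h1]
    simp only [map_add, map_smul, Pi.add_apply, Pi.smul_apply, smul_eq_mul, ha]
    ring
  refine ⟨![a 0 1 * a 1 2 - a 0 2 * a 1 1, a 0 2 * a 1 0 - a 0 0 * a 1 2,
    a 0 0 * a 1 1 - a 0 1 * a 1 0], ?_, ?_⟩
  · rw [hf1]
    intro i
    rw [hfx]
    simp only [Matrix.cons_val_one, Matrix.cons_val_zero, Matrix.cons_val]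
    fin_cases i
    · convert dvd_zero _ using 1
      simp only [Fin.zero_eta]
      ring
    · convert dvd_zero _ using 1
      simp only [Fin.mk_one]
      ring
    · simp [k220]
  · by_contra hcon
    push Not at hcon
    simp only [Matrix.cons_val_one, Matrix.cons_val_zero, Matrix.cons_val, not_isUnit_iff_dvd]
      at hcon
    obtain ⟨hc0, hc1, hc2⟩ := hcon
    obtain ⟨x, hx⟩ := hf2 ![1, 0, 0]
    obtain ⟨y, hy⟩ := hf2 ![0, 1, 0]
    have hx0 := dvd_of_sq_dvd (hx 0)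
    have hx1 := dvd_of_sq_dvd (hx 1)
    have hy0 := dvd_of_sq_dvd (hy 0)
    have hy1 := dvd_of_sq_dvd (hy 1)
    simp only [Matrix.cons_val_one, Matrix.cons_val_zero, sub_zero] at hx0 hx1 hy0 hy1
    apply not_p_dvd_one (p := p)
    have key : f x 0 * f y 1 - f x 1 * f y 0 =
        (a 0 1 * a 1 2 - a 0 2 * a 1 1) * (x 1 * y 2 - x 2 * y 1) +
        (a 0 2 * a 1 0 - a 0 0 * a 1 2) * (x 2 * y 0 - x 0 * y 2) +
        (a 0 0 * a 1 1 - a 0 1 * a 1 0) * (x 0 * y 1 - x 1 * y 0) := by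
      rw [hfx, hfx, hfx, hfx]; ring
    have h1 : (p : ℤ_[p]) ∣ f x 0 * f y 1 - f x 1 * f y 0 := by
      rw [key]
      exact dvd_add (dvd_add (Dvd.dvd.mul_right hc0 _) (Dvd.dvd.mul_right hc1 _))
        (Dvd.dvd.mul_right hc2 _)
    have h2 : (p : ℤ_[p]) ∣ f x 0 * f y 1 := by
      have := dvd_add h1 (Dvd.dvd.mul_right hx1 (f y 0))
      simpa using this
    have h3 : (p : ℤ_[p]) ∣ f x 0 * f y 1 - 1 := by
      have : f x 0 * f y 1 - 1 = (f x 0 - 1) * f y 1 + (f y 1 - 1) := by ring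
      rw [this]
      exact dvd_add (Dvd.dvd.mul_right hx0 _) hy1
    have h4 := dvd_sub h2 h3
    simpa using h4

lemma exists_approx1 (ζ : ℤ_[p]) : ∃ z : Fin (p ^ 1), (p : ℤ_[p]) ∣ ζ - ((z : ℕ) : ℤ_[p]) := by
  obtain ⟨z, hz⟩ := exists_approx ζ 1
  exact ⟨z, by rw [pow_one] at hz; exact hz⟩

/-- coordinates `(x₁ - r x₀, x₂ - u x₀, x₀)` -/
def EP0 (r u : ℤ_[p]) : (Fin 3 → ℤ_[p]) ≃ₗ[ℤ_[p]] (Fin 3 → ℤ_[p]) where
  toFun x := ![x 1 - r * x 0, x 2 - u * x 0, x 0]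
  invFun y := ![y 2, y 0 + r * y 2, y 1 + u * y 2]
  map_add' x y := by ext i; fin_cases i <;> simp <;> ring
  map_smul' c x := by ext i; fin_cases i <;> simp <;> ring
  left_inv x := by ext i; fin_cases i <;> simp
  right_inv x := by ext i; fin_cases i <;> simp

/-- coordinates `(x₀ - r x₂, x₁ - u x₂, x₂)` -/
def EP2 (r u : ℤ_[p]) : (Fin 3 → ℤ_[p]) ≃ₗ[ℤ_[p]] (Fin 3 → ℤ_[p]) where
  toFun x := ![x 0 - r * x 2, x 1 - u * x 2, x 2]
  invFun y := ![y 0 + r * y 2, y 1 + u * y 2, y 2]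
  map_add' x y := by ext i; fin_cases i <;> simp <;> ring
  map_smul' c x := by ext i; fin_cases i <;> simp <;> ring
  left_inv x := by ext i; fin_cases i <;> simp
  right_inv x := by ext i; fin_cases i <;> simp

lemma mem_coordLat220 {E : (Fin 3 → ℤ_[p]) ≃ₗ[ℤ_[p]] (Fin 3 → ℤ_[p])} {x : Fin 3 → ℤ_[p]} :
    x ∈ coordLat E k220 ↔ (p : ℤ_[p]) ^ 2 ∣ E x 0 ∧ (p : ℤ_[p]) ^ 2 ∣ E x 1 := by
  rw [mem_coordLat, Fin.forall_fin_succ, Fin.forall_fin_succ, Fin.forall_fin_succ]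
  simp only [k220, Matrix.cons_val_zero, Matrix.cons_val_succ, pow_zero, one_dvd,
    IsEmpty.forall_iff, and_true]
  rfl

lemma sq_smul_mem {Λ : Submodule ℤ_[p] (Fin 3 → ℤ_[p])} (h : HasCotype p Λ k220)
    {x : Fin 3 → ℤ_[p]} (hx : ∀ i, (p : ℤ_[p]) ^ 2 ∣ x i) : x ∈ Λ := by
  choose y hy using hx
  have : x = (p : ℤ_[p]) ^ 2 • y := by ext i; rw [hy, Pi.smul_apply, smul_eq_mul]
  rw [this]
  refine ppow_smul_mem_of_hasCotype h (fun i => ?_) y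
  fin_cases i <;> simp [k220]

lemma mem_of_congr {Λ : Submodule ℤ_[p] (Fin 3 → ℤ_[p])} (h : HasCotype p Λ k220)
    {x y : Fin 3 → ℤ_[p]} (hx : x ∈ Λ) (hxy : ∀ i, (p : ℤ_[p]) ^ 2 ∣ y i - x i) : y ∈ Λ := by
  have := Λ.add_mem hx (sq_smul_mem h (x := y - x) hxy)
  simpa using this

lemma eq_coordLat {Λ : Submodule ℤ_[p] (Fin 3 → ℤ_[p])} (h : HasCotype p Λ k220)
    (E : (Fin 3 → ℤ_[p]) ≃ₗ[ℤ_[p]] (Fin 3 → ℤ_[p])) {w : Fin 3 → ℤ_[p]} (hw : w ∈ Λ)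
    (hE : ∀ x : Fin 3 → ℤ_[p], (p : ℤ_[p]) ^ 2 ∣ E x 0 → (p : ℤ_[p]) ^ 2 ∣ E x 1 →
      ∃ c : ℤ_[p], ∀ i, (p : ℤ_[p]) ^ 2 ∣ x i - c * w i) : coordLat E k220 = Λ := by
  refine eq_of_le_of_card ?_ (card_of_hasCotype h) (card_of_hasCotype
    (hasCotype_coordLat E antitone_k220)) (pow_ne_zero _ hp.1.ne_zero)
  intro x hx
  rw [mem_coordLat220] at hx
  obtain ⟨c, hc⟩ := hE x hx.1 hx.2
  exact mem_of_congr h (Λ.smul_mem c hw) hc

lemma exists_scaled {Λ : Submodule ℤ_[p] (Fin 3 → ℤ_[p])} {z : Fin 3 → ℤ_[p]} (hz : z ∈ Λ)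
    {i : Fin 3} (hi : IsUnit (z i)) : ∃ w ∈ Λ, w i = 1 ∧ ∀ j, (p : ℤ_[p]) ∣ z j → (p : ℤ_[p]) ∣ w j := by
  obtain ⟨v, hv⟩ := hi
  refine ⟨((v⁻¹ : ℤ_[p]ˣ) : ℤ_[p]) • z, Λ.smul_mem _ hz, ?_, ?_⟩
  · rw [Pi.smul_apply, smul_eq_mul, ← hv, Units.inv_mul]
  · intro j hj
    rw [Pi.smul_apply, smul_eq_mul]
    exact Dvd.dvd.mul_left hj _

lemma isUnit_one_add_sq {x : ℤ_[p]} (hx : (p : ℤ_[p]) ∣ x) : IsUnit (1 + x ^ 2) := by
  rw [isUnit_iff_not_dvd]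
  intro h
  apply not_p_dvd_one (p := p)
  have h1 : (p : ℤ_[p]) ∣ x ^ 2 := Dvd.dvd.pow hx two_ne_zero
  exact (dvd_add_left h1).mp h

/-- Every subalgebra of cotype `(2, 2, 0)` contains one of the standard vectors. -/
lemma exists_vecS {Λ : Submodule ℤ_[p] (Fin 3 → ℤ_[p])} (h : HasCotype p Λ k220)
    (hΛ : IsSubalg p cOne Λ) : ∃ s : PS p, vecS s ∈ Λ := by
  obtain ⟨z, hz, hzu⟩ := exists_primitive h
  by_cases h0 : IsUnit (z 0)
  · obtain ⟨w, hw, hw1, -⟩ := exists_scaled hz h0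
    have hΛE : coordLat (EP0 (w 1) (w 2)) k220 = Λ := by
      refine eq_coordLat h _ hw ?_
      intro x hx0 hx1
      refine ⟨x 0, fun i => ?_⟩
      have e0 : EP0 (w 1) (w 2) x 0 = x 1 - w 1 * x 0 := rfl
      have e1 : EP0 (w 1) (w 2) x 1 = x 2 - w 2 * x 0 := rfl
      rw [e0, mul_comm] at hx0
      rw [e1, mul_comm] at hx1
      fin_cases i
      · simp [hw1]
      · exact hx0
      · exact hx1
    have hc := hΛ w hw w hw
    rw [locMul_cOne, ← hΛE, mem_coordLat220] at hc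
    have e0 : EP0 (w 1) (w 2) ![0, w 0 * w 2, -(w 1 * w 0)] 0 = w 2 := by
      simp [EP0, hw1]
    have e1 : EP0 (w 1) (w 2) ![0, w 0 * w 2, -(w 1 * w 0)] 1 = - w 1 := by
      simp [EP0, hw1]
    rw [e0, e1, dvd_neg] at hc
    refine ⟨Sum.inl (), mem_of_congr h hw ?_⟩
    intro i
    fin_cases i
    · simp [vecS, hw1]
    · simpa [vecS] using hc.2
    · simpa [vecS] using hc.1
  rw [not_isUnit_iff_dvd] at h0
  by_cases h1 : IsUnit (z 1)
  · obtain ⟨w, hw, hw1, hwd⟩ := exists_scaled hz h1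
    have hw0 := hwd 0 h0
    obtain ⟨α₀, hα₀⟩ := hw0
    have hΛE : coordLat (E1 (w 0) (w 2)) k220 = Λ := by
      refine eq_coordLat h _ hw ?_
      intro x hx0 hx1
      refine ⟨x 1, fun i => ?_⟩
      have e0 : E1 (w 0) (w 2) x 0 = x 0 - w 0 * x 1 := rfl
      have e1 : E1 (w 0) (w 2) x 1 = x 2 - w 2 * x 1 := rfl
      rw [e0] at hx0
      rw [e1] at hx1
      fin_cases i
      · simpa [mul_comm] using hx0
      · simp [hw1]
      · simpa [mul_comm] using hx1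
    have hc := hΛ w hw w hw
    rw [locMul_cOne, ← hΛE, mem_coordLat220] at hc
    have e1 : E1 (w 0) (w 2) ![0, w 0 * w 2, -(w 1 * w 0)] 1 =
        -((p : ℤ_[p]) * (α₀ * (w 2 ^ 2 + 1))) := by
      simp only [E1, LinearEquiv.coe_mk, LinearMap.coe_mk, AddHom.coe_mk, Matrix.cons_val_one,
        Matrix.cons_val_zero, Matrix.cons_val, hw1]
      rw [hα₀]
      ring
    have hc2 := hc.2
    rw [e1, dvd_neg, sq_dvd_p_mul] at hc2
    obtain ⟨α, hα⟩ := exists_approx1 α₀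
    obtain ⟨u, hu⟩ := exists_approx (w 2) 2
    have hmain : p ∣ (α : ℕ) * ((u : ℕ) ^ 2 + 1) := by
      have h3 : (p : ℤ_[p]) ∣ ((α : ℕ) : ℤ_[p]) * (((u : ℕ) : ℤ_[p]) ^ 2 + 1) := by
        obtain ⟨r, hr⟩ := hc2
        obtain ⟨r1, hr1⟩ := hα
        obtain ⟨r2, hr2⟩ := dvd_of_sq_dvd hu
        have e3 : ((α : ℕ) : ℤ_[p]) = α₀ - p * r1 := by rw [← hr1]; ring
        have e4 : ((u : ℕ) : ℤ_[p]) = w 2 - p * r2 := by rw [← hr2]; ring
        refine ⟨r - r1 * ((w 2 - p * r2) ^ 2 + 1) - 2 * α₀ * w 2 * r2 + α₀ * p * r2 ^ 2, ?_⟩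
        rw [e3, e4]
        linear_combination hr
      have h4 : (p : ℤ_[p]) ^ 1 ∣ (((α : ℕ) * ((u : ℕ) ^ 2 + 1) : ℕ) : ℤ_[p]) := by
        rw [pow_one]; push_cast; exact h3
      have h5 : (p : ℤ_[p]) ^ 1 ∣ ((((α : ℕ) * ((u : ℕ) ^ 2 + 1) : ℕ) : ℤ) : ℤ_[p]) := by
        exact_mod_cast h4
      rw [PadicInt.pow_p_dvd_int_iff, pow_one] at h5
      exact_mod_cast h5
    have hcond : (α : ℕ) = 0 ∨ p ∣ (u : ℕ) ^ 2 + 1 := by
      rcases (Nat.Prime.dvd_mul hp.1).mp hmain with h3 | h3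
      · left
        exact Nat.eq_zero_of_dvd_of_lt h3 (lt_of_lt_of_eq α.2 (pow_one p))
      · right; exact h3
    refine ⟨Sum.inr (Sum.inl ⟨(α, u), hcond⟩), mem_of_congr h hw ?_⟩
    intro i
    fin_cases i
    · simp only [vecS, Fin.zero_eta, Matrix.cons_val_zero, hα₀]
      rw [← mul_sub, sq_dvd_p_mul, ← dvd_neg, neg_sub]
      exact hα
    · simp [vecS, hw1]
    · simp only [vecS, Fin.reduceFinMk, Matrix.cons_val]
      rw [← dvd_neg, neg_sub]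
      exact hu
  rw [not_isUnit_iff_dvd] at h1
  have h2 : IsUnit (z 2) := by
    rcases hzu with h3 | h3 | h3
    · exact absurd h0 ((isUnit_iff_not_dvd _).mp h3)
    · exact absurd h1 ((isUnit_iff_not_dvd _).mp h3)
    · exact h3
  obtain ⟨w, hw, hw1, hwd⟩ := exists_scaled hz h2
  have hΛE : coordLat (EP2 (w 0) (w 1)) k220 = Λ := by
    refine eq_coordLat h _ hw ?_
    intro x hx0 hx1
    refine ⟨x 2, fun i => ?_⟩
    have e0 : EP2 (w 0) (w 1) x 0 = x 0 - w 0 * x 2 := rfl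
    have e1 : EP2 (w 0) (w 1) x 1 = x 1 - w 1 * x 2 := rfl
    rw [e0] at hx0
    rw [e1] at hx1
    fin_cases i
    · simpa [mul_comm] using hx0
    · simpa [mul_comm] using hx1
    · simp [hw1]
  have hc := hΛ w hw w hw
  rw [locMul_cOne, ← hΛE, mem_coordLat220] at hc
  have e1 : EP2 (w 0) (w 1) ![0, w 0 * w 2, -(w 1 * w 0)] 1 = (1 + w 1 ^ 2) * w 0 := by
    simp only [EP2, LinearEquiv.coe_mk, LinearMap.coe_mk, AddHom.coe_mk, Matrix.cons_val_one,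
      Matrix.cons_val_zero, Matrix.cons_val, hw1]
    ring
  have hc2 := hc.2
  rw [e1, IsUnit.dvd_mul_left (isUnit_one_add_sq (hwd 1 h1))] at hc2
  obtain ⟨β₀, hβ₀⟩ := hwd 1 h1
  obtain ⟨β, hβ⟩ := exists_approx1 β₀
  refine ⟨Sum.inr (Sum.inr β), mem_of_congr h hw ?_⟩
  intro i
  fin_cases i
  · simpa [vecS] using hc2
  · simp only [vecS, Fin.mk_one, Matrix.cons_val_one, Matrix.cons_val_zero, hβ₀]
    rw [← mul_sub, sq_dvd_p_mul, ← dvd_neg, neg_sub]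
    exact hβ
  · simp [vecS, hw1]

lemma LamS_le {Λ : Submodule ℤ_[p] (Fin 3 → ℤ_[p])} (h : HasCotype p Λ k220) {s : PS p}
    (hs : vecS s ∈ Λ) : LamS s = Λ := by
  refine eq_coordLat h _ hs ?_
  rcases s with t | t | b
  · intro x hx0 hx1
    refine ⟨x 0, fun i => ?_⟩
    have e0 : ES (Sum.inl t : PS p) x 0 = x 1 := rfl
    have e1 : ES (Sum.inl t : PS p) x 1 = x 2 := rfl
    rw [e0] at hx0
    rw [e1] at hx1
    fin_cases i
    · simp [vecS]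
    · simpa [vecS] using hx0
    · simpa [vecS] using hx1
  · intro x hx0 hx1
    refine ⟨x 1, fun i => ?_⟩
    have e0 : ES (Sum.inr (Sum.inl t) : PS p) x 0 =
      x 0 - (p : ℤ_[p]) * ((t.1.1 : ℕ) : ℤ_[p]) * x 1 := rfl
    have e1 : ES (Sum.inr (Sum.inl t) : PS p) x 1 = x 2 - ((t.1.2 : ℕ) : ℤ_[p]) * x 1 := rfl
    rw [e0] at hx0
    rw [e1] at hx1
    fin_cases i
    · simpa [vecS, mul_comm] using hx0
    · simp [vecS]
    · simpa [vecS, mul_comm] using hx1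
  · intro x hx0 hx1
    refine ⟨x 2, fun i => ?_⟩
    have e0 : ES (Sum.inr (Sum.inr b) : PS p) x 0 = x 0 := rfl
    have e1 : ES (Sum.inr (Sum.inr b) : PS p) x 1 =
      x 1 - (p : ℤ_[p]) * ((b : ℕ) : ℤ_[p]) * x 2 := rfl
    rw [e0] at hx0
    rw [e1] at hx1
    fin_cases i
    · simpa [vecS] using hx0
    · simpa [vecS, mul_comm] using hx1
    · simp [vecS]

/-- The number of subalgebras of cotype `(2, 2, 0)`. -/
theorem ncard_k220 :
    {Λ | IsSubalg p cOne Λ ∧ HasCotype p Λ k220}.ncard =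
      1 + (Fintype.card {x : Fin (p ^ 1) × Fin (p ^ 2) // (x.1 : ℕ) = 0 ∨ p ∣ (x.2 : ℕ) ^ 2 + 1} +
        p) := by
  have e : PS p ≃ ({Λ | IsSubalg p cOne Λ ∧ HasCotype p Λ k220} : Set _) := by
    refine Equiv.ofBijective (fun s => ⟨LamS s, isSubalg_LamS s, hasCotype_LamS s⟩) ⟨?_, ?_⟩
    · intro s s' h
      exact LamS_injective (Subtype.ext_iff.mp h)
    · rintro ⟨Λ, h1, h2⟩
      obtain ⟨s, hs⟩ := exists_vecS h2 h1
      exact ⟨s, Subtype.ext (LamS_le h2 hs)⟩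
  rw [← Nat.card_coe_set_eq, ← Nat.card_congr e, Nat.card_eq_fintype_card, Fintype.card_sum,
    Fintype.card_sum, Fintype.card_unit, Fintype.card_fin, pow_one]

end Pool.Agent.MP_f418a9_al
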