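import Mathlib
import Pool.Agent.Work.MP_f418a9_al.Plane

/-!
# Submodules of finite index of `ℤ_p² × ℤ_p`
-/

open scoped BigOperators

noncomputable section

namespace Pool.Agent.MP_f418a9_al

variable {p : ℕ} [hp : Fact p.Prime]

/-- The submodule `{(u, s) : u ∈ N, s ≡ g(u) mod p^c}` where `N = {u : e u ∈ p^i × p^j}` and `g` is
the functional sending `u` to `γ₁ t₁ + γ₂ t₂` if `e u = (p^i t₁, p^j t₂)`. -/
def grMod (e : (ℤ_[p] × ℤ_[p]) ≃ₗ[ℤ_[p]] (ℤ_[p] × ℤ_[p])) (i j c : ℕ) (γ : ℤ_[p] × ℤ_[p]) :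
    Submodule ℤ_[p] ((ℤ_[p] × ℤ_[p]) × ℤ_[p]) where
  carrier := {z | ∃ t : ℤ_[p] × ℤ_[p], e z.1 = ((p : ℤ_[p]) ^ i * t.1, (p : ℤ_[p]) ^ j * t.2) ∧
    (p : ℤ_[p]) ^ c ∣ z.2 - (γ.1 * t.1 + γ.2 * t.2)}
  add_mem' := by
    rintro z w ⟨t, h1, h2⟩ ⟨t', h3, h4⟩
    refine ⟨t + t', ?_, ?_⟩
    · rw [Prod.fst_add, map_add, h1, h3]
      simp only [Prod.mk_add_mk, Prod.fst_add, Prod.snd_add]
      rw [mul_add, mul_add]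
    · have : (z + w).2 - (γ.1 * (t + t').1 + γ.2 * (t + t').2) =
        (z.2 - (γ.1 * t.1 + γ.2 * t.2)) + (w.2 - (γ.1 * t'.1 + γ.2 * t'.2)) := by
        simp only [Prod.snd_add, Prod.fst_add]; ring
      rw [this]
      exact dvd_add h2 h4
  zero_mem' := ⟨0, by simp [Prod.mk_zero_zero], by simp⟩
  smul_mem' := by
    rintro r z ⟨t, h1, h2⟩
    refine ⟨r • t, ?_, ?_⟩
    · rw [Prod.smul_fst, map_smul, h1]
      simp only [Prod.smul_mk, Prod.smul_fst, Prod.smul_snd, smul_eq_mul]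
      refine Prod.ext ?_ ?_ <;> simp only <;> ring
    · have : (r • z).2 - (γ.1 * (r • t).1 + γ.2 * (r • t).2) =
        r * (z.2 - (γ.1 * t.1 + γ.2 * t.2)) := by
        simp only [Prod.smul_snd, Prod.smul_fst, smul_eq_mul]; ring
      rw [this]
      exact Dvd.dvd.mul_left h2 r

lemma mem_grMod {e : (ℤ_[p] × ℤ_[p]) ≃ₗ[ℤ_[p]] (ℤ_[p] × ℤ_[p])} {i j c : ℕ}
    {γ : ℤ_[p] × ℤ_[p]} {z : (ℤ_[p] × ℤ_[p]) × ℤ_[p]} :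
    z ∈ grMod e i j c γ ↔
      ∃ t : ℤ_[p] × ℤ_[p], e z.1 = ((p : ℤ_[p]) ^ i * t.1, (p : ℤ_[p]) ^ j * t.2) ∧
        (p : ℤ_[p]) ^ c ∣ z.2 - (γ.1 * t.1 + γ.2 * t.2) := Iff.rfl

/-- Membership of a vector with known coordinates. -/
lemma mem_grMod_of {e : (ℤ_[p] × ℤ_[p]) ≃ₗ[ℤ_[p]] (ℤ_[p] × ℤ_[p])} {i j c : ℕ}
    {γ : ℤ_[p] × ℤ_[p]} {u : ℤ_[p] × ℤ_[p]} {s : ℤ_[p]} {t : ℤ_[p] × ℤ_[p]}
    (h : e u = ((p : ℤ_[p]) ^ i * t.1, (p : ℤ_[p]) ^ j * t.2)) :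
    (u, s) ∈ grMod e i j c γ ↔ (p : ℤ_[p]) ^ c ∣ s - (γ.1 * t.1 + γ.2 * t.2) := by
  rw [mem_grMod]
  constructor
  · rintro ⟨t', h1, h2⟩
    simp only at h1 h2
    rw [h] at h1
    have e1 : t.1 = t'.1 := mul_left_cancel₀ (ppow_ne_zero i) (congrArg Prod.fst h1)
    have e2 : t.2 = t'.2 := mul_left_cancel₀ (ppow_ne_zero j) (congrArg Prod.snd h1)
    rw [e1, e2]; exact h2
  · intro h2
    exact ⟨t, h, h2⟩

lemma zero_mem_grMod {e : (ℤ_[p] × ℤ_[p]) ≃ₗ[ℤ_[p]] (ℤ_[p] × ℤ_[p])} {i j c : ℕ}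
    {γ : ℤ_[p] × ℤ_[p]} {s : ℤ_[p]} :
    ((0 : ℤ_[p] × ℤ_[p]), s) ∈ grMod e i j c γ ↔ (p : ℤ_[p]) ^ c ∣ s := by
  rw [mem_grMod_of (t := 0) (by simp [Prod.mk_zero_zero])]
  simp

lemma fst_mem_of_mem_grMod {e : (ℤ_[p] × ℤ_[p]) ≃ₗ[ℤ_[p]] (ℤ_[p] × ℤ_[p])} {i j c : ℕ}
    {γ : ℤ_[p] × ℤ_[p]} {z : (ℤ_[p] × ℤ_[p]) × ℤ_[p]} (h : z ∈ grMod e i j c γ) :
    z.1 ∈ diagLat e i j := by
  obtain ⟨t, h1, -⟩ := h
  rw [mem_diagLat, h1]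
  exact ⟨⟨_, rfl⟩, ⟨_, rfl⟩⟩

lemma exists_mem_grMod {e : (ℤ_[p] × ℤ_[p]) ≃ₗ[ℤ_[p]] (ℤ_[p] × ℤ_[p])} {i j : ℕ} (c : ℕ)
    (γ : ℤ_[p] × ℤ_[p]) {u : ℤ_[p] × ℤ_[p]} (h : u ∈ diagLat e i j) :
    ∃ s, (u, s) ∈ grMod e i j c γ := by
  rw [mem_diagLat] at h
  obtain ⟨⟨t1, h1⟩, ⟨t2, h2⟩⟩ := h
  exact ⟨γ.1 * t1 + γ.2 * t2, (t1, t2), Prod.ext h1 h2, by simp⟩

lemma grMod_fst_eq {e : (ℤ_[p] × ℤ_[p]) ≃ₗ[ℤ_[p]] (ℤ_[p] × ℤ_[p])} {i j c : ℕ}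
    {γ : ℤ_[p] × ℤ_[p]} :
    (grMod e i j c γ).map (LinearMap.fst ℤ_[p] (ℤ_[p] × ℤ_[p]) ℤ_[p]) = diagLat e i j := by
  ext u
  rw [Submodule.mem_map]
  constructor
  · rintro ⟨z, hz, rfl⟩
    exact fst_mem_of_mem_grMod hz
  · intro hu
    obtain ⟨s, hs⟩ := exists_mem_grMod c γ hu
    exact ⟨_, hs, rfl⟩

/-- The index of `grMod`. -/
theorem card_quot_grMod (e : (ℤ_[p] × ℤ_[p]) ≃ₗ[ℤ_[p]] (ℤ_[p] × ℤ_[p])) (i j c : ℕ)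
    (γ : ℤ_[p] × ℤ_[p]) :
    Nat.card (((ℤ_[p] × ℤ_[p]) × ℤ_[p]) ⧸ grMod e i j c γ) = p ^ (i + j + c) := by
  let g : ((ℤ_[p] × ℤ_[p]) × ℤ_[p]) →ₗ[ℤ_[p]] ((ℤ_[p] × ℤ_[p]) ⧸ diagLat e i j) :=
    (diagLat e i j).mkQ ∘ₗ LinearMap.fst ℤ_[p] (ℤ_[p] × ℤ_[p]) ℤ_[p]
  have hg : Function.Surjective g :=
    (Submodule.mkQ_surjective _).comp LinearMap.fst_surjective
  have hker : ∀ z, z ∈ LinearMap.ker g ↔ z.1 ∈ diagLat e i j := by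
    intro z
    rw [LinearMap.mem_ker]
    simp only [g, LinearMap.comp_apply, LinearMap.fst_apply, Submodule.mkQ_apply]
    rw [Submodule.Quotient.mk_eq_zero]
  have hle : grMod e i j c γ ≤ LinearMap.ker g := fun z hz =>
    (hker z).mpr (fst_mem_of_mem_grMod hz)
  rw [← Submodule.card_quotient_mul_card_quotient (LinearMap.ker g) (grMod e i j c γ) hle,
    card_quot_of_surj g hg rfl, card_quot_diagLat, pow_add _ (i + j), mul_comm (p ^ (i + j))]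
  congr 1
  let α : ℤ_[p] →ₗ[ℤ_[p]] (((ℤ_[p] × ℤ_[p]) × ℤ_[p]) ⧸ grMod e i j c γ) :=
    (grMod e i j c γ).mkQ ∘ₗ LinearMap.inr ℤ_[p] (ℤ_[p] × ℤ_[p]) ℤ_[p]
  have hα : LinearMap.ker α = Ideal.span {(p : ℤ_[p]) ^ c} := by
    ext u
    rw [LinearMap.mem_ker]
    simp only [α, LinearMap.comp_apply, LinearMap.inr_apply, Submodule.mkQ_apply]
    rw [Submodule.Quotient.mk_eq_zero, zero_mem_grMod, Ideal.mem_span_singleton]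
  have hr : LinearMap.range α = (LinearMap.ker g).map (grMod e i j c γ).mkQ := by
    ext q
    rw [LinearMap.mem_range, Submodule.mem_map]
    constructor
    · rintro ⟨u, rfl⟩
      refine ⟨(0, u), ?_, rfl⟩
      rw [LinearMap.mem_ker]
      simp [g]
    · rintro ⟨z, hz, rfl⟩
      rw [hker] at hz
      obtain ⟨s, hs⟩ := exists_mem_grMod c γ hz
      refine ⟨z.2 - s, ?_⟩
      simp only [α, LinearMap.comp_apply, LinearMap.inr_apply, Submodule.mkQ_apply]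
      rw [Submodule.Quotient.eq]
      have : ((0 : ℤ_[p] × ℤ_[p]), z.2 - s) - z = -(z.1, s) := by
        refine Prod.ext ?_ ?_ <;> simp
      rw [this]
      exact (grMod e i j c γ).neg_mem hs
  rw [← hr, ← Nat.card_congr α.quotKerEquivRange.toEquiv, hα, card_quot_ppow]

/-- Every submodule of finite index of `ℤ_p² × ℤ_p` is a `grMod` over some `lat b s`. -/
theorem exists_grMod (J : Submodule ℤ_[p] ((ℤ_[p] × ℤ_[p]) × ℤ_[p]))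
    [hfin : Finite (((ℤ_[p] × ℤ_[p]) × ℤ_[p]) ⧸ J)] :
    ∃ (b m : ℕ) (s : Pt p m) (c : ℕ) (γ : Fin (p ^ c) × Fin (p ^ c)),
      J = grMod (planeE s) b (b + m) c (((γ.1 : ℕ) : ℤ_[p]), ((γ.2 : ℕ) : ℤ_[p])) := by
  set N := J.map (LinearMap.fst ℤ_[p] (ℤ_[p] × ℤ_[p]) ℤ_[p]) with hN
  have hfN : Finite ((ℤ_[p] × ℤ_[p]) ⧸ N) := by
    let f : (((ℤ_[p] × ℤ_[p]) × ℤ_[p]) ⧸ J) →ₗ[ℤ_[p]] ((ℤ_[p] × ℤ_[p]) ⧸ N) :=
      Submodule.mapQ J N (LinearMap.fst ℤ_[p] (ℤ_[p] × ℤ_[p]) ℤ_[p])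
        (Submodule.map_le_iff_le_comap.mp le_rfl)
    refine Finite.of_surjective f ?_
    intro q
    obtain ⟨u, rfl⟩ := Submodule.mkQ_surjective N q
    exact ⟨J.mkQ (u, 0), rfl⟩
  obtain ⟨b, m, s, hs⟩ := exists_lat N
  let I : Ideal ℤ_[p] := J.comap (LinearMap.inr ℤ_[p] (ℤ_[p] × ℤ_[p]) ℤ_[p])
  obtain ⟨k, hk⟩ := exists_ppow_smul_mem J
  have hI : I ≠ ⊥ := by
    intro h0
    have h1 : (p : ℤ_[p]) ^ k ∈ I := by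
      change LinearMap.inr ℤ_[p] (ℤ_[p] × ℤ_[p]) ℤ_[p] ((p : ℤ_[p]) ^ k) ∈ J
      have := hk (0, 1)
      simpa using this
    rw [h0] at h1
    exact ppow_ne_zero k h1
  obtain ⟨c, hc⟩ := PadicInt.ideal_eq_span_pow_p hI
  have hImem : ∀ r : ℤ_[p], ((0 : ℤ_[p] × ℤ_[p]), r) ∈ J ↔ (p : ℤ_[p]) ^ c ∣ r := by
    intro r
    rw [← Ideal.mem_span_singleton, ← hc]
    rfl
  have hNmem : ∀ u, u ∈ N ↔ ∃ r, (u, r) ∈ J := by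
    intro u
    rw [hN, Submodule.mem_map]
    constructor
    · rintro ⟨z, hz, rfl⟩; exact ⟨z.2, hz⟩
    · rintro ⟨r, hr⟩; exact ⟨_, hr, rfl⟩
  have h1 : (planeE s).symm ((p : ℤ_[p]) ^ b, 0) ∈ N := by
    rw [hs, lat, mem_diagLat]; simp
  have h2 : (planeE s).symm (0, (p : ℤ_[p]) ^ (b + m)) ∈ N := by
    rw [hs, lat, mem_diagLat]; simp
  rw [hNmem] at h1 h2
  obtain ⟨r1, hr1⟩ := h1
  obtain ⟨r2, hr2⟩ := h2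
  obtain ⟨γ1, hγ1⟩ := exists_approx r1 c
  obtain ⟨γ2, hγ2⟩ := exists_approx r2 c
  refine ⟨b, m, s, c, (γ1, γ2), ?_⟩
  have key : ∀ (u : ℤ_[p] × ℤ_[p]) (r : ℤ_[p]) (t : ℤ_[p] × ℤ_[p]),
      planeE s u = ((p : ℤ_[p]) ^ b * t.1, (p : ℤ_[p]) ^ (b + m) * t.2) →
      ((u, r) ∈ J ↔ (p : ℤ_[p]) ^ c ∣ r - (((γ1 : ℕ) : ℤ_[p]) * t.1 + ((γ2 : ℕ) : ℤ_[p]) * t.2)) := by
    intro u r t ht
    have hu : u = t.1 • (planeE s).symm ((p : ℤ_[p]) ^ b, 0) +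
        t.2 • (planeE s).symm (0, (p : ℤ_[p]) ^ (b + m)) := by
      rw [← map_smul, ← map_smul, ← map_add, LinearEquiv.eq_symm_apply, ht]
      refine Prod.ext ?_ ?_ <;> simp <;> ring
    have h3 : (u, t.1 * r1 + t.2 * r2) ∈ J := by
      have := J.add_mem (J.smul_mem t.1 hr1) (J.smul_mem t.2 hr2)
      convert this using 1
      refine Prod.ext ?_ ?_
      · simp [hu]
      · simp
    have h4 : (u, r) ∈ J ↔ ((0 : ℤ_[p] × ℤ_[p]), r - (t.1 * r1 + t.2 * r2)) ∈ J := by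
      constructor
      · intro h
        have := J.sub_mem h h3
        simpa using this
      · intro h
        have := J.add_mem h h3
        simpa using this
    rw [h4, hImem]
    have h5 : (p : ℤ_[p]) ^ c ∣ (t.1 * r1 + t.2 * r2) -
        (((γ1 : ℕ) : ℤ_[p]) * t.1 + ((γ2 : ℕ) : ℤ_[p]) * t.2) := by
      have e1 : (t.1 * r1 + t.2 * r2) - (((γ1 : ℕ) : ℤ_[p]) * t.1 + ((γ2 : ℕ) : ℤ_[p]) * t.2) =
        t.1 * (r1 - ((γ1 : ℕ) : ℤ_[p])) + t.2 * (r2 - ((γ2 : ℕ) : ℤ_[p])) := by ring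
      rw [e1]
      exact dvd_add (Dvd.dvd.mul_left hγ1 _) (Dvd.dvd.mul_left hγ2 _)
    have e2 : r - (((γ1 : ℕ) : ℤ_[p]) * t.1 + ((γ2 : ℕ) : ℤ_[p]) * t.2) =
      (r - (t.1 * r1 + t.2 * r2)) + ((t.1 * r1 + t.2 * r2) -
        (((γ1 : ℕ) : ℤ_[p]) * t.1 + ((γ2 : ℕ) : ℤ_[p]) * t.2)) := by ring
    rw [e2]
    exact (dvd_add_left h5).symm
  ext ⟨u, r⟩
  by_cases hu : u ∈ N
  · have hu' := hu
    rw [hs, lat, mem_diagLat] at hu'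
    obtain ⟨⟨t1, ht1⟩, ⟨t2, ht2⟩⟩ := hu'
    have ht : planeE s u = ((p : ℤ_[p]) ^ b * (t1, t2).1, (p : ℤ_[p]) ^ (b + m) * (t1, t2).2) :=
      Prod.ext ht1 ht2
    rw [key u r (t1, t2) ht, mem_grMod_of ht]
  · constructor
    · intro h
      exact absurd ((hNmem u).mpr ⟨r, h⟩) hu
    · intro h
      have := fst_mem_of_mem_grMod h
      rw [hs] at hu
      exact absurd this hu

/-- Uniqueness of the parameters. -/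
theorem grMod_inj {b b' m m' c c' : ℕ} {s : Pt p m} {s' : Pt p m'}
    {γ : Fin (p ^ c) × Fin (p ^ c)} {γ' : Fin (p ^ c') × Fin (p ^ c')}
    (h : grMod (planeE s) b (b + m) c (((γ.1 : ℕ) : ℤ_[p]), ((γ.2 : ℕ) : ℤ_[p])) =
      grMod (planeE s') b' (b' + m') c' (((γ'.1 : ℕ) : ℤ_[p]), ((γ'.2 : ℕ) : ℤ_[p]))) :
    (⟨b, m, s⟩ : Σ (_ : ℕ) (m : ℕ), Pt p m) = ⟨b', m', s'⟩ ∧
      (⟨c, γ⟩ : Σ c : ℕ, Fin (p ^ c) × Fin (p ^ c)) = ⟨c', γ'⟩ := by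
  have h1 : (⟨b, m, s⟩ : Σ (_ : ℕ) (m : ℕ), Pt p m) = ⟨b', m', s'⟩ := by
    apply lat_inj
    have := congrArg (Submodule.map (LinearMap.fst ℤ_[p] (ℤ_[p] × ℤ_[p]) ℤ_[p])) h
    rw [grMod_fst_eq, grMod_fst_eq] at this
    exact this
  refine ⟨h1, ?_⟩
  rw [Sigma.mk.inj_iff] at h1
  obtain ⟨rfl, h1⟩ := h1
  have h2 := eq_of_heq h1
  rw [Sigma.mk.inj_iff] at h2
  obtain ⟨rfl, h2⟩ := h2
  have h3 := eq_of_heq h2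
  subst h3
  have hc : c = c' := by
    apply le_antisymm
    · have h4 : ((0 : ℤ_[p] × ℤ_[p]), (p : ℤ_[p]) ^ c') ∈
        grMod (planeE s) b (b + m) c (((γ.1 : ℕ) : ℤ_[p]), ((γ.2 : ℕ) : ℤ_[p])) := by
        rw [h, zero_mem_grMod]
      rw [zero_mem_grMod, ppow_dvd_ppow] at h4
      exact h4
    · have h4 : ((0 : ℤ_[p] × ℤ_[p]), (p : ℤ_[p]) ^ c) ∈
        grMod (planeE s) b (b + m) c' (((γ'.1 : ℕ) : ℤ_[p]), ((γ'.2 : ℕ) : ℤ_[p])) := by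
        rw [← h, zero_mem_grMod]
      rw [zero_mem_grMod, ppow_dvd_ppow] at h4
      exact h4
  subst hc
  have key : ∀ t : ℤ_[p] × ℤ_[p], (p : ℤ_[p]) ^ c ∣
      (((γ.1 : ℕ) : ℤ_[p]) * t.1 + ((γ.2 : ℕ) : ℤ_[p]) * t.2) -
      (((γ'.1 : ℕ) : ℤ_[p]) * t.1 + ((γ'.2 : ℕ) : ℤ_[p]) * t.2) := by
    intro t
    have ht : planeE s ((planeE s).symm ((p : ℤ_[p]) ^ b * t.1, (p : ℤ_[p]) ^ (b + m) * t.2)) =
      ((p : ℤ_[p]) ^ b * t.1, (p : ℤ_[p]) ^ (b + m) * t.2) := by simp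
    have h4 : ((planeE s).symm ((p : ℤ_[p]) ^ b * t.1, (p : ℤ_[p]) ^ (b + m) * t.2),
        ((γ.1 : ℕ) : ℤ_[p]) * t.1 + ((γ.2 : ℕ) : ℤ_[p]) * t.2) ∈
        grMod (planeE s) b (b + m) c (((γ.1 : ℕ) : ℤ_[p]), ((γ.2 : ℕ) : ℤ_[p])) := by
      rw [mem_grMod_of ht]; simp
    rw [h, mem_grMod_of ht] at h4
    exact h4
  have k1 := key (1, 0)
  have k2 := key (0, 1)
  simp only [mul_one, mul_zero, add_zero, zero_add] at k1 k2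
  have e1 := approx_unique γ.1.2 γ'.1.2 k1
  have e2 := approx_unique γ.2.2 γ'.2.2 k2
  have : γ = γ' := Prod.ext (Fin.ext e1) (Fin.ext e2)
  rw [this]

end Pool.Agent.MP_f418a9_al
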