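import Mathlib
import Pool.Agent.Work.MP_f418a9_al.GrMod
import Pool.Agent.Work.MP_f418a9_al.GenOne

/-!
# Counting the ideals of index `p^n` of the ring `R = ℤ[x, y] / (x y, x² - y²)`
-/

open scoped BigOperators

noncomputable section

namespace Pool.Agent.MP_f418a9_al

/-- `R(ℤ_p) = ℤ_p 1 ⊕ (ℤ_p x ⊕ ℤ_p y) ⊕ ℤ_p σ`, `σ = x² = y²`. -/
abbrev R4 (p : ℕ) [Fact p.Prime] : Type := ℤ_[p] × ((ℤ_[p] × ℤ_[p]) × ℤ_[p])

variable {p : ℕ} [hp : Fact p.Prime]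

/-- The product of `R(ℤ_p)`. -/
def prodR (r s : R4 p) : R4 p :=
  (r.1 * s.1, ((r.1 * s.2.1.1 + r.2.1.1 * s.1, r.1 * s.2.1.2 + r.2.1.2 * s.1),
    r.1 * s.2.2 + r.2.2 * s.1 + r.2.1.1 * s.2.1.1 + r.2.1.2 * s.2.1.2))

/-- Ideals of `R(ℤ_p)`. -/
def IdealR (I : Submodule ℤ_[p] (R4 p)) : Prop := ∀ r ∈ I, ∀ s, prodR r s ∈ I

/-- The lattice `p^c V ⊕ ℤ_p σ`. -/
def KK (p : ℕ) [Fact p.Prime] (c : ℕ) : Submodule ℤ_[p] ((ℤ_[p] × ℤ_[p]) × ℤ_[p]) where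
  carrier := {z | (p : ℤ_[p]) ^ c ∣ z.1.1 ∧ (p : ℤ_[p]) ^ c ∣ z.1.2}
  add_mem' := fun h1 h2 => ⟨dvd_add h1.1 h2.1, dvd_add h1.2 h2.2⟩
  zero_mem' := ⟨dvd_zero _, dvd_zero _⟩
  smul_mem' := fun r _ h => ⟨Dvd.dvd.mul_left h.1 r, Dvd.dvd.mul_left h.2 r⟩

lemma mem_KK {c : ℕ} {z : (ℤ_[p] × ℤ_[p]) × ℤ_[p]} :
    z ∈ KK p c ↔ (p : ℤ_[p]) ^ c ∣ z.1.1 ∧ (p : ℤ_[p]) ^ c ∣ z.1.2 := Iff.rfl

theorem card_quot_KK (c : ℕ) :
    Nat.card (((ℤ_[p] × ℤ_[p]) × ℤ_[p]) ⧸ KK p c) = p ^ (2 * c) := by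
  let g : ((ℤ_[p] × ℤ_[p]) × ℤ_[p]) →ₗ[ℤ_[p]]
      ((ℤ_[p] × ℤ_[p]) ⧸ diagLat (LinearEquiv.refl ℤ_[p] (ℤ_[p] × ℤ_[p])) c c) :=
    (diagLat (LinearEquiv.refl ℤ_[p] (ℤ_[p] × ℤ_[p])) c c).mkQ ∘ₗ
      LinearMap.fst ℤ_[p] (ℤ_[p] × ℤ_[p]) ℤ_[p]
  have hg : Function.Surjective g :=
    (Submodule.mkQ_surjective _).comp LinearMap.fst_surjective
  rw [card_quot_of_surj g hg (K := KK p c), card_quot_diagLat, two_mul]
  ext z
  rw [LinearMap.mem_ker]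
  simp only [g, LinearMap.comp_apply, LinearMap.fst_apply, Submodule.mkQ_apply]
  rw [Submodule.Quotient.mk_eq_zero, mem_diagLat, mem_KK]
  rfl

/-- The vector `y₀` with `⟨y₀, v⟩ = α (e v)₁ + β (e v)₂`. -/
def dualVec (e : (ℤ_[p] × ℤ_[p]) ≃ₗ[ℤ_[p]] (ℤ_[p] × ℤ_[p])) (α β : ℤ_[p]) : ℤ_[p] × ℤ_[p] :=
  (α * (e (1, 0)).1 + β * (e (1, 0)).2, α * (e (0, 1)).1 + β * (e (0, 1)).2)

lemma dualVec_spec (e : (ℤ_[p] × ℤ_[p]) ≃ₗ[ℤ_[p]] (ℤ_[p] × ℤ_[p])) (α β : ℤ_[p])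
    (v : ℤ_[p] × ℤ_[p]) :
    (dualVec e α β).1 * v.1 + (dualVec e α β).2 * v.2 = α * (e v).1 + β * (e v).2 := by
  have hv : v = v.1 • ((1 : ℤ_[p]), (0 : ℤ_[p])) + v.2 • ((0 : ℤ_[p]), (1 : ℤ_[p])) := by
    refine Prod.ext ?_ ?_ <;> simp
  have h1 : e v = v.1 • e (1, 0) + v.2 • e (0, 1) := by
    conv_lhs => rw [hv]
    rw [map_add, map_smul, map_smul]
  rw [h1]
  simp only [dualVec, Prod.fst_add, Prod.snd_add, Prod.smul_fst, Prod.smul_snd, smul_eq_mul]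
  ring

/-- The ideals among the modules `extMod a J x`, in general position. -/
theorem idealR_extMod {a : ℕ} {J : Submodule ℤ_[p] ((ℤ_[p] × ℤ_[p]) × ℤ_[p])}
    {x : (ℤ_[p] × ℤ_[p]) × ℤ_[p]} :
    IdealR (extMod a J x) ↔
      (∀ j ∈ J, ∀ v : ℤ_[p] × ℤ_[p], ((0 : ℤ_[p] × ℤ_[p]), j.1.1 * v.1 + j.1.2 * v.2) ∈ J) ∧
      (∀ v : ℤ_[p] × ℤ_[p], ((p : ℤ_[p]) ^ a • v, x.1.1 * v.1 + x.1.2 * v.2) ∈ J) ∧
      (∀ t : ℤ_[p], ((0 : ℤ_[p] × ℤ_[p]), (p : ℤ_[p]) ^ a * t) ∈ J) := by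
  constructor
  · intro h
    refine ⟨?_, ?_, ?_⟩
    · intro j hj v
      have := h _ (zero_mem_extMod.mpr hj) (0, (v, 0))
      have e1 : prodR ((0 : ℤ_[p]), j) (0, (v, 0)) = (0, ((0, 0), j.1.1 * v.1 + j.1.2 * v.2)) := by
        simp [prodR]
      rw [e1, zero_mem_extMod] at this
      exact this
    · intro v
      have := h _ (self_mem_extMod (a := a) (M := J) (x := x)) (0, (v, 0))
      have e1 : prodR ((p : ℤ_[p]) ^ a, x) (0, (v, 0)) =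
          (0, ((p : ℤ_[p]) ^ a • v, x.1.1 * v.1 + x.1.2 * v.2)) := by
        refine Prod.ext ?_ (Prod.ext (Prod.ext ?_ ?_) ?_) <;> simp [prodR]
      rw [e1, zero_mem_extMod] at this
      exact this
    · intro t
      have := h _ (self_mem_extMod (a := a) (M := J) (x := x)) (0, (0, t))
      have e1 : prodR ((p : ℤ_[p]) ^ a, x) (0, (0, t)) =
          (0, ((0 : ℤ_[p] × ℤ_[p]), (p : ℤ_[p]) ^ a * t)) := by
        refine Prod.ext ?_ (Prod.ext (Prod.ext ?_ ?_) ?_) <;> simp [prodR]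
      rw [e1, zero_mem_extMod] at this
      exact this
  · rintro ⟨h1, h2, h3⟩ z ⟨r, hr1, hr2⟩ w
    have e1 : prodR z w = w.1 • z + (0, r • ((p : ℤ_[p]) ^ a • w.2.1,
          x.1.1 * w.2.1.1 + x.1.2 * w.2.1.2) + r • ((0 : ℤ_[p] × ℤ_[p]), (p : ℤ_[p]) ^ a * w.2.2)
        + ((0 : ℤ_[p] × ℤ_[p]), (z.2 - r • x).1.1 * w.2.1.1 + (z.2 - r • x).1.2 * w.2.1.2)) := by
      refine Prod.ext ?_ (Prod.ext (Prod.ext ?_ ?_) ?_)
      · simp [prodR]; ring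
      · simp [prodR, hr1]; ring
      · simp [prodR, hr1]; ring
      · simp [prodR, hr1]; ring
    rw [e1]
    refine (extMod a J x).add_mem ((extMod a J x).smul_mem _ ⟨r, hr1, hr2⟩) ?_
    rw [zero_mem_extMod]
    exact J.add_mem (J.add_mem (J.smul_mem r (h2 _)) (J.smul_mem r (h3 _))) (h1 _ hr2 _)

/-- The point of the coset of admissible `x`. -/
def basePt {m : ℕ} (a' : ℕ) (s : Pt p m) (γ : ℤ_[p] × ℤ_[p]) : (ℤ_[p] × ℤ_[p]) × ℤ_[p] :=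
  (dualVec (planeE s) (γ.1 * (p : ℤ_[p]) ^ (m + a')) (γ.2 * (p : ℤ_[p]) ^ a'), 0)

/-- The ideals. -/
theorem idealR_iff {a b c m : ℕ} {s : Pt p m} {γ : ℤ_[p] × ℤ_[p]}
    {x : (ℤ_[p] × ℤ_[p]) × ℤ_[p]} :
    IdealR (extMod a (grMod (planeE s) b (b + m) c γ) x) ↔
      c ≤ b ∧ ∃ a', a = b + m + a' ∧ x - basePt a' s γ ∈ KK p c := by
  have hdvd : ∀ {v : ℤ_[p] × ℤ_[p]}, (∃ r, (v, r) ∈ grMod (planeE s) b (b + m) c γ) →
      (p : ℤ_[p]) ^ b ∣ v.1 ∧ (p : ℤ_[p]) ^ b ∣ v.2 := by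
    rintro v ⟨r, hr⟩
    exact dvd_of_mem_lat (s := s) (fst_mem_of_mem_grMod hr)
  rw [idealR_extMod]
  constructor
  · rintro ⟨h1, h2, h3⟩
    have hcb : c ≤ b := by
      obtain ⟨r, hr⟩ := exists_mem_grMod c γ (latVec_mem b s)
      have h4 := h1 _ hr (1, 0)
      have h5 := h1 _ hr (0, 1)
      rw [zero_mem_grMod] at h4 h5
      simp only [mul_one, mul_zero, add_zero, zero_add] at h4 h5
      exact le_of_latVec_dvd h4 h5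
    refine ⟨hcb, ?_⟩
    have hab : b + m ≤ a := by
      have h4 := h2 ((planeE s).symm (0, 1))
      have h5 := fst_mem_of_mem_grMod h4
      rw [mem_diagLat, map_smul, LinearEquiv.apply_symm_apply] at h5
      have h6 := h5.2
      simp only [Prod.smul_snd, smul_eq_mul, mul_one] at h6
      exact ppow_dvd_ppow.mp h6
    obtain ⟨a', rfl⟩ := Nat.exists_eq_add_of_le hab
    refine ⟨a', rfl, ?_⟩
    have key : ∀ v : ℤ_[p] × ℤ_[p], (p : ℤ_[p]) ^ c ∣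
        (x.1.1 - (basePt a' s γ).1.1) * v.1 +
        (x.1.2 - (basePt a' s γ).1.2) * v.2 := by
      intro v
      have h4 := h2 v
      have ht : planeE s ((p : ℤ_[p]) ^ (b + m + a') • v) =
          ((p : ℤ_[p]) ^ b * ((p : ℤ_[p]) ^ (m + a') * (planeE s v).1,
            (p : ℤ_[p]) ^ a' * (planeE s v).2).1,
          (p : ℤ_[p]) ^ (b + m) * ((p : ℤ_[p]) ^ (m + a') * (planeE s v).1,
            (p : ℤ_[p]) ^ a' * (planeE s v).2).2) := by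
        rw [map_smul]
        refine Prod.ext ?_ ?_
        · simp only [Prod.smul_fst, smul_eq_mul]; ring
        · simp only [Prod.smul_snd, smul_eq_mul]; ring
      rw [mem_grMod_of ht] at h4
      have h5 := dualVec_spec (planeE s) (γ.1 * (p : ℤ_[p]) ^ (m + a')) (γ.2 * (p : ℤ_[p]) ^ a') v
      have e1 : (x.1.1 - (basePt a' s γ).1.1) * v.1 +
        (x.1.2 - (basePt a' s γ).1.2) * v.2 =
          x.1.1 * v.1 + x.1.2 * v.2 - (γ.1 * ((p : ℤ_[p]) ^ (m + a') * (planeE s v).1) +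
          γ.2 * ((p : ℤ_[p]) ^ a' * (planeE s v).2)) := by
        simp only [basePt]
        linear_combination -h5
      rw [e1]
      exact h4
    have k1 := key (1, 0)
    have k2 := key (0, 1)
    simp only [mul_one, mul_zero, add_zero, zero_add] at k1 k2
    exact ⟨k1, k2⟩
  · rintro ⟨hcb, a', rfl, hK⟩
    refine ⟨?_, ?_, ?_⟩
    · intro j hj v
      rw [zero_mem_grMod]
      obtain ⟨h1, h2⟩ := hdvd ⟨j.2, hj⟩
      exact dvd_trans (pow_dvd_pow _ hcb)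
        (dvd_add (Dvd.dvd.mul_right h1 _) (Dvd.dvd.mul_right h2 _))
    · intro v
      have ht : planeE s ((p : ℤ_[p]) ^ (b + m + a') • v) =
          ((p : ℤ_[p]) ^ b * ((p : ℤ_[p]) ^ (m + a') * (planeE s v).1,
            (p : ℤ_[p]) ^ a' * (planeE s v).2).1,
          (p : ℤ_[p]) ^ (b + m) * ((p : ℤ_[p]) ^ (m + a') * (planeE s v).1,
            (p : ℤ_[p]) ^ a' * (planeE s v).2).2) := by
        rw [map_smul]
        refine Prod.ext ?_ ?_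
        · simp only [Prod.smul_fst, smul_eq_mul]; ring
        · simp only [Prod.smul_snd, smul_eq_mul]; ring
      rw [mem_grMod_of ht]
      have h5 := dualVec_spec (planeE s) (γ.1 * (p : ℤ_[p]) ^ (m + a')) (γ.2 * (p : ℤ_[p]) ^ a') v
      obtain ⟨k1, k2⟩ := hK
      have e1 : x.1.1 * v.1 + x.1.2 * v.2 - (γ.1 * ((p : ℤ_[p]) ^ (m + a') * (planeE s v).1) +
          γ.2 * ((p : ℤ_[p]) ^ a' * (planeE s v).2)) =
          (x - basePt a' s γ).1.1 * v.1 + (x - basePt a' s γ).1.2 * v.2 := by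
        simp only [basePt, Prod.fst_sub, Prod.snd_sub]
        linear_combination h5
      rw [e1]
      exact dvd_add (Dvd.dvd.mul_right k1 _) (Dvd.dvd.mul_right k2 _)
    · intro t
      rw [zero_mem_grMod]
      exact Dvd.dvd.mul_right (pow_dvd_pow _ (by omega)) _

/-! ### The parametrisation -/

/-- the box `{0..n}^4` -/
def box4 (n : ℕ) : Finset (ℕ × (ℕ × (ℕ × ℕ))) :=
  Finset.range (n + 1) ×ˢ (Finset.range (n + 1) ×ˢ (Finset.range (n + 1) ×ˢ Finset.range (n + 1)))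

omit hp in
lemma mem_box4 {n : ℕ} {t : ℕ × (ℕ × (ℕ × ℕ))} :
    t ∈ box4 n ↔ t.1 ≤ n ∧ t.2.1 ≤ n ∧ t.2.2.1 ≤ n ∧ t.2.2.2 ≤ n := by
  simp [box4, Finset.mem_product]

/-- The degree of `(c, b', m, a')`. -/
def deg2 (t : ℕ × (ℕ × (ℕ × ℕ))) : ℕ := 4 * t.1 + (3 * t.2.1 + (2 * t.2.2.1 + t.2.2.2))

omit hp in
lemma deg2_mem (t : ℕ × (ℕ × (ℕ × ℕ))) (n : ℕ) (h : deg2 t ≤ n) : t ∈ box4 n := by
  rw [mem_box4]; unfold deg2 at h; omega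

/-- The number of ideals with parameter `(c, b', m, a')`. -/
def W2 (p : ℕ) (t : ℕ × (ℕ × (ℕ × ℕ))) : ℕ :=
  p ^ (3 * t.1) * (p ^ (2 * t.2.1) * (nlat p t.2.2.1 * p ^ t.2.2.1))

/-- The index set of `(c, b', m, a')`. -/
def TT2 (n : ℕ) : Finset (ℕ × (ℕ × (ℕ × ℕ))) := (box4 n).filter (fun t => deg2 t = n)

/-- The lattice `J`. -/
def JJ (c b' : ℕ) {m : ℕ} (s : Pt p m) (γ : Fin (p ^ c) × Fin (p ^ c)) :
    Submodule ℤ_[p] ((ℤ_[p] × ℤ_[p]) × ℤ_[p]) :=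
  grMod (planeE s) (c + b') (c + b' + m) c (((γ.1 : ℕ) : ℤ_[p]), ((γ.2 : ℕ) : ℤ_[p]))

lemma card_quot_JJ (c b' : ℕ) {m : ℕ} (s : Pt p m) (γ : Fin (p ^ c) × Fin (p ^ c)) :
    Nat.card (((ℤ_[p] × ℤ_[p]) × ℤ_[p]) ⧸ JJ c b' s γ) = p ^ (3 * c + 2 * b' + m) := by
  rw [JJ, card_quot_grMod]
  congr 1
  omega

instance finite_quot_JJ {c b' : ℕ} {m : ℕ} {s : Pt p m} {γ : Fin (p ^ c) × Fin (p ^ c)} :
    Finite (((ℤ_[p] × ℤ_[p]) × ℤ_[p]) ⧸ JJ c b' s γ) := by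
  apply Nat.finite_of_card_ne_zero
  rw [card_quot_JJ]
  exact pow_ne_zero _ hp.1.ne_zero

lemma JJ_le_KK (c b' : ℕ) {m : ℕ} (s : Pt p m) (γ : Fin (p ^ c) × Fin (p ^ c)) :
    JJ c b' s γ ≤ KK p c := by
  intro z hz
  obtain ⟨h1, h2⟩ := dvd_of_mem_lat (s := s) (fst_mem_of_mem_grMod hz)
  exact ⟨dvd_trans (pow_dvd_pow _ (Nat.le_add_right _ _)) h1,
    dvd_trans (pow_dvd_pow _ (Nat.le_add_right _ _)) h2⟩

theorem card_KKmap (c b' : ℕ) {m : ℕ} (s : Pt p m) (γ : Fin (p ^ c) × Fin (p ^ c)) :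
    Nat.card ((KK p c).map (JJ c b' s γ).mkQ) = p ^ (c + 2 * b' + m) := by
  have h1 := Submodule.card_quotient_mul_card_quotient (KK p c) (JJ c b' s γ) (JJ_le_KK c b' s γ)
  rw [card_quot_JJ, card_quot_KK] at h1
  have h3 : 3 * c + 2 * b' + m = (c + 2 * b' + m) + 2 * c := by omega
  rw [h3, pow_add _ (c + 2 * b' + m)] at h1
  exact Nat.eq_of_mul_eq_mul_right (pow_pos hp.1.pos _) h1

/-- The parameters of the ideals of index `p^n`. -/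
abbrev ParT2 (p : ℕ) [Fact p.Prime] (n : ℕ) : Type :=
  Σ (t : TT2 n) (s : Pt p t.1.2.2.1) (γ : Fin (p ^ t.1.1) × Fin (p ^ t.1.1)),
    ((KK p t.1.1).map (JJ t.1.1 t.1.2.1 s γ).mkQ : Submodule ℤ_[p] _)

/-- A lift of an element of the quotient. -/
def liftJ {J : Submodule ℤ_[p] ((ℤ_[p] × ℤ_[p]) × ℤ_[p])}
    (k : ((ℤ_[p] × ℤ_[p]) × ℤ_[p]) ⧸ J) : (ℤ_[p] × ℤ_[p]) × ℤ_[p] :=
  Function.surjInv (Submodule.mkQ_surjective J) k

lemma mk_liftJ {J : Submodule ℤ_[p] ((ℤ_[p] × ℤ_[p]) × ℤ_[p])}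
    (k : ((ℤ_[p] × ℤ_[p]) × ℤ_[p]) ⧸ J) : J.mkQ (liftJ k) = k :=
  Function.surjInv_eq (Submodule.mkQ_surjective J) k

/-- The base point for a parameter. -/
def bpt {m : ℕ} {c : ℕ} (a' : ℕ) (s : Pt p m) (γ : Fin (p ^ c) × Fin (p ^ c)) :
    (ℤ_[p] × ℤ_[p]) × ℤ_[p] := basePt a' s (((γ.1 : ℕ) : ℤ_[p]), ((γ.2 : ℕ) : ℤ_[p]))

/-- The ideal attached to explicit parameters. -/
def idl (c b' m a' : ℕ) (s : Pt p m) (γ : Fin (p ^ c) × Fin (p ^ c))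
    (x : (ℤ_[p] × ℤ_[p]) × ℤ_[p]) : Submodule ℤ_[p] (R4 p) :=
  extMod (c + b' + m + a') (JJ c b' s γ) (bpt a' s γ + x)

/-- The parametrisation of the ideals of index `p^n`. -/
def paramT2 (n : ℕ) (x : ParT2 p n) : Submodule ℤ_[p] (R4 p) :=
  idl x.1.1.1 x.1.1.2.1 x.1.1.2.2.1 x.1.1.2.2.2 x.2.1 x.2.2.1 (liftJ x.2.2.2.1)

lemma idealR_idl {c b' m a' : ℕ} {s : Pt p m} {γ : Fin (p ^ c) × Fin (p ^ c)}
    {x : (ℤ_[p] × ℤ_[p]) × ℤ_[p]} : IdealR (idl c b' m a' s γ x) ↔ x ∈ KK p c := by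
  rw [idl, JJ, idealR_iff]
  constructor
  · rintro ⟨-, a'', h1, h2⟩
    have : a'' = a' := by omega
    subst this
    simpa [bpt] using h2
  · intro h
    refine ⟨by omega, a', rfl, ?_⟩
    simpa [bpt] using h

lemma card_idl {c b' m a' : ℕ} {s : Pt p m} {γ : Fin (p ^ c) × Fin (p ^ c)}
    {x : (ℤ_[p] × ℤ_[p]) × ℤ_[p]} :
    Nat.card (R4 p ⧸ idl c b' m a' s γ x) = p ^ deg2 (c, b', m, a') := by
  rw [idl, card_quot_extMod, card_quot_JJ, ← pow_add]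
  congr 1
  simp only [deg2]
  omega

lemma deg_of_mem_TT2 {n : ℕ} {t : ℕ × (ℕ × (ℕ × ℕ))} (h : t ∈ TT2 n) : deg2 t = n :=
  (Finset.mem_filter.mp h).2

lemma paramT2_spec (n : ℕ) (x : ParT2 p n) :
    IdealR (paramT2 n x) ∧ Nat.card (R4 p ⧸ paramT2 n x) = p ^ n := by
  obtain ⟨⟨⟨c, b', m, a'⟩, ht⟩, s, γ, k, hk⟩ := x
  refine ⟨?_, ?_⟩
  · change IdealR (idl c b' m a' s γ (liftJ k))
    rw [idealR_idl]
    obtain ⟨y, hy, hyk⟩ := hk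
    have h3 : liftJ k - y ∈ JJ c b' s γ := by
      rw [← Submodule.Quotient.mk_eq_zero, Submodule.Quotient.mk_sub, sub_eq_zero]
      exact (mk_liftJ k).trans hyk.symm
    have h4 := (KK p c).add_mem (JJ_le_KK c b' s γ h3) hy
    simpa using h4
  · change Nat.card (R4 p ⧸ idl c b' m a' s γ (liftJ k)) = p ^ n
    rw [card_idl, deg_of_mem_TT2 ht]

lemma paramT2_injective (n : ℕ) : Function.Injective (paramT2 (p := p) n) := by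
  rintro ⟨⟨⟨c, b', m, a'⟩, ht⟩, s, γ, k⟩ ⟨⟨⟨c₁, b₁, m₁, a₁⟩, ht₁⟩, s₁, γ₁, k₁⟩ h
  change idl c b' m a' s γ (liftJ k.1) = idl c₁ b₁ m₁ a₁ s₁ γ₁ (liftJ k₁.1) at h
  rw [idl, idl, extMod_inj] at h
  obtain ⟨h1, hJ, hx⟩ := h
  obtain ⟨h2, h3⟩ := grMod_inj hJ
  rw [Sigma.mk.inj_iff] at h3
  obtain ⟨rfl, h3⟩ := h3
  have h3 := eq_of_heq h3
  subst h3
  rw [Sigma.mk.inj_iff] at h2
  obtain ⟨h4, h2⟩ := h2
  have h5 : b' = b₁ := by omega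
  subst h5
  have h2 := eq_of_heq h2
  rw [Sigma.mk.inj_iff] at h2
  obtain ⟨rfl, h2⟩ := h2
  have h2 := eq_of_heq h2
  subst h2
  have h6 : a' = a₁ := by omega
  subst h6
  have hk : k = k₁ := by
    apply Subtype.ext
    rw [← mk_liftJ k.1, ← mk_liftJ k₁.1]
    refine (Submodule.Quotient.eq _).mpr ?_
    simpa using hx
  subst hk
  rfl

lemma paramT2_surj (n : ℕ) (Λ : Submodule ℤ_[p] (R4 p)) (h1 : IdealR Λ)
    (h2 : Nat.card (R4 p ⧸ Λ) = p ^ n) : ∃ x, paramT2 n x = Λ := by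
  have hfin : Finite (R4 p ⧸ Λ) := by
    apply Nat.finite_of_card_ne_zero
    rw [h2]
    exact pow_ne_zero _ hp.1.ne_zero
  obtain ⟨a, J, x, rfl, hJ⟩ := exists_extMod Λ
  obtain ⟨b, m, s, c, γ, rfl⟩ := exists_grMod J
  rw [idealR_iff] at h1
  obtain ⟨hcb, a', rfl, hK⟩ := h1
  obtain ⟨b', rfl⟩ := Nat.exists_eq_add_of_le hcb
  have hdeg : deg2 (c, b', m, a') = n := by
    rw [card_quot_extMod, card_quot_grMod, ← pow_add] at h2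
    have h3 := Nat.pow_right_injective hp.1.two_le h2
    simp only [deg2]
    omega
  have ht : (c, b', m, a') ∈ TT2 n := Finset.mem_filter.mpr ⟨deg2_mem _ _ hdeg.le, hdeg⟩
  refine ⟨⟨⟨(c, b', m, a'), ht⟩, s, γ, ⟨(JJ c b' s γ).mkQ (x - bpt a' s γ),
    Submodule.mem_map_of_mem hK⟩⟩, ?_⟩
  change extMod (c + b' + m + a') (JJ c b' s γ)
    (bpt a' s γ + liftJ ((JJ c b' s γ).mkQ (x - bpt a' s γ))) =
    extMod (c + b' + m + a') (JJ c b' s γ) x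
  rw [extMod_inj]
  refine ⟨rfl, rfl, ?_⟩
  have h5 := mk_liftJ ((JJ c b' s γ).mkQ (x - bpt a' s γ))
  rw [Submodule.mkQ_apply, Submodule.mkQ_apply] at h5
  have h6 := (Submodule.Quotient.eq _).mp h5
  have e1 : bpt a' s γ + liftJ ((JJ c b' s γ).mkQ (x - bpt a' s γ)) - x =
    liftJ ((JJ c b' s γ).mkQ (x - bpt a' s γ)) - (x - bpt a' s γ) := by abel
  rw [e1]
  exact h6

/-- The number of ideals of index `p^n` of `R(ℤ_p)`. -/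
theorem card_idealR (n : ℕ) :
    Nat.card {Λ : Submodule ℤ_[p] (R4 p) // IdealR Λ ∧ Nat.card (R4 p ⧸ Λ) = p ^ n} =
    ∑ t ∈ TT2 n, W2 p t := by
  have e : ParT2 p n ≃ {Λ : Submodule ℤ_[p] (R4 p) //
      IdealR Λ ∧ Nat.card (R4 p ⧸ Λ) = p ^ n} := by
    refine Equiv.ofBijective (fun x => ⟨paramT2 n x, paramT2_spec n x⟩) ⟨?_, ?_⟩
    · intro x y h
      exact paramT2_injective n (Subtype.ext_iff.mp h)
    · rintro ⟨Λ, h1, h2⟩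
      obtain ⟨x, hx⟩ := paramT2_surj n Λ h1 h2
      exact ⟨x, Subtype.ext hx⟩
  rw [← Nat.card_congr e, Nat.card_sigma, ← Finset.sum_coe_sort (TT2 n)]
  refine Finset.sum_congr rfl ?_
  intro t _
  rw [Nat.card_sigma]
  have h1 : ∀ s : Pt p t.1.2.2.1, Nat.card (Σ γ : Fin (p ^ t.1.1) × Fin (p ^ t.1.1),
      ((KK p t.1.1).map (JJ t.1.1 t.1.2.1 s γ).mkQ : Submodule ℤ_[p] _)) =
      p ^ t.1.1 * p ^ t.1.1 * p ^ (t.1.1 + 2 * t.1.2.1 + t.1.2.2.1) := by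
    intro s
    rw [Nat.card_sigma, Finset.sum_congr rfl (fun γ _ => card_KKmap t.1.1 t.1.2.1 s γ),
      Finset.sum_const, smul_eq_mul, Finset.card_univ, Fintype.card_prod, Fintype.card_fin]
  rw [Finset.sum_congr rfl (fun s _ => h1 s), Finset.sum_const, smul_eq_mul, Finset.card_univ,
    ← Nat.card_eq_fintype_card, card_Pt]
  unfold W2 nlat
  ring

end Pool.Agent.MP_f418a9_al
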