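import Mathlib
import Pool.Agent.Work.MP_f418a9_al.CountTwo
import Pool.Agent.Work.MP_f418a9_al.CoOneCount

/-!
# Ideals `I` of `R(ℤ_p)` with `R / I ≅ (ℤ / p^2)^2`
-/

open scoped BigOperators

noncomputable section

namespace Pool.Agent.MP_f418a9_al

variable {p : ℕ} [hp : Fact p.Prime]

/-- The ideals with quotient `(ℤ / p^2)^2`. -/
def Good (I : Submodule ℤ_[p] (R4 p)) : Prop :=
  IdealR I ∧ (∀ r : R4 p, (p : ℤ_[p]) ^ 2 • r ∈ I) ∧ Nat.card (R4 p ⧸ I) = p ^ 4 ∧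
    ∃ r ∈ I, ¬ ((p : ℤ_[p]) ∣ r.1 ∧ (p : ℤ_[p]) ∣ r.2.1.1 ∧ (p : ℤ_[p]) ∣ r.2.1.2)

/-- Coordinates `E`, the first two of them divisible by `p^2`. -/
def conLat (E : R4 p ≃ₗ[ℤ_[p]] ((ℤ_[p] × ℤ_[p]) × (ℤ_[p] × ℤ_[p]))) :
    Submodule ℤ_[p] (R4 p) :=
  (diagLat (LinearEquiv.refl ℤ_[p] (ℤ_[p] × ℤ_[p])) 2 2).comap
    (LinearMap.fst ℤ_[p] (ℤ_[p] × ℤ_[p]) (ℤ_[p] × ℤ_[p]) ∘ₗ
      (E : R4 p →ₗ[ℤ_[p]] ((ℤ_[p] × ℤ_[p]) × (ℤ_[p] × ℤ_[p]))))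

lemma mem_conLat {E : R4 p ≃ₗ[ℤ_[p]] ((ℤ_[p] × ℤ_[p]) × (ℤ_[p] × ℤ_[p]))} {r : R4 p} :
    r ∈ conLat E ↔ (p : ℤ_[p]) ^ 2 ∣ (E r).1.1 ∧ (p : ℤ_[p]) ^ 2 ∣ (E r).1.2 := by
  unfold conLat
  rw [Submodule.mem_comap, mem_diagLat]
  rfl

theorem card_quot_conLat (E : R4 p ≃ₗ[ℤ_[p]] ((ℤ_[p] × ℤ_[p]) × (ℤ_[p] × ℤ_[p]))) :
    Nat.card (R4 p ⧸ conLat E) = p ^ 4 := by
  let g : R4 p →ₗ[ℤ_[p]]
      ((ℤ_[p] × ℤ_[p]) ⧸ diagLat (LinearEquiv.refl ℤ_[p] (ℤ_[p] × ℤ_[p])) 2 2) :=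
    (diagLat (LinearEquiv.refl ℤ_[p] (ℤ_[p] × ℤ_[p])) 2 2).mkQ ∘ₗ
      (LinearMap.fst ℤ_[p] (ℤ_[p] × ℤ_[p]) (ℤ_[p] × ℤ_[p]) ∘ₗ
      (E : R4 p →ₗ[ℤ_[p]] ((ℤ_[p] × ℤ_[p]) × (ℤ_[p] × ℤ_[p]))))
  have hg : Function.Surjective g :=
    (Submodule.mkQ_surjective _).comp
      ((LinearMap.fst_surjective (R := ℤ_[p]) (M := ℤ_[p] × ℤ_[p]) (M₂ := ℤ_[p] × ℤ_[p])).comp
        E.surjective)
  rw [card_quot_of_surj g hg (K := conLat E), card_quot_diagLat]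
  ext z
  rw [LinearMap.mem_ker]
  simp only [g, LinearMap.comp_apply, LinearMap.fst_apply, Submodule.mkQ_apply]
  rw [Submodule.Quotient.mk_eq_zero, mem_diagLat, mem_conLat]
  rfl

/-- coordinates `((r₀ - α r₁, r₂ - u r₁ - δ r₃), (r₁, r₃))` -/
def EA (α u δ : ℤ_[p]) : R4 p ≃ₗ[ℤ_[p]] ((ℤ_[p] × ℤ_[p]) × (ℤ_[p] × ℤ_[p])) where
  toFun r := ((r.1 - α * r.2.1.1, r.2.1.2 - u * r.2.1.1 - δ * r.2.2), (r.2.1.1, r.2.2))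
  invFun z := (z.1.1 + α * z.2.1, ((z.2.1, z.1.2 + u * z.2.1 + δ * z.2.2), z.2.2))
  map_add' x y := by
    refine Prod.ext (Prod.ext ?_ ?_) (Prod.ext ?_ ?_) <;> simp <;> ring
  map_smul' c x := by
    refine Prod.ext (Prod.ext ?_ ?_) (Prod.ext ?_ ?_) <;> simp <;> ring
  left_inv x := by
    refine Prod.ext ?_ (Prod.ext (Prod.ext ?_ ?_) ?_) <;> simp
    ring
  right_inv x := by
    refine Prod.ext (Prod.ext ?_ ?_) (Prod.ext ?_ ?_) <;> simp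
    ring

/-- coordinates `((r₀ - α r₂, r₁ - β r₂), (r₂, r₃))` -/
def EB (α β : ℤ_[p]) : R4 p ≃ₗ[ℤ_[p]] ((ℤ_[p] × ℤ_[p]) × (ℤ_[p] × ℤ_[p])) where
  toFun r := ((r.1 - α * r.2.1.2, r.2.1.1 - β * r.2.1.2), (r.2.1.2, r.2.2))
  invFun z := (z.1.1 + α * z.2.1, ((z.1.2 + β * z.2.1, z.2.1), z.2.2))
  map_add' x y := by
    refine Prod.ext (Prod.ext ?_ ?_) (Prod.ext ?_ ?_) <;> simp <;> ring
  map_smul' c x := by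
    refine Prod.ext (Prod.ext ?_ ?_) (Prod.ext ?_ ?_) <;> simp <;> ring
  left_inv x := by
    refine Prod.ext ?_ (Prod.ext (Prod.ext ?_ ?_) ?_) <;> simp
  right_inv x := by
    refine Prod.ext (Prod.ext ?_ ?_) (Prod.ext ?_ ?_) <;> simp

lemma mem_EA {α u δ : ℤ_[p]} {r : R4 p} : r ∈ conLat (EA α u δ) ↔
    (p : ℤ_[p]) ^ 2 ∣ r.1 - α * r.2.1.1 ∧
      (p : ℤ_[p]) ^ 2 ∣ r.2.1.2 - u * r.2.1.1 - δ * r.2.2 := mem_conLat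

lemma mem_EB {α β : ℤ_[p]} {r : R4 p} : r ∈ conLat (EB α β) ↔
    (p : ℤ_[p]) ^ 2 ∣ r.1 - α * r.2.1.2 ∧ (p : ℤ_[p]) ^ 2 ∣ r.2.1.1 - β * r.2.1.2 := mem_conLat

/-- Parameters of the good ideals. -/
abbrev PI (p : ℕ) : Type :=
  {x : Fin (p ^ 1) × Fin (p ^ 2) // (x.1 : ℕ) = 0 ∨ p ∣ (x.2 : ℕ) ^ 2 + 1} ⊕ Fin (p ^ 1)

/-- Coordinates attached to a parameter. -/
def EI (s : PI p) : R4 p ≃ₗ[ℤ_[p]] ((ℤ_[p] × ℤ_[p]) × (ℤ_[p] × ℤ_[p])) :=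
  match s with
  | Sum.inl x => EA ((p : ℤ_[p]) * ((x.1.1 : ℕ) : ℤ_[p])) ((x.1.2 : ℕ) : ℤ_[p])
      (-((p : ℤ_[p]) * ((x.1.1 : ℕ) : ℤ_[p]) * ((x.1.2 : ℕ) : ℤ_[p])))
  | Sum.inr b => EB 0 ((p : ℤ_[p]) * ((b : ℕ) : ℤ_[p]))

/-- The ideal attached to a parameter. -/
def LamI (s : PI p) : Submodule ℤ_[p] (R4 p) := conLat (EI s)

lemma mem_LamI1 {t : {x : Fin (p ^ 1) × Fin (p ^ 2) // (x.1 : ℕ) = 0 ∨ p ∣ (x.2 : ℕ) ^ 2 + 1}}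
    {r : R4 p} : r ∈ LamI (Sum.inl t : PI p) ↔
      (p : ℤ_[p]) ^ 2 ∣ r.1 - (p : ℤ_[p]) * ((t.1.1 : ℕ) : ℤ_[p]) * r.2.1.1 ∧
      (p : ℤ_[p]) ^ 2 ∣ r.2.1.2 - ((t.1.2 : ℕ) : ℤ_[p]) * r.2.1.1 -
        (-((p : ℤ_[p]) * ((t.1.1 : ℕ) : ℤ_[p]) * ((t.1.2 : ℕ) : ℤ_[p]))) * r.2.2 := mem_EA

lemma mem_LamI2 {b : Fin (p ^ 1)} {r : R4 p} :
    r ∈ LamI (Sum.inr b : PI p) ↔
      (p : ℤ_[p]) ^ 2 ∣ r.1 - 0 * r.2.1.2 ∧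
        (p : ℤ_[p]) ^ 2 ∣ r.2.1.1 - (p : ℤ_[p]) * ((b : ℕ) : ℤ_[p]) * r.2.1.2 := mem_EB

/-- The generator attached to a parameter. -/
def vecI (s : PI p) : R4 p :=
  match s with
  | Sum.inl x => ((p : ℤ_[p]) * ((x.1.1 : ℕ) : ℤ_[p]), ((1, ((x.1.2 : ℕ) : ℤ_[p])), 0))
  | Sum.inr b => (0, (((p : ℤ_[p]) * ((b : ℕ) : ℤ_[p]), 1), 0))

lemma vecI_mem (s : PI p) : vecI s ∈ LamI s := by
  rcases s with t | b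
  · rw [mem_LamI1]; simp [vecI]
  · rw [mem_LamI2]; simp [vecI]

lemma idealR_LamI (s : PI p) : IdealR (LamI s) := by
  intro r hr w
  rcases s with t | b
  · rw [mem_LamI1] at hr ⊢
    obtain ⟨⟨τ, u⟩, ht⟩ := t
    simp only at hr ht ⊢
    obtain ⟨⟨a1, h1⟩, ⟨a2, h2⟩⟩ := hr
    have hk : ∃ k : ℤ_[p], ((τ : ℕ) : ℤ_[p]) * (((u : ℕ) : ℤ_[p]) ^ 2 + 1) = (p : ℤ_[p]) * k := by
      rcases ht with h | ⟨k, hk⟩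
      · exact ⟨0, by rw [h]; simp⟩
      · refine ⟨((τ : ℕ) : ℤ_[p]) * (k : ℤ_[p]), ?_⟩
        have : (((u : ℕ) : ℤ_[p]) ^ 2 + 1) = (p : ℤ_[p]) * (k : ℤ_[p]) := by
          exact_mod_cast congrArg (Nat.cast (R := ℤ_[p])) hk
        rw [this]; ring
    obtain ⟨k, hk⟩ := hk
    have e1 : r.1 = (p : ℤ_[p]) * ((τ : ℕ) : ℤ_[p]) * r.2.1.1 + (p : ℤ_[p]) ^ 2 * a1 := by
      rw [← h1]; ring
    have e2 : r.2.1.2 = ((u : ℕ) : ℤ_[p]) * r.2.1.1 -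
        (p : ℤ_[p]) * ((τ : ℕ) : ℤ_[p]) * ((u : ℕ) : ℤ_[p]) * r.2.2 + (p : ℤ_[p]) ^ 2 * a2 := by
      rw [← h2]; ring
    generalize ((τ : ℕ) : ℤ_[p]) = T at *
    generalize ((u : ℕ) : ℤ_[p]) = U at *
    obtain ⟨r0, ⟨r1, r2⟩, r3⟩ := r
    obtain ⟨w0, ⟨w1, w2⟩, w3⟩ := w
    simp only at e1 e2
    simp only [prodR]
    subst e1 e2
    constructor
    · refine ⟨a1 * w0 - T ^ 2 * r1 * w1 - (p : ℤ_[p]) * T * a1 * w1, ?_⟩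
      ring
    · refine ⟨a2 * w0 + a1 * w2 - U * a1 * w1 + T * U * (T * r1 + (p : ℤ_[p]) * a1) * w3 * 1
        + (p : ℤ_[p]) * (T * U) * (-T * U * r3 + (p : ℤ_[p]) * a2) * w2 * 0
        + (p : ℤ_[p]) * (T * U) * a2 * w2 - (T * U) ^ 2 * r3 * w2
        + r1 * w2 * k, ?_⟩
      linear_combination ((p : ℤ_[p]) * r1 * w2) * hk
  · rw [mem_LamI2] at hr ⊢
    obtain ⟨⟨a1, h1⟩, ⟨a2, h2⟩⟩ := hr
    generalize ((b : ℕ) : ℤ_[p]) = T at *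
    obtain ⟨r0, ⟨r1, r2⟩, r3⟩ := r
    obtain ⟨w0, ⟨w1, w2⟩, w3⟩ := w
    simp only at h1 h2
    have e1 : r0 = (p : ℤ_[p]) ^ 2 * a1 := by rw [← h1]; ring
    have e2 : r1 = (p : ℤ_[p]) * T * r2 + (p : ℤ_[p]) ^ 2 * a2 := by rw [← h2]; ring
    simp only [prodR]
    subst e1 e2
    constructor
    · exact ⟨a1 * w0, by ring⟩
    · exact ⟨a1 * w1 + a2 * w0 - (p : ℤ_[p]) * T * a1 * w2, by ring⟩

lemma good_LamI (s : PI p) : Good (LamI s) := by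
  refine ⟨idealR_LamI s, ?_, card_quot_conLat _, ⟨vecI s, vecI_mem s, ?_⟩⟩
  · intro r
    rw [LamI, mem_conLat, map_smul]
    exact ⟨Dvd.intro _ rfl, Dvd.intro _ rfl⟩
  · rintro ⟨-, h1, h2⟩
    rcases s with t | b
    · exact not_p_dvd_one h1
    · exact not_p_dvd_one h2

lemma LamI_injective : Function.Injective (LamI (p := p)) := by
  intro s s' h
  have h1 : vecI s ∈ LamI s' := h ▸ vecI_mem s
  have h2 : vecI s' ∈ LamI s := h ▸ vecI_mem s'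
  have aux : ∀ (t : {x : Fin (p ^ 1) × Fin (p ^ 2) // (x.1 : ℕ) = 0 ∨ p ∣ (x.2 : ℕ) ^ 2 + 1})
      (b : Fin (p ^ 1)), vecI (Sum.inl t : PI p) ∈ LamI (Sum.inr b : PI p) → False := by
    intro t b h
    rw [mem_LamI2] at h
    have h3 := dvd_of_sq_dvd h.2
    simp only [vecI] at h3
    apply not_p_dvd_one (p := p)
    rw [mul_assoc] at h3
    exact (dvd_sub_left (Dvd.intro _ rfl)).mp h3
  rcases s with t | b <;> rcases s' with t' | b'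
  · rw [mem_LamI1] at h1
    simp only [vecI, mul_one, mul_zero, sub_zero] at h1
    obtain ⟨⟨τ, u⟩, ht⟩ := t
    obtain ⟨⟨τ', u'⟩, ht'⟩ := t'
    simp only at h1
    obtain ⟨h3, h4⟩ := h1
    rw [← mul_sub, sq_dvd_p_mul] at h3
    have h5 : (τ : ℕ) = (τ' : ℕ) := approx_unique τ.2 τ'.2 (by rw [pow_one]; exact h3)
    have h6 : (u : ℕ) = (u' : ℕ) := approx_unique u.2 u'.2 h4
    have h7 : τ = τ' := Fin.ext h5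
    have h8 : u = u' := Fin.ext h6
    subst h7 h8
    rfl
  · exact (aux _ _ h1).elim
  · exact (aux _ _ h2).elim
  · rw [mem_LamI2] at h1
    simp only [vecI, mul_one] at h1
    obtain ⟨-, h3⟩ := h1
    rw [← mul_sub, sq_dvd_p_mul] at h3
    have h5 : (b : ℕ) = (b' : ℕ) := approx_unique b.2 b'.2 (by rw [pow_one]; exact h3)
    rw [Fin.ext h5]

section surj

variable {I : Submodule ℤ_[p] (R4 p)}

lemma sq_mem (h : Good I) {r : R4 p} (h0 : (p : ℤ_[p]) ^ 2 ∣ r.1) (h1 : (p : ℤ_[p]) ^ 2 ∣ r.2.1.1)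
    (h2 : (p : ℤ_[p]) ^ 2 ∣ r.2.1.2) (h3 : (p : ℤ_[p]) ^ 2 ∣ r.2.2) : r ∈ I := by
  obtain ⟨a0, h0⟩ := h0
  obtain ⟨a1, h1⟩ := h1
  obtain ⟨a2, h2⟩ := h2
  obtain ⟨a3, h3⟩ := h3
  have : r = (p : ℤ_[p]) ^ 2 • ((a0, ((a1, a2), a3)) : R4 p) := by
    refine Prod.ext ?_ (Prod.ext (Prod.ext ?_ ?_) ?_) <;> simp [h0, h1, h2, h3]
  rw [this]
  exact h.2.1 _

lemma p_dvd_fst (h : Good I) {r : R4 p} (hr : r ∈ I) : (p : ℤ_[p]) ∣ r.1 := by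
  by_contra hcon
  rw [← isUnit_iff_not_dvd] at hcon
  obtain ⟨v, hv⟩ := hcon
  have hinv : ((v⁻¹ : ℤ_[p]ˣ) : ℤ_[p]) * r.1 = 1 := by rw [← hv, Units.inv_mul]
  have hs : ∀ t : ℤ_[p], ((0, ((0, 0), t)) : R4 p) ∈ I := by
    intro t
    have h1 := I.smul_mem (t * ((v⁻¹ : ℤ_[p]ˣ) : ℤ_[p])) (h.1 r hr (0, ((0, 0), 1)))
    convert h1 using 1
    refine Prod.ext ?_ (Prod.ext (Prod.ext ?_ ?_) ?_) <;> simp [prodR]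
    rw [mul_assoc, hinv, mul_one]
  have hx : ∀ t : ℤ_[p], ((0, ((t, 0), 0)) : R4 p) ∈ I := by
    intro t
    have h1 := I.sub_mem (I.smul_mem (t * ((v⁻¹ : ℤ_[p]ˣ) : ℤ_[p])) (h.1 r hr (0, ((1, 0), 0))))
      (hs (t * ((v⁻¹ : ℤ_[p]ˣ) : ℤ_[p]) * r.2.1.1))
    convert h1 using 1
    refine Prod.ext ?_ (Prod.ext (Prod.ext ?_ ?_) ?_) <;> simp [prodR]
    rw [mul_assoc, hinv, mul_one]
  have hy : ∀ t : ℤ_[p], ((0, ((0, t), 0)) : R4 p) ∈ I := by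
    intro t
    have h1 := I.sub_mem (I.smul_mem (t * ((v⁻¹ : ℤ_[p]ˣ) : ℤ_[p])) (h.1 r hr (0, ((0, 1), 0))))
      (hs (t * ((v⁻¹ : ℤ_[p]ˣ) : ℤ_[p]) * r.2.1.2))
    convert h1 using 1
    refine Prod.ext ?_ (Prod.ext (Prod.ext ?_ ?_) ?_) <;> simp [prodR]
    rw [mul_assoc, hinv, mul_one]
  have htop : I = ⊤ := by
    rw [eq_top_iff]
    rintro ⟨w0, ⟨w1, w2⟩, w3⟩ -
    set c := w0 * ((v⁻¹ : ℤ_[p]ˣ) : ℤ_[p]) with hc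
    have hc1 : c * r.1 = w0 := by rw [hc, mul_assoc, hinv, mul_one]
    have h1 := I.add_mem (I.add_mem (I.add_mem (I.smul_mem c hr) (hx (w1 - c * r.2.1.1)))
      (hy (w2 - c * r.2.1.2))) (hs (w3 - c * r.2.2))
    convert h1 using 1
    refine Prod.ext ?_ (Prod.ext (Prod.ext ?_ ?_) ?_) <;> simp [hc1]
  have hcard := h.2.2.1
  rw [htop] at hcard
  have h1 : Nat.card (R4 p ⧸ (⊤ : Submodule ℤ_[p] (R4 p))) = 1 := by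
    rw [Nat.card_eq_one_iff_unique]
    exact ⟨inferInstance, inferInstance⟩
  rw [h1] at hcard
  have h2 : 1 < p ^ 4 := Nat.one_lt_pow (by norm_num) hp.1.one_lt
  omega

lemma conLat_eq (h : Good I) (E : R4 p ≃ₗ[ℤ_[p]] ((ℤ_[p] × ℤ_[p]) × (ℤ_[p] × ℤ_[p])))
    (hle : conLat E ≤ I) : conLat E = I :=
  eq_of_le_of_card hle h.2.2.1 (card_quot_conLat E) (pow_ne_zero _ hp.1.ne_zero)

/-- Normal form in case A. -/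
lemma conLatA_le (h : Good I) {α u δ : ℤ_[p]} (h1 : ((α, ((1, u), 0)) : R4 p) ∈ I)
    (h2 : ((0, ((0, δ), 1)) : R4 p) ∈ I) : conLat (EA α u δ) ≤ I := by
  intro r hr
  rw [mem_EA] at hr
  have h3 : ((r.1 - α * r.2.1.1, ((0, r.2.1.2 - u * r.2.1.1 - δ * r.2.2), 0)) : R4 p) ∈ I :=
    sq_mem h hr.1 (dvd_zero _) hr.2 (dvd_zero _)
  have h4 := I.add_mem (I.add_mem (I.smul_mem r.2.1.1 h1) (I.smul_mem r.2.2 h2)) h3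
  convert h4 using 1
  refine Prod.ext ?_ (Prod.ext (Prod.ext ?_ ?_) ?_) <;> simp <;> ring

/-- Normal form in case B. -/
lemma conLatB_le (h : Good I) {α β : ℤ_[p]} (h1 : ((α, ((β, 1), 0)) : R4 p) ∈ I)
    (h2 : ((0, ((0, 0), 1)) : R4 p) ∈ I) : conLat (EB α β) ≤ I := by
  intro r hr
  rw [mem_EB] at hr
  have h3 : ((r.1 - α * r.2.1.2, ((r.2.1.1 - β * r.2.1.2, 0), 0)) : R4 p) ∈ I :=
    sq_mem h hr.1 hr.2 (dvd_zero _) (dvd_zero _)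
  have h4 := I.add_mem (I.add_mem (I.smul_mem r.2.1.2 h1) (I.smul_mem r.2.2 h2)) h3
  convert h4 using 1
  refine Prod.ext ?_ (Prod.ext (Prod.ext ?_ ?_) ?_) <;> simp <;> ring

lemma isUnit_one_sub {x : ℤ_[p]} (hx : (p : ℤ_[p]) ∣ x) : IsUnit (1 - x) := by
  rw [isUnit_iff_not_dvd]
  intro h
  apply not_p_dvd_one (p := p)
  have := dvd_add h hx
  simpa using this

lemma exists_paramA (h : Good I) {r : R4 p} (hr : r ∈ I) (hr1 : IsUnit r.2.1.1) :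
    ∃ s : PI p, LamI s = I := by
  obtain ⟨v, hv⟩ := hr1
  have hinv : ((v⁻¹ : ℤ_[p]ˣ) : ℤ_[p]) * r.2.1.1 = 1 := by rw [← hv, Units.inv_mul]
  -- `w = (α₀, 1, u₀, κ)`
  have hw : ∃ α₀ u₀ κ : ℤ_[p], ((α₀, ((1, u₀), κ)) : R4 p) ∈ I := by
    refine ⟨((v⁻¹ : ℤ_[p]ˣ) : ℤ_[p]) * r.1, ((v⁻¹ : ℤ_[p]ˣ) : ℤ_[p]) * r.2.1.2,
      ((v⁻¹ : ℤ_[p]ˣ) : ℤ_[p]) * r.2.2, ?_⟩
    have h1 := I.smul_mem ((v⁻¹ : ℤ_[p]ˣ) : ℤ_[p]) hr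
    convert h1 using 1
    refine Prod.ext ?_ (Prod.ext (Prod.ext ?_ ?_) ?_) <;> simp [hinv]
  obtain ⟨α₀, u₀, κ, hw⟩ := hw
  have hα₀ := p_dvd_fst h hw
  simp only at hα₀
  have hg : ∃ α u : ℤ_[p], ((α, ((1, u), 0)) : R4 p) ∈ I := by
    obtain ⟨v', hv'⟩ := isUnit_one_sub (Dvd.dvd.mul_left hα₀ κ)
    have hinv' : ((v'⁻¹ : ℤ_[p]ˣ) : ℤ_[p]) * (1 - κ * α₀) = 1 := by rw [← hv', Units.inv_mul]
    refine ⟨((v'⁻¹ : ℤ_[p]ˣ) : ℤ_[p]) * α₀, ((v'⁻¹ : ℤ_[p]ˣ) : ℤ_[p]) * u₀, ?_⟩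
    have h1 := I.smul_mem ((v'⁻¹ : ℤ_[p]ˣ) : ℤ_[p])
      (I.sub_mem hw (I.smul_mem κ (h.1 _ hw (0, ((1, 0), 0)))))
    convert h1 using 1
    refine Prod.ext ?_ (Prod.ext (Prod.ext ?_ ?_) ?_)
    · simp [prodR]
    · simp [prodR]
      exact hinv'.symm
    · simp [prodR]
    · simp [prodR]
  obtain ⟨α, u, hg⟩ := hg
  have hα := p_dvd_fst h hg
  simp only at hα
  obtain ⟨α', rfl⟩ := hα
  have hg2 : ((0, ((0, -((p : ℤ_[p]) * α' * u)), 1)) : R4 p) ∈ I := by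
    have h1 := I.sub_mem (h.1 _ hg (0, ((1, 0), 0))) (I.smul_mem ((p : ℤ_[p]) * α') hg)
    have h2 : ((((p : ℤ_[p]) * α') ^ 2, ((0, 0), 0)) : R4 p) ∈ I :=
      sq_mem h ⟨α' ^ 2, by ring⟩ (dvd_zero _) (dvd_zero _) (dvd_zero _)
    have h3 := I.add_mem h1 h2
    convert h3 using 1
    refine Prod.ext ?_ (Prod.ext (Prod.ext ?_ ?_) ?_)
    · simp [prodR]; ring
    · simp [prodR]
    · simp [prodR]
    · simp [prodR]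
  have heq := conLat_eq h _ (conLatA_le h hg hg2)
  have hcond : (p : ℤ_[p]) ∣ α' * (1 + u ^ 2) := by
    have h1 := I.sub_mem (h.1 _ hg (0, ((0, 1), 0))) (I.smul_mem u hg2)
    rw [← heq, mem_EA] at h1
    have h2 := h1.2
    simp only [prodR, Prod.fst_sub, Prod.snd_sub, Prod.smul_fst, Prod.smul_snd, smul_eq_mul] at h2
    have e1 : (p : ℤ_[p]) * α' * 1 + u * 0 - u * -((p : ℤ_[p]) * α' * u) -
        u * ((p : ℤ_[p]) * α' * 0 + 1 * 0 - u * 0) -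
        -((p : ℤ_[p]) * α' * u) * ((p : ℤ_[p]) * α' * 0 + 0 * 0 + 1 * 0 + u * 1 - u * 1) =
        (p : ℤ_[p]) * (α' * (1 + u ^ 2)) := by ring
    rw [e1, sq_dvd_p_mul] at h2
    exact h2
  obtain ⟨τ, hτ⟩ := exists_approx1 α'
  obtain ⟨U, hU⟩ := exists_approx u 2
  have hmain : p ∣ (τ : ℕ) * ((U : ℕ) ^ 2 + 1) := by
    have h3 : (p : ℤ_[p]) ∣ ((τ : ℕ) : ℤ_[p]) * (((U : ℕ) : ℤ_[p]) ^ 2 + 1) := by
      obtain ⟨k, hk⟩ := hcond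
      obtain ⟨r1, hr1⟩ := hτ
      obtain ⟨r2, hr2⟩ := dvd_of_sq_dvd hU
      have e3 : ((τ : ℕ) : ℤ_[p]) = α' - p * r1 := by rw [← hr1]; ring
      have e4 : ((U : ℕ) : ℤ_[p]) = u - p * r2 := by rw [← hr2]; ring
      refine ⟨k - r1 * ((u - p * r2) ^ 2 + 1) - 2 * α' * u * r2 + α' * p * r2 ^ 2, ?_⟩
      rw [e3, e4]
      linear_combination hk
    have h4 : (p : ℤ_[p]) ^ 1 ∣ (((τ : ℕ) * ((U : ℕ) ^ 2 + 1) : ℕ) : ℤ_[p]) := by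
      rw [pow_one]; push_cast; exact h3
    have h5 : (p : ℤ_[p]) ^ 1 ∣ ((((τ : ℕ) * ((U : ℕ) ^ 2 + 1) : ℕ) : ℤ) : ℤ_[p]) := by
      exact_mod_cast h4
    rw [PadicInt.pow_p_dvd_int_iff, pow_one] at h5
    exact_mod_cast h5
  have hcond2 : (τ : ℕ) = 0 ∨ p ∣ (U : ℕ) ^ 2 + 1 := by
    rcases (Nat.Prime.dvd_mul hp.1).mp hmain with h3 | h3
    · left
      exact Nat.eq_zero_of_dvd_of_lt h3 (lt_of_lt_of_eq τ.2 (pow_one p))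
    · right; exact h3
  refine ⟨Sum.inl ⟨(τ, U), hcond2⟩, conLat_eq h _ (conLatA_le h ?_ ?_)⟩
  · have h2 : (((p : ℤ_[p]) * ((τ : ℕ) : ℤ_[p]) - (p : ℤ_[p]) * α',
        ((0, ((U : ℕ) : ℤ_[p]) - u), 0)) : R4 p) ∈ I := by
      refine sq_mem h ?_ (dvd_zero _) ?_ (dvd_zero _)
      · rw [← mul_sub, sq_dvd_p_mul, ← dvd_neg, neg_sub]; exact hτ
      · rw [← dvd_neg, neg_sub]; exact hU
    have h3 := I.add_mem hg h2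
    convert h3 using 1
    refine Prod.ext ?_ (Prod.ext (Prod.ext ?_ ?_) ?_) <;> simp
  · have h2 : ((0, ((0, -((p : ℤ_[p]) * ((τ : ℕ) : ℤ_[p]) * ((U : ℕ) : ℤ_[p])) +
        (p : ℤ_[p]) * α' * u), 0)) : R4 p) ∈ I := by
      refine sq_mem h (dvd_zero _) (dvd_zero _) ?_ (dvd_zero _)
      obtain ⟨r1, hr1⟩ := hτ
      obtain ⟨r2, hr2⟩ := hU
      have e3 : ((τ : ℕ) : ℤ_[p]) = α' - p * r1 := by rw [← hr1]; ring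
      have e4 : ((U : ℕ) : ℤ_[p]) = u - p ^ 2 * r2 := by rw [← hr2]; ring
      refine ⟨r1 * u + (p : ℤ_[p]) * α' * r2 - (p : ℤ_[p]) ^ 2 * r1 * r2, ?_⟩
      simp only [e3, e4]
      ring
    have h3 := I.add_mem hg2 h2
    convert h3 using 1
    refine Prod.ext ?_ (Prod.ext (Prod.ext ?_ ?_) ?_) <;> simp

lemma exists_paramB (h : Good I) {r : R4 p} (hr : r ∈ I) (hr1 : (p : ℤ_[p]) ∣ r.2.1.1)
    (hr2 : IsUnit r.2.1.2) : ∃ s : PI p, LamI s = I := by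
  obtain ⟨v, hv⟩ := hr2
  have hinv : ((v⁻¹ : ℤ_[p]ˣ) : ℤ_[p]) * r.2.1.2 = 1 := by rw [← hv, Units.inv_mul]
  have hw : ∃ α₀ β₀ κ : ℤ_[p], (p : ℤ_[p]) ∣ β₀ ∧ ((α₀, ((β₀, 1), κ)) : R4 p) ∈ I := by
    refine ⟨((v⁻¹ : ℤ_[p]ˣ) : ℤ_[p]) * r.1, ((v⁻¹ : ℤ_[p]ˣ) : ℤ_[p]) * r.2.1.1,
      ((v⁻¹ : ℤ_[p]ˣ) : ℤ_[p]) * r.2.2, Dvd.dvd.mul_left hr1 _, ?_⟩
    have h1 := I.smul_mem ((v⁻¹ : ℤ_[p]ˣ) : ℤ_[p]) hr
    convert h1 using 1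
    refine Prod.ext ?_ (Prod.ext (Prod.ext ?_ ?_) ?_) <;> simp [hinv]
  obtain ⟨α₀, β₀, κ, hβ₀, hw⟩ := hw
  have hα₀ := p_dvd_fst h hw
  simp only at hα₀
  have hg : ∃ α β : ℤ_[p], (p : ℤ_[p]) ∣ β ∧ ((α, ((β, 1), 0)) : R4 p) ∈ I := by
    obtain ⟨v', hv'⟩ := isUnit_one_sub (Dvd.dvd.mul_left hα₀ κ)
    have hinv' : ((v'⁻¹ : ℤ_[p]ˣ) : ℤ_[p]) * (1 - κ * α₀) = 1 := by rw [← hv', Units.inv_mul]
    refine ⟨((v'⁻¹ : ℤ_[p]ˣ) : ℤ_[p]) * α₀, ((v'⁻¹ : ℤ_[p]ˣ) : ℤ_[p]) * β₀,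
      Dvd.dvd.mul_left hβ₀ _, ?_⟩
    have h1 := I.smul_mem ((v'⁻¹ : ℤ_[p]ˣ) : ℤ_[p])
      (I.sub_mem hw (I.smul_mem κ (h.1 _ hw (0, ((0, 1), 0)))))
    convert h1 using 1
    refine Prod.ext ?_ (Prod.ext (Prod.ext ?_ ?_) ?_)
    · simp [prodR]
    · simp [prodR]
    · simp [prodR]
      exact hinv'.symm
    · simp [prodR]
  obtain ⟨α, β, hβ, hg⟩ := hg
  have hα := p_dvd_fst h hg
  simp only at hα
  obtain ⟨α', rfl⟩ := hα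
  obtain ⟨β', rfl⟩ := hβ
  have hg2 : ((0, ((0, 0), 1)) : R4 p) ∈ I := by
    have h1 := I.sub_mem (h.1 _ hg (0, ((0, 1), 0))) (I.smul_mem ((p : ℤ_[p]) * α') hg)
    have h2 : ((((p : ℤ_[p]) * α') ^ 2, ((((p : ℤ_[p]) * α') * ((p : ℤ_[p]) * β'), 0), 0)) :
        R4 p) ∈ I :=
      sq_mem h ⟨α' ^ 2, by ring⟩ ⟨α' * β', by ring⟩ (dvd_zero _) (dvd_zero _)
    have h3 := I.add_mem h1 h2
    convert h3 using 1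
    refine Prod.ext ?_ (Prod.ext (Prod.ext ?_ ?_) ?_)
    · simp [prodR]; ring
    · simp [prodR]
    · simp [prodR]
    · simp [prodR]
  have heq := conLat_eq h _ (conLatB_le h hg hg2)
  have hcond : (p : ℤ_[p]) ^ 2 ∣ (p : ℤ_[p]) * α' := by
    have h1 := I.sub_mem (h.1 _ hg (0, ((1, 0), 0))) (I.smul_mem ((p : ℤ_[p]) * β') hg2)
    rw [← heq, mem_EB] at h1
    have h2 := h1.2
    simp only [prodR, Prod.fst_sub, Prod.snd_sub, Prod.smul_fst, Prod.smul_snd, smul_eq_mul] at h2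
    convert h2 using 1
    ring
  obtain ⟨b, hb⟩ := exists_approx1 β'
  refine ⟨Sum.inr b, conLat_eq h _ (conLatB_le h ?_ hg2)⟩
  have h2 : ((-((p : ℤ_[p]) * α'), (((p : ℤ_[p]) * ((b : ℕ) : ℤ_[p]) - (p : ℤ_[p]) * β', 0), 0)) :
      R4 p) ∈ I := by
    refine sq_mem h (dvd_neg.mpr hcond) ?_ (dvd_zero _) (dvd_zero _)
    rw [← mul_sub, sq_dvd_p_mul, ← dvd_neg, neg_sub]; exact hb
  have h3 := I.add_mem hg h2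
  convert h3 using 1
  refine Prod.ext ?_ (Prod.ext (Prod.ext ?_ ?_) ?_) <;> simp

theorem exists_LamI (h : Good I) : ∃ s : PI p, LamI s = I := by
  obtain ⟨r, hr, hr2⟩ := h.2.2.2
  have h0 := p_dvd_fst h hr
  by_cases h1 : IsUnit r.2.1.1
  · exact exists_paramA h hr h1
  · have h1' := (not_isUnit_iff_dvd _).mp h1
    refine exists_paramB h hr h1' ?_
    rw [isUnit_iff_not_dvd]
    intro h2
    exact hr2 ⟨h0, h1', h2⟩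

end surj

end Pool.Agent.MP_f418a9_al
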