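import Mathlib
import Pool.Agent.Work.MP_f418a9_al.CountTwo

/-!
# The generating function for the ideals
-/

open scoped BigOperators

namespace Pool.Agent.MP_f418a9_al

/-- the factor coming from `m` -/
noncomputable def geoM (p k : ℕ) : PowerSeries ℤ :=
  gen (fun n => Finset.range (n + 1)) (fun m => 2 * k * m) (fun m => ((nlat p m * p ^ m : ℕ) : ℤ))

lemma geoM_eq (p : ℕ) {k : ℕ} (hk : 0 < k) : geoM p k =
    1 + (PowerSeries.C (((p : ℤ) + 1) * (p : ℤ)) * PowerSeries.X ^ (2 * k)) *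
      geo ((p : ℤ) ^ 2) (2 * k) := by
  have h2k : 0 < 2 * k := by omega
  have hsplit : ∀ m : ℕ, ((nlat p m * p ^ m : ℕ) : ℤ) =
      (if m = 0 then 1 else 0) +
        (if m = 0 then 0 else ((p : ℤ) + 1) * (p : ℤ) * ((p : ℤ) ^ 2) ^ (m - 1)) := by
    intro m
    rcases m with _ | m
    · simp [nlat]
    · simp [nlat]
      ring
  rw [geoM, gen_congr hsplit, gen_add]
  congr 1
  · ext n
    rw [PowerSeries.coeff_one]
    simp only [gen, PowerSeries.coeff_mk]
    by_cases hn : n = 0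
    · subst hn
      simp
    · rw [if_neg hn]
      refine Finset.sum_eq_zero fun m _ => ?_
      split_ifs with h1 h2
      · subst h2; simp at h1; exact absurd h1.symm hn
      · rfl
      · rfl
  · rw [geo, mul_assoc, ← gen_shift _ (geo_mem h2k) (2 * k), ← gen_const_mul]
    refine gen_reindex (geo_mem h2k) ?_ (fun m => m + 1) ?_ ?_ ?_ ?_
    · intro a n h
      exact geo_mem h2k a n (by omega)
    · intro a b h
      simpa using h
    · intro b; ring
    · intro b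
      simp
    · intro a ha
      rw [if_pos]
      by_contra h0
      exact ha ⟨a - 1, by simp only; omega⟩

lemma geoM_mem {k : ℕ} (hk : 0 < k) : ∀ i n : ℕ, 2 * k * i ≤ n → i ∈ Finset.range (n + 1) :=
  geo_mem (by omega)

theorem gen_W2 (p : ℕ) {k : ℕ} (hk : 0 < k) :
    gen box4 (fun t => k * deg2 t) (fun t => (W2 p t : ℤ)) =
      geo ((p : ℤ) ^ 3) (4 * k) * (geo ((p : ℤ) ^ 2) (3 * k) * (geoM p k * geo 1 k)) := by
  have h34 := gen_mul (fun m => ((nlat p m * p ^ m : ℕ) : ℤ)) (geoM_mem hk)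
    (fun i : ℕ => (1 : ℤ) ^ i) (geo_mem hk)
  have m34 : ∀ (x : ℕ × ℕ) (n : ℕ), 2 * k * x.1 + k * x.2 ≤ n →
      x ∈ Finset.range (n + 1) ×ˢ Finset.range (n + 1) := by
    intro x n h
    rw [Finset.mem_product]
    exact ⟨geoM_mem hk _ _ (by omega), geo_mem hk _ _ (by omega)⟩
  have h234 := gen_mul (fun i : ℕ => ((p : ℤ) ^ 2) ^ i) (geo_mem (u := 3 * k) (by omega))
    (fun x : ℕ × ℕ => ((nlat p x.1 * p ^ x.1 : ℕ) : ℤ) * (1 : ℤ) ^ x.2) m34
  have m234 : ∀ (x : ℕ × (ℕ × ℕ)) (n : ℕ), 3 * k * x.1 + (2 * k * x.2.1 + k * x.2.2) ≤ n →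
      x ∈ Finset.range (n + 1) ×ˢ (Finset.range (n + 1) ×ˢ Finset.range (n + 1)) := by
    intro x n h
    rw [Finset.mem_product]
    exact ⟨geo_mem (u := 3 * k) (by omega) _ _ (by omega), m34 _ _ (by omega)⟩
  have h1234 := gen_mul (fun i : ℕ => ((p : ℤ) ^ 3) ^ i) (geo_mem (u := 4 * k) (by omega))
    (fun x : ℕ × (ℕ × ℕ) => ((p : ℤ) ^ 2) ^ x.1 *
      (((nlat p x.2.1 * p ^ x.2.1 : ℕ) : ℤ) * (1 : ℤ) ^ x.2.2)) m234
  rw [geo, geo, geo, geoM, h34, h234, h1234]
  have hd : (fun t : ℕ × (ℕ × (ℕ × ℕ)) => k * deg2 t) =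
      fun x => 4 * k * x.1 + (3 * k * x.2.1 + (2 * k * x.2.2.1 + k * x.2.2.2)) := by
    funext t
    simp only [deg2]
    ring
  rw [hd]
  refine gen_congr ?_
  intro t
  simp only [W2]
  push_cast
  ring

open Polynomial in
theorem uniform_W2 {k : ℕ} (hk : 0 < k) :
    IsUniform (σ := Unit) (fun p _ => gen box4 (fun t => k * deg2 t) (fun t => (W2 p t : ℤ))) := by
  have g2 : ∀ (k u : ℕ), 0 < u → IsUniform (σ := Unit)
      (fun p _ => MP_f418a9_al.geo ((p : ℤ) ^ k) u) := by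
    intro k u hu
    refine (IsUniform.geo (X ^ k) hu).congr (N₀ := 0) fun p _ _ => by simp
  have g0 : ∀ (u : ℕ), 0 < u → IsUniform (σ := Unit) (fun p _ => MP_f418a9_al.geo 1 u) := by
    intro u hu
    refine (IsUniform.geo 1 hu).congr (N₀ := 0) fun p _ _ => by simp
  have m : ∀ (f : ℤ[X]) (s : ℕ), IsUniform (σ := Unit) (fun p _ =>
      (PowerSeries.C (f.eval (p : ℤ)) * PowerSeries.X ^ s : PowerSeries ℤ)) :=
    fun f s => IsUniform.monom f s
  have hM : IsUniform (σ := Unit) (fun p _ => geoM p k) := by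
    refine ((m 1 0).add ((m ((X + 1) * X) (2 * k)).mul (g2 2 (2 * k) (by omega)))).congr
      (N₀ := 0) fun p _ _ => ?_
    rw [geoM_eq p hk]
    simp
  refine ((g2 3 (4 * k) (by omega)).mul ((g2 2 (3 * k) (by omega)).mul
    (hM.mul (g0 k hk)))).congr (N₀ := 0) fun p _ _ => ?_
  rw [gen_W2 p hk]

end Pool.Agent.MP_f418a9_al
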