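import Mathlib
import Pool.Agent.Work.MP_f418a9_al.Defs

/-!
# Lie algebras over `ℤ` given by structure constants
-/

open scoped BigOperators

namespace Pool.Agent.MP_f418a9_al

/-- The multiplication of the `ℤ`-algebra `ℤ^d` with structure constants `c`. -/
def intMul {d : ℕ} (c : StructureConstants d) (x y : Fin d → ℤ) : Fin d → ℤ :=
  fun k => ∑ i, ∑ j, c i j k * (x i * y j)

/-- The `ℤ`-algebra with structure constants `c` is a Lie algebra: the multiplication is
alternating and satisfies the Jacobi identity. -/
def IsLieAlg {d : ℕ} (c : StructureConstants d) : Prop :=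
  (∀ x : Fin d → ℤ, intMul c x x = 0) ∧
    ∀ x y z : Fin d → ℤ, intMul c x (intMul c y z) + intMul c y (intMul c z x) +
      intMul c z (intMul c x y) = 0

end Pool.Agent.MP_f418a9_al
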