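import Mathlib
import Pool.Agent.Work.MP_f418a9_al.LieDefs
import Pool.Agent.Work.MP_f418a9_al.CountTwo
import Pool.Agent.Work.MP_f418a9_al.Cotype

/-!
# The Lie algebra `sl₂ ⊗ R`, `R = ℤ[x, y] / (x y, x² - y²)`
-/

open scoped BigOperators

noncomputable section

namespace Pool.Agent.MP_f418a9_al

/-- structure constants of `sl₂` in the basis `e, h, f` -/
def slc : Fin 3 → Fin 3 → Fin 3 → ℤ :=
  ![![![0, 0, 0], ![-2, 0, 0], ![0, 1, 0]],
    ![![2, 0, 0], ![0, 0, 0], ![0, 0, -2]],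
    ![![0, -1, 0], ![0, 0, 2], ![0, 0, 0]]]

/-- structure constants of `R` in the basis `1, x, y, σ` -/
def r4c : Fin 4 → Fin 4 → Fin 4 → ℤ :=
  ![![![1, 0, 0, 0], ![0, 1, 0, 0], ![0, 0, 1, 0], ![0, 0, 0, 1]],
    ![![0, 1, 0, 0], ![0, 0, 0, 1], ![0, 0, 0, 0], ![0, 0, 0, 0]],
    ![![0, 0, 1, 0], ![0, 0, 0, 0], ![0, 0, 0, 1], ![0, 0, 0, 0]],
    ![![0, 0, 0, 1], ![0, 0, 0, 0], ![0, 0, 0, 0], ![0, 0, 0, 0]]]

/-- structure constants of `sl₂ ⊗ R` -/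
def cLie : StructureConstants 12 := fun i j k =>
  slc (finProdFinEquiv (m := 3) (n := 4).symm i).1 (finProdFinEquiv (m := 3) (n := 4).symm j).1
    (finProdFinEquiv (m := 3) (n := 4).symm k).1 *
  r4c (finProdFinEquiv (m := 3) (n := 4).symm i).2 (finProdFinEquiv (m := 3) (n := 4).symm j).2
    (finProdFinEquiv (m := 3) (n := 4).symm k).2

section general

variable {A : Type*} [CommRing A]

/-- multiplication over a commutative ring -/
def gMul {d : ℕ} (c : StructureConstants d) (x y : Fin d → A) : Fin d → A :=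
  fun k => ∑ i, ∑ j, (c i j k : A) * (x i * y j)

/-- the four coordinates of a component -/
def blk (x : Fin 12 → A) (i : Fin 3) : Fin 4 → A := fun a => x (finProdFinEquiv (i, a))

/-- `R ⊗ A` -/
abbrev RA (A : Type*) : Type _ := A × ((A × A) × A)

/-- product of `R ⊗ A` -/
def prodA (r s : RA A) : RA A :=
  (r.1 * s.1, ((r.1 * s.2.1.1 + r.2.1.1 * s.1, r.1 * s.2.1.2 + r.2.1.2 * s.1),
    r.1 * s.2.2 + r.2.2 * s.1 + r.2.1.1 * s.2.1.1 + r.2.1.2 * s.2.1.2))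

/-- from four coordinates -/
def toRA (r : Fin 4 → A) : RA A := (r 0, ((r 1, r 2), r 3))

lemma toRA_mul (r s : Fin 4 → A) :
    toRA (gMul r4c r s) = prodA (toRA r) (toRA s) := by
  refine Prod.ext ?_ (Prod.ext (Prod.ext ?_ ?_) ?_)
  · simp [toRA, prodA, gMul, r4c, Fin.sum_univ_four]
  · simp [toRA, prodA, gMul, r4c, Fin.sum_univ_four]
  · simp [toRA, prodA, gMul, r4c, Fin.sum_univ_four]
  · simp [toRA, prodA, gMul, r4c, Fin.sum_univ_four]
    ring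

lemma blk_gMul (x y : Fin 12 → A) (C : Fin 3) :
    blk (gMul cLie x y) C = ∑ i, ∑ j, (slc i j C : A) • gMul r4c (blk x i) (blk y j) := by
  funext c
  simp only [blk, gMul, Finset.sum_apply, Pi.smul_apply, smul_eq_mul]
  have h1 : ∀ f : Fin 12 → A, ∑ i, f i = ∑ i : Fin 3, ∑ a : Fin 4, f (finProdFinEquiv (i, a)) := by
    intro f
    rw [← Fintype.sum_prod_type' (fun (i : Fin 3) (a : Fin 4) => f (finProdFinEquiv (i, a)))]
    exact (Equiv.sum_comp (finProdFinEquiv (m := 3) (n := 4)) f).symm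
  rw [h1]
  refine Finset.sum_congr rfl fun i _ => ?_
  have h2 : ∀ a : Fin 4, (∑ j : Fin 12, (cLie (finProdFinEquiv (i, a)) j
      (finProdFinEquiv (C, c)) : A) * (x (finProdFinEquiv (i, a)) * y j)) =
      ∑ j : Fin 3, ∑ b : Fin 4, (slc i j C : A) * ((r4c a b c : A) *
        (x (finProdFinEquiv (i, a)) * y (finProdFinEquiv (j, b)))) := by
    intro a
    rw [h1]
    refine Finset.sum_congr rfl fun j _ => Finset.sum_congr rfl fun b _ => ?_
    simp only [cLie, Equiv.symm_apply_apply]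
    push_cast
    ring
  rw [Finset.sum_congr rfl (fun a _ => h2 a), Finset.sum_comm]
  refine Finset.sum_congr rfl fun j _ => ?_
  rw [Finset.mul_sum]
  refine Finset.sum_congr rfl fun a _ => ?_
  rw [Finset.mul_sum]

/-- coordinates of `sl₂ ⊗ R ⊗ A` -/
def e12 : (Fin 12 → A) ≃ₗ[A] (RA A × (RA A × RA A)) where
  toFun x := (toRA (blk x 0), (toRA (blk x 1), toRA (blk x 2)))
  invFun X := ![X.1.1, X.1.2.1.1, X.1.2.1.2, X.1.2.2, X.2.1.1, X.2.1.2.1.1, X.2.1.2.1.2,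
    X.2.1.2.2, X.2.2.1, X.2.2.2.1.1, X.2.2.2.1.2, X.2.2.2.2]
  map_add' x y := rfl
  map_smul' c x := rfl
  left_inv x := by
    funext i; fin_cases i <;> rfl
  right_inv X := rfl

/-- the bracket -/
def brk (X Y : RA A × (RA A × RA A)) : RA A × (RA A × RA A) :=
  ((2 : A) • (prodA X.2.1 Y.1 - prodA X.1 Y.2.1),
    (prodA X.1 Y.2.2 - prodA X.2.2 Y.1, (2 : A) • (prodA X.2.2 Y.2.1 - prodA X.2.1 Y.2.2)))

lemma toRA_add (r s : Fin 4 → A) : toRA (r + s) = toRA r + toRA s := rfl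
lemma toRA_smul (c : A) (r : Fin 4 → A) : toRA (c • r) = c • toRA r := rfl

theorem e12_gMul (x y : Fin 12 → A) : e12 (gMul cLie x y) = brk (e12 x) (e12 y) := by
  refine Prod.ext ?_ (Prod.ext ?_ ?_)
  · change toRA (blk (gMul cLie x y) 0) = _
    rw [blk_gMul]
    simp only [Fin.sum_univ_three, slc, toRA_add, toRA_smul, toRA_mul]
    simp [brk, e12, smul_sub]
    abel
  · change toRA (blk (gMul cLie x y) 1) = _
    rw [blk_gMul]
    simp only [Fin.sum_univ_three, slc, toRA_add, toRA_smul, toRA_mul]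
    simp [brk, e12, smul_sub]
    abel
  · change toRA (blk (gMul cLie x y) 2) = _
    rw [blk_gMul]
    simp only [Fin.sum_univ_three, slc, toRA_add, toRA_smul, toRA_mul]
    simp [brk, e12, smul_sub]
    abel

end general

lemma intMul_eq {d : ℕ} (c : StructureConstants d) (x y : Fin d → ℤ) :
    intMul c x y = gMul c x y := by
  funext k
  simp [intMul, gMul]

lemma brk_self {A : Type*} [CommRing A] (X : RA A × (RA A × RA A)) : brk X X = 0 := by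
  obtain ⟨⟨a0, ⟨a1, a2⟩, a3⟩, ⟨b0, ⟨b1, b2⟩, b3⟩, ⟨c0, ⟨c1, c2⟩, c3⟩⟩ := X
  refine Prod.ext (Prod.ext ?_ (Prod.ext (Prod.ext ?_ ?_) ?_)) (Prod.ext
    (Prod.ext ?_ (Prod.ext (Prod.ext ?_ ?_) ?_)) (Prod.ext ?_ (Prod.ext (Prod.ext ?_ ?_) ?_))) <;>
  · simp [brk, prodA]
    ring

lemma brk_jacobi {A : Type*} [CommRing A] (X Y Z : RA A × (RA A × RA A)) :
    brk X (brk Y Z) + brk Y (brk Z X) + brk Z (brk X Y) = 0 := by
  obtain ⟨⟨a0, ⟨a1, a2⟩, a3⟩, ⟨b0, ⟨b1, b2⟩, b3⟩, ⟨c0, ⟨c1, c2⟩, c3⟩⟩ := X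
  obtain ⟨⟨d0, ⟨d1, d2⟩, d3⟩, ⟨f0, ⟨f1, f2⟩, f3⟩, ⟨g0, ⟨g1, g2⟩, g3⟩⟩ := Y
  obtain ⟨⟨h0, ⟨h1, h2⟩, h3⟩, ⟨i0, ⟨i1, i2⟩, i3⟩, ⟨j0, ⟨j1, j2⟩, j3⟩⟩ := Z
  refine Prod.ext (Prod.ext ?_ (Prod.ext (Prod.ext ?_ ?_) ?_)) (Prod.ext
    (Prod.ext ?_ (Prod.ext (Prod.ext ?_ ?_) ?_)) (Prod.ext ?_ (Prod.ext (Prod.ext ?_ ?_) ?_))) <;>
  · simp only [brk, prodA, Prod.fst_add, Prod.snd_add, Prod.fst_sub, Prod.snd_sub, Prod.smul_fst,
      Prod.smul_snd, smul_eq_mul, Prod.fst_zero, Prod.snd_zero]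
    ring

theorem isLieAlg_cLie : IsLieAlg cLie := by
  constructor
  · intro x
    rw [intMul_eq]
    apply e12.injective
    rw [e12_gMul, brk_self, map_zero]
  · intro x y z
    simp only [intMul_eq]
    apply e12.injective
    rw [map_add, map_add, e12_gMul, e12_gMul, e12_gMul, e12_gMul, e12_gMul, e12_gMul, brk_jacobi,
      map_zero]

end Pool.Agent.MP_f418a9_al
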