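import Mathlib
import Pool.Agent.Work.MP_f418a9_al.LieTwo
import Pool.Agent.Work.MP_f418a9_al.GenTwo
import Pool.Agent.Work.MP_f418a9_al.CoTwo

/-!
# Ideals of `sl₂ ⊗ R(ℤ_p)`, `p` odd
-/

open scoped BigOperators

noncomputable section

namespace Pool.Agent.MP_f418a9_al

variable {p : ℕ} [hp : Fact p.Prime]

/-- `sl₂ ⊗ R(ℤ_p)` -/
abbrev L3 (p : ℕ) [Fact p.Prime] : Type := R4 p × (R4 p × R4 p)

/-- ideals of `sl₂ ⊗ R(ℤ_p)` -/
def IdealL (Λ : Submodule ℤ_[p] (L3 p)) : Prop := ∀ X ∈ Λ, ∀ Y, brk X Y ∈ Λ ∧ brk Y X ∈ Λ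

/-- `I ⊗ sl₂` -/
def cube (I : Submodule ℤ_[p] (R4 p)) : Submodule ℤ_[p] (L3 p) := I.prod (I.prod I)

lemma mem_cube {I : Submodule ℤ_[p] (R4 p)} {X : L3 p} :
    X ∈ cube I ↔ X.1 ∈ I ∧ X.2.1 ∈ I ∧ X.2.2 ∈ I := by
  unfold cube
  rw [Submodule.mem_prod, Submodule.mem_prod]

lemma prodR_comm (r s : R4 p) : prodR r s = prodR s r := by
  refine Prod.ext ?_ (Prod.ext (Prod.ext ?_ ?_) ?_) <;> simp [prodR] <;> ring

lemma prodA_eq (r s : R4 p) : prodA r s = prodR r s := rfl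

lemma idealL_cube {I : Submodule ℤ_[p] (R4 p)} (h : IdealR I) : IdealL (cube I) := by
  intro X hX Y
  rw [mem_cube] at hX
  obtain ⟨h1, h2, h3⟩ := hX
  have key : ∀ r ∈ I, ∀ s, prodA r s ∈ I ∧ prodA s r ∈ I := by
    intro r hr s
    rw [prodA_eq, prodA_eq, prodR_comm s r]
    exact ⟨h r hr s, h r hr s⟩
  constructor
  · rw [mem_cube]
    exact ⟨I.smul_mem _ (I.sub_mem (key _ h2 _).1 (key _ h1 _).1),
      I.sub_mem (key _ h1 _).1 (key _ h3 _).1,
      I.smul_mem _ (I.sub_mem (key _ h3 _).1 (key _ h2 _).1)⟩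
  · rw [mem_cube]
    exact ⟨I.smul_mem _ (I.sub_mem (key _ h1 _).2 (key _ h2 _).2),
      I.sub_mem (key _ h3 _).2 (key _ h1 _).2,
      I.smul_mem _ (I.sub_mem (key _ h2 _).2 (key _ h3 _).2)⟩

lemma isUnit_two (h2 : p ≠ 2) : IsUnit (2 : ℤ_[p]) := by
  rw [isUnit_iff_not_dvd]
  intro h
  have h1 : (p : ℤ_[p]) ^ 1 ∣ ((2 : ℤ) : ℤ_[p]) := by
    rw [pow_one]; exact_mod_cast h
  rw [PadicInt.pow_p_dvd_int_iff, pow_one] at h1
  have h3 : p ∣ 2 := by exact_mod_cast h1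
  exact h2 ((Nat.prime_dvd_prime_iff_eq hp.1 Nat.prime_two).mp h3)

lemma half_mem {M : Type*} [AddCommGroup M] [Module ℤ_[p] M] {N : Submodule ℤ_[p] M}
    (h2 : p ≠ 2) {x : M} (h : (2 : ℤ_[p]) • x ∈ N) : x ∈ N := by
  obtain ⟨v, hv⟩ := isUnit_two h2
  have := N.smul_mem ((v⁻¹ : ℤ_[p]ˣ) : ℤ_[p]) h
  rwa [← hv, smul_smul, Units.inv_mul, one_smul] at this

/-- the unit of `R` -/
def oneR (p : ℕ) [Fact p.Prime] : R4 p := (1, ((0, 0), 0))

lemma prodA_one (r : R4 p) : prodA r (oneR p) = r := by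
  refine Prod.ext ?_ (Prod.ext (Prod.ext ?_ ?_) ?_) <;> simp [prodA, oneR]

lemma one_prodA (r : R4 p) : prodA (oneR p) r = r := by
  refine Prod.ext ?_ (Prod.ext (Prod.ext ?_ ?_) ?_) <;> simp [prodA, oneR]

lemma prodA_zero (r : R4 p) : prodA r 0 = 0 := by
  refine Prod.ext ?_ (Prod.ext (Prod.ext ?_ ?_) ?_) <;> simp [prodA]

lemma zero_prodA (r : R4 p) : prodA 0 r = 0 := by
  refine Prod.ext ?_ (Prod.ext (Prod.ext ?_ ?_) ?_) <;> simp [prodA]

/-- Every ideal of `sl₂ ⊗ R(ℤ_p)` is of the form `I ⊗ sl₂`. -/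
theorem exists_cube (h2 : p ≠ 2) {Λ : Submodule ℤ_[p] (L3 p)} (h : IdealL Λ) :
    ∃ I, IdealR I ∧ Λ = cube I := by
  let I : Submodule ℤ_[p] (R4 p) := Λ.comap (LinearMap.inl ℤ_[p] (R4 p) (R4 p × R4 p))
  have hI : ∀ r, r ∈ I ↔ ((r, (0, 0)) : L3 p) ∈ Λ := fun r => Iff.rfl
  -- components
  have hcomp : ∀ X ∈ Λ, ((X.1, (0, 0)) : L3 p) ∈ Λ ∧ ((0, (X.2.1, 0)) : L3 p) ∈ Λ ∧
      ((0, (0, X.2.2)) : L3 p) ∈ Λ := by
    intro X hX
    have h3 := (h X hX (0, (oneR p, 0))).2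
    have e3 : brk ((0, (oneR p, 0)) : L3 p) X = ((2 : ℤ_[p]) • X.1, (0, (2 : ℤ_[p]) • (-X.2.2))) := by
      refine Prod.ext ?_ (Prod.ext ?_ ?_)
      · simp only [brk, one_prodA, zero_prodA, sub_zero]
      · simp only [brk, zero_prodA, sub_zero]
      · simp only [brk, one_prodA, zero_prodA, zero_sub]
    rw [e3] at h3
    have h4 := (h _ h3 (0, (oneR p, 0))).2
    have e4 : brk ((0, (oneR p, 0)) : L3 p) ((2 : ℤ_[p]) • X.1, (0, (2 : ℤ_[p]) • (-X.2.2))) =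
        ((2 : ℤ_[p]) • ((2 : ℤ_[p]) • X.1), (0, (2 : ℤ_[p]) • ((2 : ℤ_[p]) • X.2.2))) := by
      refine Prod.ext ?_ (Prod.ext ?_ ?_)
      · simp only [brk, one_prodA, zero_prodA, sub_zero]
      · simp only [brk, zero_prodA, sub_zero]
      · simp only [brk, one_prodA, zero_prodA, zero_sub, smul_neg, neg_neg]
    rw [e4] at h4
    have k1 : ((X.1, (0, 0)) : L3 p) ∈ Λ := by
      apply half_mem h2
      apply half_mem h2
      apply half_mem h2
      have := Λ.add_mem (Λ.smul_mem (2 : ℤ_[p]) h3) h4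
      convert this using 1
      refine Prod.ext ?_ (Prod.ext ?_ ?_)
      · simp only [Prod.smul_mk, Prod.mk_add_mk, smul_smul, ← add_smul]
        norm_num
      · simp
      · simp [smul_smul]
    have k3 : ((0, (0, X.2.2)) : L3 p) ∈ Λ := by
      apply half_mem h2
      apply half_mem h2
      have h5 := Λ.sub_mem h4 (Λ.smul_mem (4 : ℤ_[p]) k1)
      convert h5 using 1
      refine Prod.ext ?_ (Prod.ext ?_ ?_)
      · simp only [Prod.smul_mk, Prod.mk_sub_mk, smul_smul, ← sub_smul]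
        norm_num
      · simp
      · simp [smul_smul]
    refine ⟨k1, ?_, k3⟩
    have := Λ.sub_mem (Λ.sub_mem hX k1) k3
    convert this using 1
    refine Prod.ext ?_ (Prod.ext ?_ ?_) <;> simp
  -- passing between components
  have e_to_h : ∀ r s : R4 p, ((r, (0, 0)) : L3 p) ∈ Λ → ((0, (prodA r s, 0)) : L3 p) ∈ Λ := by
    intro r s hr
    have := (h _ hr (0, (0, s))).1
    convert this using 1
    refine Prod.ext ?_ (Prod.ext ?_ ?_)
    · simp only [brk, zero_prodA, prodA_zero, sub_zero, smul_zero]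
    · simp only [brk, zero_prodA, sub_zero]
    · simp only [brk, zero_prodA, sub_zero, smul_zero]
  have h_to_e : ∀ r s : R4 p, ((0, (r, 0)) : L3 p) ∈ Λ → ((prodA r s, (0, 0)) : L3 p) ∈ Λ := by
    intro r s hr
    apply half_mem h2
    have := (h _ hr (s, (0, 0))).1
    convert this using 1
    refine Prod.ext ?_ (Prod.ext ?_ ?_)
    · simp only [brk, zero_prodA, sub_zero, Prod.smul_mk]
    · simp only [brk, zero_prodA, sub_zero, Prod.smul_mk, smul_zero]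
    · simp only [brk, zero_prodA, prodA_zero, sub_zero, Prod.smul_mk, smul_zero]
  have f_to_h : ∀ r s : R4 p, ((0, (0, r)) : L3 p) ∈ Λ → ((0, (prodA r s, 0)) : L3 p) ∈ Λ := by
    intro r s hr
    have := Λ.neg_mem (h _ hr (s, (0, 0))).1
    convert this using 1
    refine Prod.ext ?_ (Prod.ext ?_ ?_)
    · simp only [brk, zero_prodA, sub_zero, smul_zero, Prod.fst_neg, neg_zero]
    · simp only [brk, zero_prodA, zero_sub, Prod.fst_neg, Prod.snd_neg, neg_neg]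
    · simp only [brk, zero_prodA, prodA_zero, sub_zero, smul_zero, Prod.snd_neg, neg_zero]
  have h_to_f : ∀ r s : R4 p, ((0, (r, 0)) : L3 p) ∈ Λ → ((0, (0, prodA r s)) : L3 p) ∈ Λ := by
    intro r s hr
    apply half_mem h2
    have := Λ.neg_mem (h _ hr (0, (0, s))).1
    convert this using 1
    refine Prod.ext ?_ (Prod.ext ?_ ?_)
    · simp only [brk, zero_prodA, prodA_zero, sub_zero, smul_zero, Prod.fst_neg, neg_zero,
        Prod.smul_mk]
    · simp only [brk, zero_prodA, sub_zero, smul_zero, Prod.fst_neg, Prod.snd_neg, neg_zero,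
        Prod.smul_mk]
    · simp only [brk, zero_prodA, zero_sub, smul_neg, Prod.snd_neg, neg_neg, Prod.smul_mk]
  have hh : ∀ r, ((0, (r, 0)) : L3 p) ∈ Λ ↔ r ∈ I := by
    intro r
    rw [hI]
    constructor
    · intro h1
      have := h_to_e r (oneR p) h1
      rwa [prodA_one] at this
    · intro h1
      have := e_to_h r (oneR p) h1
      rwa [prodA_one] at this
  have hf : ∀ r, ((0, (0, r)) : L3 p) ∈ Λ ↔ r ∈ I := by
    intro r
    rw [← hh]
    constructor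
    · intro h1
      have := f_to_h r (oneR p) h1
      rwa [prodA_one] at this
    · intro h1
      have := h_to_f r (oneR p) h1
      rwa [prodA_one] at this
  refine ⟨I, ?_, ?_⟩
  · intro r hr s
    rw [← prodA_eq, ← hh]
    exact e_to_h r s ((hI r).mp hr)
  · ext X
    rw [mem_cube]
    constructor
    · intro hX
      obtain ⟨k1, k2, k3⟩ := hcomp X hX
      exact ⟨(hI _).mpr k1, (hh _).mp k2, (hf _).mp k3⟩
    · rintro ⟨k1, k2, k3⟩
      have := Λ.add_mem (Λ.add_mem ((hI _).mp k1) ((hh _).mpr k2)) ((hf _).mpr k3)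
      convert this using 1
      refine Prod.ext ?_ (Prod.ext ?_ ?_) <;> simp

lemma cube_injective : Function.Injective (cube (p := p)) := by
  intro I I' h
  ext r
  have h1 : ((r, (0, 0)) : L3 p) ∈ cube I ↔ ((r, (0, 0)) : L3 p) ∈ cube I' := by rw [h]
  rw [mem_cube, mem_cube] at h1
  simpa using h1

theorem card_quot_cube (I : Submodule ℤ_[p] (R4 p)) :
    Nat.card (L3 p ⧸ cube I) = Nat.card (R4 p ⧸ I) ^ 3 := by
  let f : L3 p →ₗ[ℤ_[p]] ((R4 p ⧸ I) × ((R4 p ⧸ I) × (R4 p ⧸ I))) :=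
    LinearMap.prodMap I.mkQ (LinearMap.prodMap I.mkQ I.mkQ)
  have hf : Function.Surjective f :=
    Function.Surjective.prodMap (Submodule.mkQ_surjective _)
      (Function.Surjective.prodMap (Submodule.mkQ_surjective _) (Submodule.mkQ_surjective _))
  rw [card_quot_of_surj f hf (K := cube I), Nat.card_prod, Nat.card_prod]
  · ring
  · ext X
    rw [mem_cube, LinearMap.mem_ker]
    simp only [f, LinearMap.prodMap_apply, Submodule.mkQ_apply, Prod.mk_eq_zero,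
      Submodule.Quotient.mk_eq_zero]

/-! ### Transport to `ℤ_p^12` -/

/-- transport of submodules -/
def mapL : Submodule ℤ_[p] (Fin 12 → ℤ_[p]) ≃ Submodule ℤ_[p] (L3 p) :=
  (Submodule.orderIsoMapComap (e12 (A := ℤ_[p]))).toEquiv

lemma mem_mapL {Λ : Submodule ℤ_[p] (Fin 12 → ℤ_[p])} {x : Fin 12 → ℤ_[p]} :
    e12 x ∈ mapL Λ ↔ x ∈ Λ := by
  change e12 x ∈ Λ.map (e12 (A := ℤ_[p]) : (Fin 12 → ℤ_[p]) →ₗ[ℤ_[p]] _) ↔ _
  constructor
  · rintro ⟨y, hy, hyx⟩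
    have := e12.injective hyx
    exact this ▸ hy
  · intro h; exact Submodule.mem_map_of_mem h

lemma locMul_eq (x y : Fin 12 → ℤ_[p]) : locMul p cLie x y = gMul cLie x y := rfl

lemma isIdeal2_iff (Λ : Submodule ℤ_[p] (Fin 12 → ℤ_[p])) :
    IsIdeal2 p cLie Λ ↔ IdealL (mapL Λ) := by
  constructor
  · intro h X hX Y
    obtain ⟨x, rfl⟩ := e12.surjective X
    obtain ⟨y, rfl⟩ := e12.surjective Y
    rw [← e12_gMul, ← e12_gMul, mem_mapL, mem_mapL]
    exact h x (mem_mapL.mp hX) y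
  · intro h x hx y
    have := h _ (mem_mapL.mpr hx) (e12 y)
    rw [← e12_gMul, ← e12_gMul, mem_mapL, mem_mapL] at this
    exact this

lemma card_mapL (Λ : Submodule ℤ_[p] (Fin 12 → ℤ_[p])) :
    Nat.card (L3 p ⧸ mapL Λ) = Nat.card ((Fin 12 → ℤ_[p]) ⧸ Λ) :=
  (Nat.card_congr (Submodule.Quotient.equiv Λ (mapL Λ) e12 rfl).toEquiv).symm

/-- The ideal of `sl₂ ⊗ R` attached to an ideal of `R`, in coordinates. -/
def lieOf (I : Submodule ℤ_[p] (R4 p)) : Submodule ℤ_[p] (Fin 12 → ℤ_[p]) := mapL.symm (cube I)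

lemma lieOf_injective : Function.Injective (lieOf (p := p)) :=
  mapL.symm.injective.comp cube_injective

lemma mem_lieOf {I : Submodule ℤ_[p] (R4 p)} {x : Fin 12 → ℤ_[p]} :
    x ∈ lieOf I ↔ (e12 x).1 ∈ I ∧ (e12 x).2.1 ∈ I ∧ (e12 x).2.2 ∈ I := by
  rw [lieOf, ← mem_mapL, Equiv.apply_symm_apply, mem_cube]

lemma isIdeal2_lieOf {I : Submodule ℤ_[p] (R4 p)} (h : IdealR I) : IsIdeal2 p cLie (lieOf I) := by
  rw [isIdeal2_iff, lieOf, Equiv.apply_symm_apply]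
  exact idealL_cube h

lemma card_lieOf (I : Submodule ℤ_[p] (R4 p)) :
    Nat.card ((Fin 12 → ℤ_[p]) ⧸ lieOf I) = Nat.card (R4 p ⧸ I) ^ 3 := by
  rw [← card_mapL, lieOf, Equiv.apply_symm_apply, card_quot_cube]

theorem exists_lieOf (h2 : p ≠ 2) {Λ : Submodule ℤ_[p] (Fin 12 → ℤ_[p])} (h : IsIdeal2 p cLie Λ) :
    ∃ I, IdealR I ∧ Λ = lieOf I := by
  rw [isIdeal2_iff] at h
  obtain ⟨I, hI, hΛ⟩ := exists_cube h2 h
  exact ⟨I, hI, by rw [lieOf, ← hΛ, Equiv.symm_apply_apply]⟩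

/-! ### The index zeta function -/

theorem ncard_idx (h2 : p ≠ 2) (n : ℕ) :
    {Λ | IsIdeal2 p cLie Λ ∧ Nat.card ((Fin 12 → ℤ_[p]) ⧸ Λ) = p ^ n}.ncard =
      {I : Submodule ℤ_[p] (R4 p) | IdealR I ∧ Nat.card (R4 p ⧸ I) ^ 3 = p ^ n}.ncard := by
  have : {Λ | IsIdeal2 p cLie Λ ∧ Nat.card ((Fin 12 → ℤ_[p]) ⧸ Λ) = p ^ n} =
      lieOf '' {I : Submodule ℤ_[p] (R4 p) | IdealR I ∧ Nat.card (R4 p ⧸ I) ^ 3 = p ^ n} := by
    ext Λ
    constructor
    · rintro ⟨h, hc⟩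
      obtain ⟨I, hI, rfl⟩ := exists_lieOf h2 h
      rw [card_lieOf] at hc
      exact ⟨I, ⟨hI, hc⟩, rfl⟩
    · rintro ⟨I, ⟨hI, hc⟩, rfl⟩
      exact ⟨isIdeal2_lieOf hI, by rw [card_lieOf]; exact hc⟩
  rw [this, Set.ncard_image_of_injective _ lieOf_injective]

theorem zetaIdx_cLie (h2 : p ≠ 2) :
    zetaIdx p (IsIdeal2 p cLie) = gen box4 (fun t => 3 * deg2 t) (fun t => (W2 p t : ℤ)) := by
  ext n
  rw [zetaIdx, PowerSeries.coeff_mk, ncard_idx h2, gen, PowerSeries.coeff_mk]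
  by_cases hn : ∃ k, n = 3 * k
  · obtain ⟨k, rfl⟩ := hn
    have h1 : {I : Submodule ℤ_[p] (R4 p) | IdealR I ∧ Nat.card (R4 p ⧸ I) ^ 3 = p ^ (3 * k)} =
        {I : Submodule ℤ_[p] (R4 p) | IdealR I ∧ Nat.card (R4 p ⧸ I) = p ^ k} := by
      ext I
      have : Nat.card (R4 p ⧸ I) ^ 3 = p ^ (3 * k) ↔ Nat.card (R4 p ⧸ I) = p ^ k := by
        rw [mul_comm, pow_mul]
        exact (Nat.pow_left_injective (n := 3) (by norm_num)).eq_iff
      change IdealR I ∧ _ ↔ IdealR I ∧ _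
      rw [this]
    rw [h1, ← Nat.card_coe_set_eq]
    have h3 := card_idealR (p := p) k
    have h4 : Nat.card ({I : Submodule ℤ_[p] (R4 p) | IdealR I ∧ Nat.card (R4 p ⧸ I) = p ^ k} :
        Set _) = ∑ t ∈ TT2 k, W2 p t := h3
    rw [h4, Nat.cast_sum, TT2, Finset.sum_filter]
    rw [sum_ite_congr_set (S := box4 k) (T := box4 (3 * k)) (fun t => ((W2 p t : ℕ) : ℤ))
      (P := fun t => deg2 t = k) (fun t ht => ⟨fun _ => deg2_mem _ _ (by omega),
        fun _ => deg2_mem _ _ ht.le⟩)]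
    refine Finset.sum_congr rfl fun t _ => ?_
    by_cases h5 : deg2 t = k
    · rw [if_pos h5, if_pos (by omega)]
    · rw [if_neg h5, if_neg (by omega)]
  · have h1 : {I : Submodule ℤ_[p] (R4 p) | IdealR I ∧ Nat.card (R4 p ⧸ I) ^ 3 = p ^ n} = ∅ := by
      rw [Set.eq_empty_iff_forall_notMem]
      rintro I ⟨-, hI⟩
      have h3 : Nat.card (R4 p ⧸ I) ∣ p ^ n := by
        rw [← hI]; exact dvd_pow_self _ (by norm_num)
      obtain ⟨j, -, hj⟩ := (Nat.dvd_prime_pow hp.1).mp h3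
      rw [hj, ← pow_mul] at hI
      have := Nat.pow_right_injective hp.1.two_le hI
      exact hn ⟨j, by omega⟩
    rw [h1, Set.ncard_empty, Nat.cast_zero]
    symm
    refine Finset.sum_eq_zero fun t _ => ?_
    rw [if_neg]
    intro h
    exact hn ⟨_, h.symm⟩

theorem uniform_zetaIdx_cLie :
    IsUniform (σ := Unit) (fun p _ => zetaIdx p (IsIdeal2 p cLie)) :=
  (uniform_W2 (k := 3) (by norm_num)).congr (N₀ := 2) fun _ _ hp2 =>
    (zetaIdx_cLie (by omega)).symm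

end Pool.Agent.MP_f418a9_al
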