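import Mathlib
import Pool.Agent.Work.MP_f418a9_al.Rational

/-!
# A criterion for non-uniformity
-/

open scoped BigOperators

namespace Pool.Agent.MP_f418a9_al

open Polynomial in
/-- If some coefficient of `Z p` is given by the polynomial `C(p)` for all primes `p ≡ 3 mod 4` and
differs from `C(p)` for all large primes `p ≡ 1 mod 4`, then `Z` is not uniform. -/
theorem not_uniform_of_mod_four {σ : Type*} [LinearOrder σ] [WellFoundedGT σ]
    {Z : ∀ p : ℕ, [Fact p.Prime] → MvPowerSeries σ ℤ} (k : σ →₀ ℕ) (C : ℤ[X])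
    (h3 : ∀ (p : ℕ) [Fact p.Prime], p % 4 = 3 → MvPowerSeries.coeff k (Z p) = C.eval (p : ℤ))
    (h1 : ∀ (p : ℕ) [Fact p.Prime], p % 4 = 1 → MvPowerSeries.coeff k (Z p) ≠ C.eval (p : ℤ)) :
    ¬ IsUniform Z := by
  intro h
  obtain ⟨A, B, N, hB, hAB⟩ := coeff_rational h k
  have hA : A = B * C := by
    refine Polynomial.eq_of_infinite_eval_eq _ _ ?_
    have hinj : Function.Injective (fun n : ℕ => (n : ℤ)) := fun a b h => Int.ofNat.inj h
    have hinf : {p : ℕ | N < p ∧ p.Prime ∧ p % 4 = 3}.Infinite := by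
      rw [Set.infinite_iff_exists_gt]
      intro n
      obtain ⟨p, hp, hpp, hm⟩ := Nat.forall_exists_prime_gt_and_modEq (max n N) (q := 4) (a := 3)
        (by norm_num) (by norm_num)
      exact ⟨p, ⟨lt_of_le_of_lt (le_max_right _ _) hp, hpp, hm⟩,
        lt_of_le_of_lt (le_max_left _ _) hp⟩
    refine (hinf.image hinj.injOn).mono ?_
    rintro x ⟨p, ⟨hp1, hp2, hp3⟩, rfl⟩
    have : Fact p.Prime := ⟨hp2⟩
    simp only [Set.mem_setOf_eq]
    rw [← hAB p hp1, eval_mul, h3 p hp3]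
  have hfin : {x : ℤ | B.eval x = 0}.Finite := by
    have := Polynomial.finite_setOf_isRoot hB
    exact this
  obtain ⟨M, hM⟩ := hfin.bddAbove
  obtain ⟨p, hp, hpp, hm⟩ := Nat.forall_exists_prime_gt_and_modEq (max M.toNat N) (q := 4) (a := 1)
    (by norm_num) (by norm_num)
  have : Fact p.Prime := ⟨hpp⟩
  have hne : B.eval (p : ℤ) ≠ 0 := by
    intro h0
    have h2 := hM h0
    have h4 : M.toNat < p := lt_of_le_of_lt (le_max_left _ _) hp
    omega
  have h5 := hAB p (lt_of_le_of_lt (le_max_right _ _) hp)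
  rw [hA, eval_mul] at h5
  exact h1 p hm (mul_left_cancel₀ hne h5)

/-- Solutions of `u ^ 2 ≡ -1` modulo `p`. -/
lemma exists_sq_add_one {p : ℕ} [Fact p.Prime] (h : p % 4 = 1) : ∃ u : ℕ, u < p ∧ p ∣ u ^ 2 + 1 := by
  have h1 : IsSquare (-1 : ZMod p) := by
    rw [ZMod.exists_sq_eq_neg_one_iff]; omega
  obtain ⟨y, hy⟩ := h1
  refine ⟨y.val, ZMod.val_lt y, ?_⟩
  rw [← ZMod.natCast_eq_zero_iff]
  push_cast
  rw [ZMod.natCast_val, ZMod.cast_id, pow_two, ← hy]
  ring

lemma not_dvd_sq_add_one {p : ℕ} [Fact p.Prime] (h : p % 4 = 3) (u : ℕ) : ¬ p ∣ u ^ 2 + 1 := by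
  intro hd
  rw [← ZMod.natCast_eq_zero_iff] at hd
  push_cast at hd
  have h1 : ((u : ZMod p)) ^ 2 = -1 := by linear_combination hd
  exact ZMod.mod_four_ne_three_of_sq_eq_neg_one h1 h

end Pool.Agent.MP_f418a9_al
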