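import Mathlib
import Pool.Agent.Work.MP_f418a9_al.CoOneCount
import Pool.Agent.Work.MP_f418a9_al.NonUnif

/-!
# The cotype zeta function of the rank three algebra is not uniform
-/

open scoped BigOperators

namespace Pool.Agent.MP_f418a9_al

lemma card_alpha_zero (p : ℕ) [hp : Fact p.Prime] :
    Fintype.card {x : Fin (p ^ 1) × Fin (p ^ 2) // (x.1 : ℕ) = 0} = p ^ 2 := by
  have hpos : 0 < p ^ 1 := by rw [pow_one]; exact hp.1.pos
  have e : {x : Fin (p ^ 1) × Fin (p ^ 2) // (x.1 : ℕ) = 0} ≃ Fin (p ^ 2) :=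
    { toFun := fun x => x.1.2
      invFun := fun u => ⟨(⟨0, hpos⟩, u), rfl⟩
      left_inv := by
        rintro ⟨⟨a, u⟩, h⟩
        have h' : (a : ℕ) = 0 := h
        apply Subtype.ext
        refine Prod.ext (Fin.ext h'.symm) rfl
      right_inv := fun u => rfl }
  rw [Fintype.card_congr e, Fintype.card_fin]

lemma coeff_zetaCo {d : ℕ} (p : ℕ) [Fact p.Prime]
    (S : Submodule ℤ_[p] (Fin d → ℤ_[p]) → Prop) (k : Fin d →₀ ℕ) :
    MvPowerSeries.coeff k (zetaCo p S) = ({Λ | S Λ ∧ HasCotype p Λ k}.ncard : ℤ) := rfl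

open Polynomial in
/-- The cotype zeta function of the rank three algebra is not uniform. -/
theorem not_uniform_zetaCo_cOne :
    ¬ IsUniform (σ := Fin 3) (fun p _ => zetaCo p (IsSubalg p cOne)) := by
  refine not_uniform_of_mod_four (Finsupp.equivFunOnFinite.symm k220) (X ^ 2 + X + 1) ?_ ?_
  · intro p hp h3
    rw [coeff_zetaCo, Finsupp.coe_equivFunOnFinite_symm, ncard_k220]
    have e : Fintype.card {x : Fin (p ^ 1) × Fin (p ^ 2) //
        (x.1 : ℕ) = 0 ∨ p ∣ (x.2 : ℕ) ^ 2 + 1} = p ^ 2 := by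
      refine Eq.trans ?_ (card_alpha_zero p)
      refine Fintype.card_congr (Equiv.subtypeEquivRight fun x => ?_)
      exact or_iff_left (not_dvd_sq_add_one h3 _)
    rw [e]
    simp only [eval_add, eval_pow, eval_X, eval_one]
    push_cast
    ring
  · intro p hp h1 h
    rw [coeff_zetaCo, Finsupp.coe_equivFunOnFinite_symm, ncard_k220] at h
    have hlt : p ^ 2 < Fintype.card {x : Fin (p ^ 1) × Fin (p ^ 2) //
        (x.1 : ℕ) = 0 ∨ p ∣ (x.2 : ℕ) ^ 2 + 1} := by
      refine lt_of_eq_of_lt (card_alpha_zero p).symm ?_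
      obtain ⟨u, hu, hd⟩ := exists_sq_add_one h1
      have hone : 1 < p ^ 1 := by rw [pow_one]; exact hp.1.one_lt
      have hu2 : u < p ^ 2 := lt_of_lt_of_le hu (Nat.le_self_pow two_ne_zero p)
      refine Fintype.card_lt_of_injective_of_notMem
        (fun x : {x : Fin (p ^ 1) × Fin (p ^ 2) // (x.1 : ℕ) = 0} =>
          (⟨x.1, Or.inl x.2⟩ : {x : Fin (p ^ 1) × Fin (p ^ 2) //
            (x.1 : ℕ) = 0 ∨ p ∣ (x.2 : ℕ) ^ 2 + 1})) ?_
        (b := ⟨(⟨1, hone⟩, ⟨u, hu2⟩), Or.inr hd⟩) ?_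
      · intro x y hxy
        have := congrArg Subtype.val hxy
        exact Subtype.ext this
      · rintro ⟨x, hx⟩
        have h2 := congrArg (fun y => ((y.1.1 : Fin (p ^ 1)) : ℕ)) hx
        have h3 := x.2
        simp only at h2
        omega
    have h' : (1 + (Fintype.card {x : Fin (p ^ 1) × Fin (p ^ 2) //
        (x.1 : ℕ) = 0 ∨ p ∣ (x.2 : ℕ) ^ 2 + 1} + p) : ℤ) = (p : ℤ) ^ 2 + p + 1 := by
      have := h
      simp only [eval_add, eval_pow, eval_X, eval_one] at this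
      push_cast at this
      exact this
    have h4 : 1 + (Fintype.card {x : Fin (p ^ 1) × Fin (p ^ 2) //
        (x.1 : ℕ) = 0 ∨ p ∣ (x.2 : ℕ) ^ 2 + 1} + p) = p ^ 2 + p + 1 := by
      exact_mod_cast h'
    omega

end Pool.Agent.MP_f418a9_al
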