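import Mathlib
import Pool.Agent.Work.MP_f418a9_al.LieIdl
import Pool.Agent.Work.MP_f418a9_al.MainOne

/-!
# Ideals of cotype `(2^6, 0^6)` of `sl₂ ⊗ R(ℤ_p)`
-/

open scoped BigOperators

noncomputable section

namespace Pool.Agent.MP_f418a9_al

/-- The cotype `(2, 2, 2, 2, 2, 2, 0, 0, 0, 0, 0, 0)`. -/
def kL : Fin 12 → ℕ := fun i => if i < 6 then 2 else 0

lemma antitone_kL : Antitone kL := by
  intro i j h
  unfold kL
  split_ifs with h1 h2
  · exact le_rfl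
  · exact absurd (lt_of_le_of_lt h h1) h2
  · exact Nat.zero_le _
  · exact le_rfl

lemma sum_kL : ∑ i, kL i = 12 := by decide

section

variable {p : ℕ} [hp : Fact p.Prime]

/-- A quotient killed by `p` of a module of cotype `k` has at most `p^r` elements, where `r` is the
number of nonzero entries of `k`. -/
theorem card_le_of_hasCotype {d : ℕ} {Λ Q : Submodule ℤ_[p] (Fin d → ℤ_[p])} {k : Fin d → ℕ}
    (h : HasCotype p Λ k) (hle : Λ ≤ Q) (hQ : ∀ x : Fin d → ℤ_[p], (p : ℤ_[p]) • x ∈ Q) :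
    Nat.card ((Fin d → ℤ_[p]) ⧸ Q) ≤ p ^ Fintype.card {i // 0 < k i} := by
  classical
  obtain ⟨f, hf1, hf2⟩ := exists_functionals h
  -- elements of `ℤ_p^d` with prescribed functionals
  choose g hg using hf2
  let F : ({i // 0 < k i} → Fin p) → ((Fin d → ℤ_[p]) ⧸ Q) := fun t =>
    Q.mkQ (g (fun i => if h : 0 < k i then (((t ⟨i, h⟩ : Fin p) : ℕ) : ℤ_[p]) else 0))
  have hF : Function.Surjective F := by
    intro q
    obtain ⟨x, rfl⟩ := Q.mkQ_surjective q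
    have happ : ∀ r : ℤ_[p], ∃ z : Fin p, (p : ℤ_[p]) ∣ r - ((z : ℕ) : ℤ_[p]) := by
      intro r
      obtain ⟨z, hz⟩ := exists_approx1 r
      exact ⟨⟨z, lt_of_lt_of_eq z.2 (pow_one p)⟩, hz⟩
    choose a ha using happ
    refine ⟨fun i => a (f x i.1), ?_⟩
    simp only [F]
    set y : Fin d → ℤ_[p] := fun i => if h : 0 < k i then ((a (f x i) : ℕ) : ℤ_[p]) else 0 with hy
    -- `x - g y` is in `Λ + p L`
    have hdiff : ∀ i, ∃ w : ℤ_[p], (p : ℤ_[p]) ^ k i ∣ f (x - g y) i - (p : ℤ_[p]) * w := by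
      intro i
      by_cases hk : 0 < k i
      · obtain ⟨w, hw⟩ := ha (f x i)
        refine ⟨w, ?_⟩
        have h1 := hg y i
        have h2 : y i = ((a (f x i) : ℕ) : ℤ_[p]) := by simp only [hy]; rw [dif_pos hk]
        rw [h2] at h1
        rw [map_sub, Pi.sub_apply]
        have e1 : f x i - f (g y) i - (p : ℤ_[p]) * w =
          -(f (g y) i - ((a (f x i) : ℕ) : ℤ_[p])) := by rw [← hw]; ring
        rw [e1]
        exact (dvd_neg).mpr h1
      · have : k i = 0 := by omega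
        rw [this, pow_zero]
        exact ⟨0, one_dvd _⟩
    choose w hw using hdiff
    have h3 : x - g y - (p : ℤ_[p]) • g w ∈ Λ := by
      rw [hf1]
      intro i
      have h4 := hw i
      have h5 := hg w i
      have e1 : f (x - g y - (p : ℤ_[p]) • g w) i =
          (f (x - g y) i - (p : ℤ_[p]) * w i) - (p : ℤ_[p]) * (f (g w) i - w i) := by
        rw [map_sub, map_smul, Pi.sub_apply, Pi.smul_apply, smul_eq_mul]; ring
      rw [e1]
      exact dvd_sub h4 (Dvd.dvd.mul_left h5 _)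
    have h6 : g y - x ∈ Q := by
      have := Q.neg_mem (Q.add_mem (hle h3) (hQ (g w)))
      have e1 : -(x - g y - (p : ℤ_[p]) • g w + (p : ℤ_[p]) • g w) = g y - x := by abel
      rwa [e1] at this
    exact (Submodule.Quotient.eq Q).mpr h6
  have := Nat.card_le_card_of_surjective F hF
  refine this.trans (le_of_eq ?_)
  rw [Nat.card_eq_fintype_card, Fintype.card_fun, Fintype.card_fin]

/-- the coordinates of the three components, sorted -/
def g12 : (((ℤ_[p] × ℤ_[p]) × (ℤ_[p] × ℤ_[p])) × (((ℤ_[p] × ℤ_[p]) × (ℤ_[p] × ℤ_[p])) ×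
    ((ℤ_[p] × ℤ_[p]) × (ℤ_[p] × ℤ_[p])))) ≃ₗ[ℤ_[p]] (Fin 12 → ℤ_[p]) where
  toFun X := ![X.1.1.1, X.1.1.2, X.2.1.1.1, X.2.1.1.2, X.2.2.1.1, X.2.2.1.2,
    X.1.2.1, X.1.2.2, X.2.1.2.1, X.2.1.2.2, X.2.2.2.1, X.2.2.2.2]
  invFun x := (((x 0, x 1), (x 6, x 7)), (((x 2, x 3), (x 8, x 9)), ((x 4, x 5), (x 10, x 11))))
  map_add' x y := by
    funext i; fin_cases i <;> rfl
  map_smul' c x := by
    funext i; fin_cases i <;> rfl
  left_inv x := rfl
  right_inv x := by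
    funext i; fin_cases i <;> rfl

/-- coordinates of `ℤ_p^12` adapted to `lieOf (LamI s)` -/
def E12 (s : PI p) : (Fin 12 → ℤ_[p]) ≃ₗ[ℤ_[p]] (Fin 12 → ℤ_[p]) :=
  (e12.trans ((EI s).prodCongr ((EI s).prodCongr (EI s)))).trans g12

lemma lieOf_LamI (s : PI p) : lieOf (LamI s) = coordLat (E12 s) kL := by
  ext x
  rw [mem_lieOf, mem_coordLat, LamI, mem_conLat, mem_conLat, mem_conLat]
  have hE : ∀ i, E12 s x i = g12 ((EI s) (e12 x).1, ((EI s) (e12 x).2.1, (EI s) (e12 x).2.2)) i :=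
    fun i => rfl
  constructor
  · rintro ⟨⟨h1, h2⟩, ⟨h3, h4⟩, ⟨h5, h6⟩⟩ i
    rw [hE]
    fin_cases i
    · exact h1
    · exact h2
    · exact h3
    · exact h4
    · exact h5
    · exact h6
    all_goals
      rw [show ∀ j : Fin 12, kL j = if j < 6 then 2 else 0 from fun _ => rfl]
      rw [if_neg (by decide), pow_zero]
      exact one_dvd _
  · intro h
    exact ⟨⟨h 0, h 1⟩, ⟨h 2, h 3⟩, ⟨h 4, h 5⟩⟩

theorem hasCotype_lieOf (s : PI p) : HasCotype p (lieOf (LamI s)) kL := by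
  rw [lieOf_LamI]
  exact hasCotype_coordLat _ antitone_kL

/-- The lattice `{r : p ∣ r₀, r₁, r₂}`. -/
def QQ (p : ℕ) [Fact p.Prime] : Submodule ℤ_[p] (R4 p) where
  carrier := {r | (p : ℤ_[p]) ∣ r.1 ∧ (p : ℤ_[p]) ∣ r.2.1.1 ∧ (p : ℤ_[p]) ∣ r.2.1.2}
  add_mem' := fun h1 h2 => ⟨dvd_add h1.1 h2.1, dvd_add h1.2.1 h2.2.1, dvd_add h1.2.2 h2.2.2⟩
  zero_mem' := ⟨dvd_zero _, dvd_zero _, dvd_zero _⟩
  smul_mem' := fun r _ h => ⟨Dvd.dvd.mul_left h.1 r, Dvd.dvd.mul_left h.2.1 r,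
    Dvd.dvd.mul_left h.2.2 r⟩

lemma mem_QQ {r : R4 p} : r ∈ QQ p ↔
    (p : ℤ_[p]) ∣ r.1 ∧ (p : ℤ_[p]) ∣ r.2.1.1 ∧ (p : ℤ_[p]) ∣ r.2.1.2 := Iff.rfl

theorem card_quot_QQ : Nat.card (R4 p ⧸ QQ p) = p ^ 3 := by
  have h1 : QQ p = extMod 1 (KK p 1) 0 := by
    ext r
    rw [mem_QQ, mem_extMod, pow_one]
    constructor
    · rintro ⟨⟨a, h1⟩, h2, h3⟩
      refine ⟨a, by rw [h1, mul_comm], ?_⟩
      rw [smul_zero, sub_zero, mem_KK, pow_one]
      exact ⟨h2, h3⟩
    · rintro ⟨a, h1, h2⟩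
      rw [smul_zero, sub_zero, mem_KK, pow_one] at h2
      exact ⟨⟨a, by rw [h1, mul_comm]⟩, h2.1, h2.2⟩
  rw [h1, card_quot_extMod, card_quot_KK, ← pow_add]

/-- The ideals of cotype `(2^6, 0^6)` come from good ideals of `R`. -/
theorem good_of_hasCotype {I : Submodule ℤ_[p] (R4 p)} (hI : IdealR I)
    (h : HasCotype p (lieOf I) kL) : Good I := by
  refine ⟨hI, ?_, ?_, ?_⟩
  · intro r
    have h1 := ppow_smul_mem_of_hasCotype h (N := 2) (fun i => by unfold kL; split_ifs <;> omega)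
      (e12.symm (r, (0, 0)))
    rw [mem_lieOf, map_smul, LinearEquiv.apply_symm_apply] at h1
    exact h1.1
  · have h1 := card_of_hasCotype h
    rw [card_lieOf, sum_kL] at h1
    have h2 : p ^ 12 = (p ^ 4) ^ 3 := by rw [← pow_mul]
    rw [h2] at h1
    exact (Nat.pow_left_injective (n := 3) (by norm_num)) h1
  · by_contra hcon
    push Not at hcon
    have hle : I ≤ QQ p := by
      intro r hr
      rw [mem_QQ]
      by_contra h1
      exact h1 (by
        by_contra h2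
        exact h2 (hcon r hr))
    have hle2 : lieOf I ≤ lieOf (QQ p) := by
      intro x hx
      rw [mem_lieOf] at hx ⊢
      exact ⟨hle hx.1, hle hx.2.1, hle hx.2.2⟩
    have h3 := card_le_of_hasCotype h hle2 (by
      intro x
      rw [mem_lieOf, map_smul]
      have : ∀ r : R4 p, (p : ℤ_[p]) • r ∈ QQ p := fun r =>
        ⟨Dvd.intro _ rfl, Dvd.intro _ rfl, Dvd.intro _ rfl⟩
      exact ⟨this _, this _, this _⟩)
    rw [card_lieOf, card_quot_QQ, ← pow_mul] at h3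
    have h4 : Fintype.card {i : Fin 12 // 0 < kL i} = 6 := by decide
    rw [h4] at h3
    have h5 : 3 * 3 ≤ 6 := (Nat.pow_le_pow_iff_right hp.1.one_lt).mp h3
    omega

/-- The number of ideals of cotype `(2^6, 0^6)`. -/
theorem ncard_kL (h2 : p ≠ 2) :
    {Λ | IsIdeal2 p cLie Λ ∧ HasCotype p Λ kL}.ncard =
      Fintype.card {x : Fin (p ^ 1) × Fin (p ^ 2) // (x.1 : ℕ) = 0 ∨ p ∣ (x.2 : ℕ) ^ 2 + 1} +
        p := by
  have e : PI p ≃ ({Λ | IsIdeal2 p cLie Λ ∧ HasCotype p Λ kL} : Set _) := by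
    refine Equiv.ofBijective (fun s => ⟨lieOf (LamI s), isIdeal2_lieOf (idealR_LamI s),
      hasCotype_lieOf s⟩) ⟨?_, ?_⟩
    · intro s s' h
      exact LamI_injective (lieOf_injective (Subtype.ext_iff.mp h))
    · rintro ⟨Λ, h1, h3⟩
      obtain ⟨I, hI, rfl⟩ := exists_lieOf h2 h1
      obtain ⟨s, hs⟩ := exists_LamI (good_of_hasCotype hI h3)
      exact ⟨s, Subtype.ext (by simp only; rw [hs])⟩
  rw [← Nat.card_coe_set_eq, ← Nat.card_congr e, Nat.card_eq_fintype_card, Fintype.card_sum,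
    Fintype.card_fin, pow_one]

end

open Polynomial in
/-- The cotype zeta function counting ideals of `sl₂ ⊗ R` is not uniform. -/
theorem not_uniform_zetaCo_cLie :
    ¬ IsUniform (σ := Fin 12) (fun p _ => zetaCo p (IsIdeal2 p cLie)) := by
  refine not_uniform_of_mod_four (Finsupp.equivFunOnFinite.symm kL) (X ^ 2 + X) ?_ ?_
  · intro p hp h3
    rw [coeff_zetaCo, Finsupp.coe_equivFunOnFinite_symm, ncard_kL (by omega)]
    have e : Fintype.card {x : Fin (p ^ 1) × Fin (p ^ 2) //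
        (x.1 : ℕ) = 0 ∨ p ∣ (x.2 : ℕ) ^ 2 + 1} = p ^ 2 := by
      refine Eq.trans ?_ (card_alpha_zero p)
      refine Fintype.card_congr (Equiv.subtypeEquivRight fun x => ?_)
      exact or_iff_left (not_dvd_sq_add_one h3 _)
    rw [e]
    simp only [eval_add, eval_pow, eval_X]
    push_cast
    ring
  · intro p hp h1 h
    rw [coeff_zetaCo, Finsupp.coe_equivFunOnFinite_symm, ncard_kL (by omega)] at h
    have hlt : p ^ 2 < Fintype.card {x : Fin (p ^ 1) × Fin (p ^ 2) //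
        (x.1 : ℕ) = 0 ∨ p ∣ (x.2 : ℕ) ^ 2 + 1} := by
      refine lt_of_eq_of_lt (card_alpha_zero p).symm ?_
      obtain ⟨u, hu, hd⟩ := exists_sq_add_one h1
      have hone : 1 < p ^ 1 := by rw [pow_one]; exact hp.1.one_lt
      have hu2 : u < p ^ 2 := lt_of_lt_of_le hu (Nat.le_self_pow two_ne_zero p)
      refine Fintype.card_lt_of_injective_of_notMem
        (fun x : {x : Fin (p ^ 1) × Fin (p ^ 2) // (x.1 : ℕ) = 0} =>
          (⟨x.1, Or.inl x.2⟩ : {x : Fin (p ^ 1) × Fin (p ^ 2) //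
            (x.1 : ℕ) = 0 ∨ p ∣ (x.2 : ℕ) ^ 2 + 1})) ?_
        (b := ⟨(⟨1, hone⟩, ⟨u, hu2⟩), Or.inr hd⟩) ?_
      · intro x y hxy
        have := congrArg Subtype.val hxy
        exact Subtype.ext this
      · rintro ⟨x, hx⟩
        have h2 := congrArg (fun y => ((y.1.1 : Fin (p ^ 1)) : ℕ)) hx
        have h3 := x.2
        simp only at h2
        omega
    simp only [eval_add, eval_pow, eval_X] at h
    have h4 : Fintype.card {x : Fin (p ^ 1) × Fin (p ^ 2) //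
        (x.1 : ℕ) = 0 ∨ p ∣ (x.2 : ℕ) ^ 2 + 1} + p = p ^ 2 + p := by
      exact_mod_cast h
    omega

end Pool.Agent.MP_f418a9_al
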